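import Pool.Agent.helper36.PP.SpecA

/-! pp:PRB -/

set_option autoImplicit false

open Complex Metric Set Filter Topology MeasureTheory MPS

noncomputable section

namespace PPS

theorem PRB_deg (f : Polynomial ℂ) (z : ℂ) (hf : 1 ≤ f.natDegree) :
    (f - Polynomial.C z).natDegree = f.natDegree := Polynomial.natDegree_sub_C

theorem PRB_ne (f : Polynomial ℂ) (z : ℂ) (hf : 1 ≤ f.natDegree) : f - Polynomial.C z ≠ 0 := by
  intro h
  have h1 := PRB_deg f z hf
  rw [h, Polynomial.natDegree_zero] at h1
  omega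

theorem PRB_mem (f : Polynomial ℂ) (hf : 1 ≤ f.natDegree) (z y : ℂ) : y ∈ pre f z ↔ f.eval y = z := by
  unfold pre
  rw [Polynomial.mem_roots (PRB_ne f z hf), Polynomial.IsRoot.def, Polynomial.eval_sub,
    Polynomial.eval_C, sub_eq_zero]

theorem PRB_count (f : Polynomial ℂ) (hf : 1 ≤ f.natDegree) (z y : ℂ) (h : f.eval y = z)
    (hy : fd f y ≠ 0) : (pre f z).count y = 1 := by
  have h1 : 1 ≤ (pre f z).count y := Multiset.one_le_count_iff_mem.2 ((PRB_mem f hf z y).2 h)
  unfold pre at h1 ⊢
  rw [Polynomial.count_roots] at h1 ⊢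
  by_contra h2
  have h3 : 1 < (f - Polynomial.C z).rootMultiplicity y := by omega
  rw [Polynomial.one_lt_rootMultiplicity_iff_isRoot (PRB_ne f z hf)] at h3
  apply hy
  have h4 := h3.2
  rw [Polynomial.IsRoot.def, Polynomial.derivative_sub, Polynomial.derivative_C, sub_zero] at h4
  exact h4

theorem PRB : PRB_stmt := by
  intro f hf
  have hd : f.derivative ≠ 0 := by
    intro h
    have := Polynomial.natDegree_eq_zero_of_derivative_eq_zero h
    omega
  have hcv : CV f = (fun y => f.eval y) '' (f.derivative.roots.toFinset : Set ℂ) := by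
    ext v
    simp only [CV, fd, Set.mem_setOf_eq, Set.mem_image, Finset.mem_coe, Multiset.mem_toFinset]
    constructor
    · rintro ⟨y, h1, h2⟩
      exact ⟨y, (Polynomial.mem_roots hd).2 h1, h2⟩
    · rintro ⟨y, h1, h2⟩
      exact ⟨y, (Polynomial.mem_roots hd).1 h1, h2⟩
  refine ⟨PRB_mem f hf, ?_, ?_, PRB_count f hf, ?_, ?_⟩
  · intro z
    unfold pre
    rw [← PRB_deg f z hf]
    exact (IsAlgClosed.splits _).natDegree_eq_card_roots.symm
  · intro z hz
    rw [Multiset.nodup_iff_count_le_one]
    intro y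
    by_cases hy : y ∈ pre f z
    · have h1 := (PRB_mem f hf z y).1 hy
      refine (PRB_count f hf z y h1 ?_).le
      intro h2
      exact hz ⟨y, h2, h1⟩
    · rw [Multiset.count_eq_zero_of_notMem hy]
      omega
  · rw [hcv]
    exact (Finset.finite_toSet _).image _
  · rw [hcv]
    refine (Set.ncard_image_le (Finset.finite_toSet _)).trans ?_
    rw [Set.ncard_coe_finset]
    refine (Multiset.toFinset_card_le _).trans ((Polynomial.card_roots' _).trans ?_)
    exact Polynomial.natDegree_derivative_le f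

end PPS
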