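import Pool.Agent.helper36.PP.SpecA

/-! pp:BDY -/

set_option autoImplicit false

open Complex Metric Set Filter Topology MeasureTheory MPS

noncomputable section

namespace PPS

theorem BDY_prod (y : ℂ) {ε : ℝ} (hε : 0 ≤ ε) (m : Multiset ℂ) (h : ∀ s ∈ m, ε ≤ ‖y - s‖) :
    ε ^ m.card ≤ ‖(m.map fun s => y - s).prod‖ := by
  induction m using Multiset.induction_on with
  | empty => simp
  | cons a s ih =>
    rw [Multiset.map_cons, Multiset.prod_cons, Multiset.card_cons, norm_mul, pow_succ, mul_comm]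
    exact mul_le_mul (h a (Multiset.mem_cons_self a s))
      (ih fun t ht => h t (Multiset.mem_cons_of_mem ht)) (by positivity) (norm_nonneg _)

/-- preimages of points near `z₀` are near the preimages of `z₀`. -/
theorem BDY_near (f : Polynomial ℂ) (hf : 1 ≤ f.natDegree) (z₀ : ℂ) {ε : ℝ} (hε : 0 < ε) :
    ∃ η > 0, ∀ y : ℂ, ‖f.eval y - z₀‖ < η → ∃ s, f.eval s = z₀ ∧ ‖y - s‖ < ε := by
  set p := f - Polynomial.C z₀ with hp
  have hd : p.natDegree = f.natDegree := Polynomial.natDegree_sub_C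
  have hp0 : p ≠ 0 := by
    intro h
    rw [h, Polynomial.natDegree_zero] at hd
    omega
  have hl : p.leadingCoeff ≠ 0 := Polynomial.leadingCoeff_ne_zero.2 hp0
  refine ⟨‖p.leadingCoeff‖ * ε ^ p.roots.card, by positivity, fun y hy => ?_⟩
  by_contra hcon
  push Not at hcon
  have h1 : ∀ s ∈ p.roots, ε ≤ ‖y - s‖ := by
    intro s hs
    apply hcon
    have h2 := (Polynomial.mem_roots hp0).1 hs
    rw [hp, Polynomial.IsRoot.def, Polynomial.eval_sub, Polynomial.eval_C, sub_eq_zero] at h2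
    exact h2
  have h3 := BDY_prod y hε.le p.roots h1
  have h4 : f.eval y - z₀ = p.leadingCoeff * (p.roots.map fun s => y - s).prod := by
    have h5 := (IsAlgClosed.splits p).eq_prod_roots
    have h6 : f.eval y - z₀ = p.eval y := by
      rw [hp, Polynomial.eval_sub, Polynomial.eval_C]
    rw [h6]
    conv_lhs => rw [h5]
    rw [Polynomial.eval_mul, Polynomial.eval_C, Polynomial.eval_multiset_prod, Multiset.map_map]
    congr 2
    refine Multiset.map_congr rfl fun s _ => ?_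
    simp
  rw [h4, norm_mul] at hy
  have := mul_le_mul_of_nonneg_left h3 (norm_nonneg p.leadingCoeff)
  linarith

/-- separation of a finite set. -/
theorem BDY_sep (S : Set ℂ) (hS : S.Finite) : ∃ ε > 0, ∀ s ∈ S, ∀ t ∈ S, s ≠ t → 2 * ε ≤ ‖s - t‖ := by
  obtain h | h := S.subsingleton_or_nontrivial
  · exact ⟨1, one_pos, fun s hs t ht hst => absurd (h hs ht) hst⟩
  · have h1 := hS.infsep_pos_iff_nontrivial.2 h
    refine ⟨S.infsep / 2, by positivity, fun s hs t ht hst => ?_⟩
    have := Set.infsep_le_dist_of_mem hs ht hst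
    rw [dist_eq_norm] at this
    linarith

/-- limits of a branch at the boundary. -/
theorem BDY_lim (f : Polynomial ℂ) (hf : 1 ≤ f.natDegree) (F h : ℂ → ℂ) (a : ℂ) (r r₁ : ℝ)
    (hr : 0 < r) (hr1 : r < r₁) (hF : DifferentiableOn ℂ F (ball a r₁))
    (hh : DifferentiableOn ℂ h (ball a r)) (hrel : ∀ w ∈ ball a r, f.eval (h w) = F w)
    (wb : ℂ) (hwb : ‖wb - a‖ = r) :
    ∃ yb, f.eval yb = F wb ∧ Tendsto h (𝓝[ball a r] wb) (𝓝 yb) := by
  have hwb1 : wb ∈ ball a r₁ := by rw [mem_ball, dist_eq_norm, hwb]; exact hr1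
  have hFc : ContinuousAt F wb := (hF.differentiableAt (isOpen_ball.mem_nhds hwb1)).continuousAt
  have hne : (𝓝[ball a r] wb).NeBot := by
    rw [← mem_closure_iff_nhdsWithin_neBot, closure_ball a hr.ne', mem_closedBall, dist_eq_norm, hwb]
  set S : Set ℂ := {s | f.eval s = F wb} with hS
  have hSf : S.Finite := by
    have h1 : S ⊆ ((f - Polynomial.C (F wb)).roots.toFinset : Set ℂ) := by
      intro s hs
      rw [Finset.mem_coe, Multiset.mem_toFinset, Polynomial.mem_roots]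
      · rw [Polynomial.IsRoot.def, Polynomial.eval_sub, Polynomial.eval_C, sub_eq_zero]
        exact hs
      · intro h0
        have hd : (f - Polynomial.C (F wb)).natDegree = f.natDegree := Polynomial.natDegree_sub_C
        rw [h0, Polynomial.natDegree_zero] at hd
        omega
    exact (Finset.finite_toSet _).subset h1
  obtain ⟨ε₀, hε₀, hsep⟩ := BDY_sep S hSf
  have hloc : ∀ ε > 0, ∃ δ > 0, ∀ w ∈ ball a r ∩ ball wb δ, ∃ s ∈ S, ‖h w - s‖ < ε := by
    intro ε hε
    obtain ⟨η, hη, hnear⟩ := BDY_near f hf (F wb) hε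
    obtain ⟨δ, hδ, hδ'⟩ := Metric.continuousAt_iff.1 hFc η hη
    refine ⟨δ, hδ, fun w hw => ?_⟩
    refine hnear (h w) ?_
    rw [hrel w hw.1, ← dist_eq_norm]
    exact hδ' hw.2
  obtain ⟨δ₀, hδ₀, hloc₀⟩ := hloc ε₀ hε₀
  have hw1 : (ball a r ∩ ball wb δ₀).Nonempty := by
    have h1 : ∀ᶠ w in 𝓝[ball a r] wb, w ∈ ball a r ∩ ball wb δ₀ := by
      filter_upwards [self_mem_nhdsWithin, nhdsWithin_le_nhds (ball_mem_nhds wb hδ₀)] with w h1 h2
      exact ⟨h1, h2⟩
    exact h1.exists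
  obtain ⟨w₁, hw₁⟩ := hw1
  obtain ⟨s₀, hs₀, hs₀'⟩ := hloc₀ w₁ hw₁
  have hpre : IsPreconnected (h '' (ball a r ∩ ball wb δ₀)) :=
    ((convex_ball a r).inter (convex_ball wb δ₀)).isPreconnected.image h
      (hh.continuousOn.mono inter_subset_left)
  have hsub : h '' (ball a r ∩ ball wb δ₀) ⊆ ball s₀ ε₀ := by
    refine hpre.subset_left_of_subset_union (v := ⋃ s ∈ {s ∈ S | s ≠ s₀}, ball s ε₀) isOpen_ball
      (isOpen_biUnion fun s _ => isOpen_ball) ?_ ?_ ?_
    · rw [Set.disjoint_left]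
      rintro y hy hy'
      obtain ⟨s, hs, hys⟩ := mem_iUnion₂.1 hy'
      have h1 := hsep s hs.1 s₀ hs₀ hs.2
      rw [mem_ball, dist_eq_norm] at hy hys
      have h2 := norm_sub_le_norm_sub_add_norm_sub s y s₀
      rw [norm_sub_rev s y] at h2
      linarith
    · rintro _ ⟨w, hw, rfl⟩
      obtain ⟨s, hs, hs'⟩ := hloc₀ w hw
      by_cases hss : s = s₀
      · left
        rw [mem_ball, dist_eq_norm, ← hss]
        exact hs'
      · right
        refine mem_iUnion₂.2 ⟨s, ⟨hs, hss⟩, ?_⟩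
        rw [mem_ball, dist_eq_norm]
        exact hs'
    · refine ⟨h w₁, mem_image_of_mem h hw₁, ?_⟩
      rw [mem_ball, dist_eq_norm]
      exact hs₀'
  refine ⟨s₀, hs₀, ?_⟩
  rw [Metric.tendsto_nhds]
  intro ε hε
  obtain ⟨δ, hδ, hlocδ⟩ := hloc (min ε ε₀) (lt_min hε hε₀)
  filter_upwards [self_mem_nhdsWithin, nhdsWithin_le_nhds (ball_mem_nhds wb hδ),
    nhdsWithin_le_nhds (ball_mem_nhds wb hδ₀)] with w h1 h2 h3
  obtain ⟨s, hs, hs'⟩ := hlocδ w ⟨h1, h2⟩
  have h4 := hsub (mem_image_of_mem h (⟨h1, h3⟩ : w ∈ ball a r ∩ ball wb δ₀))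
  rw [mem_ball, dist_eq_norm] at h4
  rw [dist_eq_norm]
  by_cases hss : s = s₀
  · rw [← hss]
    exact hs'.trans_le (min_le_left _ _)
  · exfalso
    have h5 := hsep s hs s₀ hs₀ hss
    have h6 := norm_sub_le_norm_sub_add_norm_sub s (h w) s₀
    rw [norm_sub_rev s (h w)] at h6
    have h7 := hs'.trans_le (min_le_right _ _)
    linarith

/-- the local extension at a boundary point where the limit is not a critical point. -/
theorem BDY_ext (f : Polynomial ℂ) (F h : ℂ → ℂ) (a : ℂ) (r r₁ : ℝ)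
    (hr1 : r < r₁) (hF : DifferentiableOn ℂ F (ball a r₁))
    (hrel : ∀ w ∈ ball a r, f.eval (h w) = F w)
    (wb yb : ℂ) (hwb : ‖wb - a‖ = r) (hyb : f.eval yb = F wb)
    (hlim : Tendsto h (𝓝[ball a r] wb) (𝓝 yb)) (h0 : fd f yb ≠ 0) :
    ∃ δ > 0, ∃ g : ℂ → ℂ, DifferentiableOn ℂ g (ball wb δ) ∧
      (∀ w ∈ ball wb δ, f.eval (g w) = F w ∧ fd f (g w) ≠ 0) ∧
      ∀ w ∈ ball a r ∩ ball wb δ, g w = h w := by
  have hwb1 : wb ∈ ball a r₁ := by rw [mem_ball, dist_eq_norm, hwb]; exact hr1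
  have hFc : ContinuousAt F wb := (hF.differentiableAt (isOpen_ball.mem_nhds hwb1)).continuousAt
  have hfa : AnalyticAt ℂ (fun y => f.eval y) yb :=
    (f.differentiable.differentiableOn (s := univ)).analyticAt univ_mem
  have hfd : deriv (fun y => f.eval y) yb ≠ 0 := by
    rw [Polynomial.deriv]
    exact h0
  set L : ℂ → ℂ := hfa.hasStrictDerivAt.localInverse _ _ _ hfd with hL
  have hLa : AnalyticAt ℂ L (f.eval yb) := hfa.analyticAt_localInverse hfd
  have hL0 : L (f.eval yb) = yb := HasStrictFDerivAt.localInverse_apply_image ..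
  have hLl : ∀ᶠ y in 𝓝 yb, L (f.eval y) = y := hfa.hasStrictDerivAt.eventually_left_inverse hfd
  have hLr : ∀ᶠ z in 𝓝 (f.eval yb), f.eval (L z) = z := hfa.hasStrictDerivAt.eventually_right_inverse hfd
  rw [hyb] at hLa hL0 hLr
  have e1 : ∀ᶠ w in 𝓝 wb, DifferentiableAt ℂ L (F w) :=
    hFc.eventually (hLa.eventually_analyticAt.mono fun z hz => hz.differentiableAt)
  have e2 : ∀ᶠ w in 𝓝 wb, f.eval (L (F w)) = F w := hFc.eventually hLr
  have e3 : ∀ᶠ w in 𝓝 wb, fd f (L (F w)) ≠ 0 := by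
    have c1 : ContinuousAt (fun w => fd f (L (F w))) wb := by
      have c2 : ContinuousAt (fun w => L (F w)) wb :=
        ContinuousAt.comp (f := F) (g := L) hLa.continuousAt hFc
      unfold fd
      exact ContinuousAt.comp (g := fun y => f.derivative.eval y) f.derivative.continuous.continuousAt c2
    refine c1.eventually_ne ?_
    rw [hL0]
    exact h0
  have e4 : ∀ᶠ w in 𝓝 wb, w ∈ ball a r₁ := isOpen_ball.mem_nhds hwb1
  have e5 : ∀ᶠ w in 𝓝[ball a r] wb, L (F w) = h w := by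
    filter_upwards [hlim.eventually hLl, self_mem_nhdsWithin] with w h1 h2
    rw [← hrel w h2]
    exact h1
  obtain ⟨δ₁, hδ₁, h1⟩ := Metric.eventually_nhds_iff_ball.1 (e1.and (e2.and (e3.and e4)))
  obtain ⟨δ₂, hδ₂, h2⟩ := Metric.mem_nhdsWithin_iff.1 e5
  refine ⟨min δ₁ δ₂, lt_min hδ₁ hδ₂, fun w => L (F w), ?_, ?_, ?_⟩
  · intro w hw
    obtain ⟨a1, -, -, a4⟩ := h1 w (ball_subset_ball (min_le_left _ _) hw)
    exact (a1.comp w (hF.differentiableAt (isOpen_ball.mem_nhds a4))).differentiableWithinAt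
  · intro w hw
    obtain ⟨-, a2, a3, -⟩ := h1 w (ball_subset_ball (min_le_left _ _) hw)
    exact ⟨a2, a3⟩
  · intro w hw
    exact h2 ⟨ball_subset_ball (min_le_right _ _) hw.2, hw.1⟩

theorem BDY (hLUN : LUN_stmt) : BDY_stmt := by
  intro f F h a r r₁ hf hr hr1 hF hh hrel hno
  by_contra hcon
  push Not at hcon
  have hex : ∀ wb : ℂ, ‖wb - a‖ = r → ∃ δ > 0, ∃ g : ℂ → ℂ, DifferentiableOn ℂ g (ball wb δ) ∧
      (∀ w ∈ ball wb δ, f.eval (g w) = F w ∧ fd f (g w) ≠ 0) ∧
      ∀ w ∈ ball a r ∩ ball wb δ, g w = h w := by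
    intro wb hwb
    obtain ⟨yb, h1, h2⟩ := BDY_lim f hf F h a r r₁ hr hr1 hF hh (fun w hw => (hrel w hw).1) wb hwb
    refine BDY_ext f F h a r r₁ hr1 hF (fun w hw => (hrel w hw).1) wb yb hwb h1 h2 ?_
    intro h0
    exact hcon wb yb hwb h0 h2
  choose! δ hδ g hgd hgr hgh using hex
  -- overlap
  have hover : ∀ b b' : ℂ, ‖b - a‖ = r → ‖b' - a‖ = r → ∀ w ∈ ball b (δ b) ∩ ball b' (δ b'),
      g b w = g b' w := by
    intro b b' hb hb' w hw
    by_cases hbb : b = b'
    · rw [hbb]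
    have hδb := hδ b hb
    have hδb' := hδ b' hb'
    have hd : ‖b - b'‖ < δ b + δ b' := by
      have h1 := hw.1
      have h2 := hw.2
      rw [mem_ball, dist_eq_norm] at h1 h2
      have h3 := norm_sub_le_norm_sub_add_norm_sub b w b'
      rw [norm_sub_rev b w] at h3
      linarith
    set s : ℝ := δ b / (δ b + δ b') with hs
    have hs0 : 0 < s := by positivity
    have hs1 : 0 < 1 - s := by
      have : s < 1 := by
        rw [hs, div_lt_one (by positivity)]
        linarith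
      linarith
    set p : ℂ := (1 - s) • b + s • b' with hp
    have hpa : p ∈ ball a r := by
      refine combo_mem_ball_of_ne ?_ ?_ hbb hs1 hs0 (by ring)
      · rw [mem_closedBall, dist_eq_norm, hb]
      · rw [mem_closedBall, dist_eq_norm, hb']
    have hpb : p ∈ ball b (δ b) := by
      have e1 : p - b = s • (b' - b) := by
        rw [hp, sub_smul, one_smul, smul_sub]
        ring
      rw [mem_ball, dist_eq_norm, e1, norm_smul, Real.norm_of_nonneg hs0.le, norm_sub_rev]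
      calc s * ‖b - b'‖ < s * (δ b + δ b') := mul_lt_mul_of_pos_left hd hs0
        _ = δ b := by rw [hs]; field_simp
    have hpb' : p ∈ ball b' (δ b') := by
      have e1 : p - b' = (1 - s) • (b - b') := by
        rw [hp, sub_smul, sub_smul, one_smul, one_smul, smul_sub]
        ring
      rw [mem_ball, dist_eq_norm, e1, norm_smul, Real.norm_of_nonneg hs1.le]
      calc (1 - s) * ‖b - b'‖ < (1 - s) * (δ b + δ b') := mul_lt_mul_of_pos_left hd hs1
        _ = δ b' := by rw [hs]; field_simp; ring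
    refine hLUN f (ball b (δ b) ∩ ball b' (δ b')) (g b) (g b') p (isOpen_ball.inter isOpen_ball)
      ((convex_ball _ _).inter (convex_ball _ _)).isPreconnected
      ((hgd b hb).continuousOn.mono inter_subset_left)
      ((hgd b' hb').continuousOn.mono inter_subset_right) ?_ ?_ ⟨hpb, hpb'⟩ ?_ hw
    · intro v hv
      rw [(hgr b hb v hv.1).1, (hgr b' hb' v hv.2).1]
    · intro v hv
      exact (hgr b hb v hv.1).2
    · rw [hgh b hb p ⟨hpa, hpb⟩, hgh b' hb' p ⟨hpa, hpb'⟩]
  classical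
  set H : ℂ → ℂ := fun w => if w ∈ ball a r then h w else
    if hw : ∃ b : ℂ, ‖b - a‖ = r ∧ w ∈ ball b (δ b) then g hw.choose w else 0 with hH
  have hHh : ∀ w ∈ ball a r, H w = h w := by
    intro w hw
    simp only [hH]
    rw [if_pos hw]
  have hHg : ∀ b : ℂ, ‖b - a‖ = r → ∀ w ∈ ball b (δ b), H w = g b w := by
    intro b hb w hw
    by_cases hwa : w ∈ ball a r
    · rw [hHh w hwa, hgh b hb w ⟨hwa, hw⟩]
    · have hex : ∃ b : ℂ, ‖b - a‖ = r ∧ w ∈ ball b (δ b) := ⟨b, hb, hw⟩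
      simp only [hH]
      rw [if_neg hwa, dif_pos hex]
      exact hover _ _ hex.choose_spec.1 hb w ⟨hex.choose_spec.2, hw⟩
  set U : Set ℂ := ball a r ∪ ⋃ b ∈ {b : ℂ | ‖b - a‖ = r}, ball b (δ b) with hU
  have hUo : IsOpen U := isOpen_ball.union (isOpen_biUnion fun b _ => isOpen_ball)
  have hsub : closedBall a r ⊆ U := by
    intro w hw
    rw [mem_closedBall, dist_eq_norm] at hw
    rcases hw.lt_or_eq with h1 | h1
    · left
      rw [mem_ball, dist_eq_norm]
      exact h1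
    · right
      exact mem_iUnion₂.2 ⟨w, h1, mem_ball_self (hδ w h1)⟩
  obtain ⟨η, hη, hthick⟩ := (isCompact_closedBall a r).exists_thickening_subset_open hUo hsub
  rw [thickening_closedBall hη hr.le] at hthick
  set r' : ℝ := min (η + r) r₁ with hr'
  have hr'1 : r < r' := lt_min (by linarith) hr1
  have hr'U : ball a r' ⊆ U := (ball_subset_ball (min_le_left _ _)).trans hthick
  have hloc : ∀ w ∈ U, DifferentiableAt ℂ H w ∧ f.eval (H w) = F w ∧ fd f (H w) ≠ 0 := by
    intro w hw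
    rcases hw with hw | hw
    · refine ⟨?_, ?_⟩
      · have e1 : H =ᶠ[𝓝 w] h := by
          filter_upwards [isOpen_ball.mem_nhds hw] with v hv
          exact hHh v hv
        exact (hh.differentiableAt (isOpen_ball.mem_nhds hw)).congr_of_eventuallyEq e1
      · rw [hHh w hw]
        exact hrel w hw
    · obtain ⟨b, hb, hwb⟩ := mem_iUnion₂.1 hw
      refine ⟨?_, ?_⟩
      · have e1 : H =ᶠ[𝓝 w] g b := by
          filter_upwards [isOpen_ball.mem_nhds hwb] with v hv
          exact hHg b hb v hv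
        exact ((hgd b hb).differentiableAt (isOpen_ball.mem_nhds hwb)).congr_of_eventuallyEq e1
      · rw [hHg b hb w hwb]
        exact hgr b hb w hwb
  refine hno r' hr'1 (min_le_right _ _) ⟨H, ?_, hHh a (mem_ball_self hr), ?_⟩
  · intro w hw
    exact (hloc w (hr'U hw)).1.differentiableWithinAt
  · intro w hw
    exact (hloc w (hr'U hw)).2

end PPS
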