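import Pool.Agent.helper36.PP.SpecA
import Mathlib.Analysis.Complex.CoveringMap

/-! pp:LIFT -/

set_option autoImplicit false

open Complex Metric Set Filter Topology MeasureTheory MPS

noncomputable section

namespace PPS

/-- a continuous branch is holomorphic. -/
theorem LIFT_diff (f : Polynomial ℂ) (Ω : Set ℂ) (hΩ : IsOpen Ω) (F h : ℂ → ℂ)
    (hF : DifferentiableOn ℂ F Ω) (hh : ContinuousOn h Ω)
    (hrel : ∀ w ∈ Ω, f.eval (h w) = F w ∧ fd f (h w) ≠ 0) : DifferentiableOn ℂ h Ω := by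
  intro w hw
  refine DifferentiableAt.differentiableWithinAt ?_
  have hFd : DifferentiableAt ℂ F w := hF.differentiableAt (hΩ.mem_nhds hw)
  have hfa : AnalyticAt ℂ (fun y => f.eval y) (h w) :=
    (f.differentiable.differentiableOn (s := univ)).analyticAt univ_mem
  have hfd : deriv (fun y => f.eval y) (h w) ≠ 0 := by
    rw [Polynomial.deriv]
    exact (hrel w hw).2
  set L : ℂ → ℂ := hfa.hasStrictDerivAt.localInverse _ _ _ hfd with hL
  have hLa : AnalyticAt ℂ L (f.eval (h w)) := hfa.analyticAt_localInverse hfd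
  have hLl : ∀ᶠ y in 𝓝 (h w), L (f.eval y) = y := hfa.hasStrictDerivAt.eventually_left_inverse hfd
  rw [(hrel w hw).1] at hLa
  have hhc : ContinuousAt h w := hh.continuousAt (hΩ.mem_nhds hw)
  have e1 : h =ᶠ[𝓝 w] fun w => L (F w) := by
    filter_upwards [hhc.eventually hLl, hΩ.mem_nhds hw] with v h1 h2
    rw [← (hrel v h2).1]
    exact h1.symm
  exact (hLa.differentiableAt.comp w hFd).congr_of_eventuallyEq e1

theorem LIFT : LIFT_stmt := by
  intro f Ω F w₀ v hf hΩo hΩc hF hCV hw₀ hv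
  have : ContractibleSpace Ω := hΩc.contractibleSpace ⟨w₀, hw₀⟩
  have : LocallyPathConnectedSpace Ω := hΩc.locallyPathConnectedSpace
  have hcov := f.isCoveringMapOn_eval
  obtain ⟨F', ⟨h1, h2⟩, -⟩ := hcov.existsUnique_continuousMap_lifts (A := Ω)
    ⟨fun w => F w, hF.continuousOn.domRestrict⟩ (a₀ := ⟨w₀, hw₀⟩) (e₀ := v) hv (by
      rintro ⟨w, hw⟩ ⟨y, hy1, hy2⟩
      exact hCV w hw ⟨y, hy1, hy2⟩)
  classical
  set h : ℂ → ℂ := fun w => if hw : w ∈ Ω then F' ⟨w, hw⟩ else 0 with hh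
  have hhv : ∀ w (hw : w ∈ Ω), h w = F' ⟨w, hw⟩ := by
    intro w hw
    simp only [hh]
    rw [dif_pos hw]
  have hrel : ∀ w ∈ Ω, f.eval (h w) = F w ∧ fd f (h w) ≠ 0 := by
    intro w hw
    have e1 : f.eval (h w) = F w := by
      rw [hhv w hw]
      exact congrFun h2 ⟨w, hw⟩
    exact ⟨e1, fun h0 => hCV w hw ⟨h w, h0, e1⟩⟩
  have hc : ContinuousOn h Ω := by
    rw [continuousOn_iff_continuous_domRestrict]
    have e1 : Ω.domRestrict h = F' := by
      funext w
      show h w = F' w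
      rw [hhv w w.2]
    rw [e1]
    exact F'.continuous
  refine ⟨h, LIFT_diff f Ω hΩo F h hF hc hrel, ?_, hrel⟩
  rw [hhv w₀ hw₀, h1]

end PPS
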