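import Pool.Agent.helper36.PP.SpecA

/-! pp:LUN -/

set_option autoImplicit false

open Complex Metric Set Filter Topology MeasureTheory MPS

noncomputable section

namespace PPS

/-- `f` is injective near a point that is not critical. -/
theorem LUN_inj (f : Polynomial ℂ) (y : ℂ) (hy : fd f y ≠ 0) :
    ∃ U ∈ 𝓝 y, InjOn (fun z => f.eval z) U := by
  have h1 : HasStrictDerivAt (fun z => f.eval z) (fd f y) y := f.hasStrictDerivAt y
  refine ⟨((h1.hasStrictFDerivAt_equiv hy).toOpenPartialHomeomorph (fun z => f.eval z)).source,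
    ((h1.hasStrictFDerivAt_equiv hy).toOpenPartialHomeomorph _).open_source.mem_nhds
      ((h1.hasStrictFDerivAt_equiv hy).mem_toOpenPartialHomeomorph_source), ?_⟩
  have := ((h1.hasStrictFDerivAt_equiv hy).toOpenPartialHomeomorph (fun z => f.eval z)).injOn
  simpa using this

theorem LUN : LUN_stmt := by
  intro f Ω h₁ h₂ w₀ hO hpre hc1 hc2 heq hne hw0 h0
  have hopen : IsOpen {w | w ∈ Ω ∧ h₁ w = h₂ w} := by
    rw [isOpen_iff_mem_nhds]
    rintro w ⟨hw, he⟩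
    obtain ⟨U, hU, hinj⟩ := LUN_inj f (h₁ w) (hne w hw)
    have a1 : ∀ᶠ w' in 𝓝 w, h₁ w' ∈ U := (hc1.continuousAt (hO.mem_nhds hw)).eventually hU
    have a2 : ∀ᶠ w' in 𝓝 w, h₂ w' ∈ U :=
      (hc2.continuousAt (hO.mem_nhds hw)).eventually (by rw [← he]; exact hU)
    filter_upwards [a1, a2, hO.mem_nhds hw] with w' b1 b2 b3
    exact ⟨b3, hinj b1 b2 (heq w' b3)⟩
  have hopen2 : IsOpen {w | w ∈ Ω ∧ h₁ w ≠ h₂ w} := by
    rw [isOpen_iff_mem_nhds]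
    rintro w ⟨hw, he⟩
    have a1 : Tendsto h₁ (𝓝 w) (𝓝 (h₁ w)) := hc1.continuousAt (hO.mem_nhds hw)
    have a2 : Tendsto h₂ (𝓝 w) (𝓝 (h₂ w)) := hc2.continuousAt (hO.mem_nhds hw)
    have a3 : Tendsto (fun x => h₁ x - h₂ x) (𝓝 w) (𝓝 (h₁ w - h₂ w)) := a1.sub a2
    filter_upwards [a3.eventually_ne (sub_ne_zero.2 he), hO.mem_nhds hw] with w' b1 b2
    exact ⟨b2, fun h => b1 (sub_eq_zero.2 h)⟩
  intro w hw
  by_contra hcon
  have := hpre _ _ hopen hopen2 (fun x hx => by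
    by_cases hh : h₁ x = h₂ x
    · exact Or.inl ⟨hx, hh⟩
    · exact Or.inr ⟨hx, hh⟩) ⟨w₀, hw0, hw0, h0⟩ ⟨w, hw, hw, hcon⟩
  obtain ⟨x, -, hx1, hx2⟩ := this
  exact hx2.2 hx1.2

end PPS
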