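import Pool.Agent.helper36.PP.SpecA
import Pool.Agent.helper98.MP.EVT

/-! pp:PEX (ring extension) -/

set_option autoImplicit false

open Complex Metric Set Filter Topology MeasureTheory MPS

noncomputable section

namespace PPS

/-- Cauchy type integrals are holomorphic off the curve. -/
theorem PEX_param (φ G : ℂ → ℂ) (a : ℂ) (r : ℝ) (hr : 0 < r) (hφ : ContinuousOn φ (sphere a r))
    (hG : ContinuousOn G (sphere a r)) :
    DifferentiableOn ℂ (fun z => ∮ ζ in C(a, r), φ ζ / (G ζ - z)) (G '' sphere a r)ᶜ := by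
  intro z₀ hz₀
  refine DifferentiableAt.differentiableWithinAt ?_
  have hcpt : IsCompact (G '' sphere a r) := (isCompact_sphere a r).image_of_continuousOn hG
  obtain ⟨ε, hε, hball⟩ : ∃ ε > 0, ball z₀ (2 * ε) ⊆ (G '' sphere a r)ᶜ := by
    obtain ⟨e, he, h⟩ := Metric.isOpen_iff.1 hcpt.isClosed.isOpen_compl z₀ hz₀
    exact ⟨e / 2, by positivity, by rwa [mul_div_cancel₀ _ (two_ne_zero)]⟩
  have hdist : ∀ ζ ∈ sphere a r, ∀ z ∈ ball z₀ ε, ε ≤ ‖G ζ - z‖ := by
    intro ζ hζ z hz
    by_contra hcon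
    push Not at hcon
    have h1 : G ζ ∈ ball z₀ (2 * ε) := by
      rw [mem_ball, dist_eq_norm] at hz ⊢
      calc ‖G ζ - z₀‖ = ‖(G ζ - z) + (z - z₀)‖ := by ring_nf
        _ ≤ ‖G ζ - z‖ + ‖z - z₀‖ := norm_add_le _ _
        _ < 2 * ε := by linarith
    exact hball h1 ⟨ζ, hζ, rfl⟩
  obtain ⟨M, hM⟩ := (isCompact_sphere a r).exists_bound_of_continuousOn hφ
  have hcm : ∀ θ : ℝ, circleMap a r θ ∈ sphere a r := fun θ => circleMap_mem_sphere a hr.le θ
  have hM0 : 0 ≤ M := (norm_nonneg _).trans (hM _ (hcm 0))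
  have hcont : ∀ z ∈ ball z₀ ε, Continuous fun θ : ℝ =>
      deriv (circleMap a r) θ • (φ (circleMap a r θ) / (G (circleMap a r θ) - z)) := by
    intro z hz
    have h1 : Continuous fun θ : ℝ => φ (circleMap a r θ) :=
      hφ.comp_continuous (continuous_circleMap a r) hcm
    have h2 : Continuous fun θ : ℝ => G (circleMap a r θ) :=
      hG.comp_continuous (continuous_circleMap a r) hcm
    have h3 : Continuous (deriv (circleMap a r)) := by
      have : deriv (circleMap a r) = fun θ => circleMap 0 r θ * I := by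
        funext θ; exact deriv_circleMap a r θ
      rw [this]
      exact (continuous_circleMap 0 r).mul continuous_const
    refine h3.smul (h1.div (h2.sub continuous_const) fun θ => ?_)
    have := hdist _ (hcm θ) z hz
    exact norm_pos_iff.1 (hε.trans_le this)
  have hcont' : ∀ z ∈ ball z₀ ε, Continuous fun θ : ℝ =>
      deriv (circleMap a r) θ • (φ (circleMap a r θ) / (G (circleMap a r θ) - z) ^ 2) := by
    intro z hz
    have h1 : Continuous fun θ : ℝ => φ (circleMap a r θ) :=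
      hφ.comp_continuous (continuous_circleMap a r) hcm
    have h2 : Continuous fun θ : ℝ => G (circleMap a r θ) :=
      hG.comp_continuous (continuous_circleMap a r) hcm
    have h3 : Continuous (deriv (circleMap a r)) := by
      have : deriv (circleMap a r) = fun θ => circleMap 0 r θ * I := by
        funext θ; exact deriv_circleMap a r θ
      rw [this]
      exact (continuous_circleMap 0 r).mul continuous_const
    refine h3.smul (h1.div ((h2.sub continuous_const).pow 2) fun θ => ?_)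
    have := hdist _ (hcm θ) z hz
    exact pow_ne_zero 2 (norm_pos_iff.1 (hε.trans_le this))
  have hz0 : z₀ ∈ ball z₀ ε := mem_ball_self hε
  have key := intervalIntegral.hasDerivAt_integral_of_dominated_loc_of_deriv_le
    (μ := volume) (a := 0) (b := 2 * Real.pi)
    (F := fun z θ => deriv (circleMap a r) θ • (φ (circleMap a r θ) / (G (circleMap a r θ) - z)))
    (F' := fun z θ => deriv (circleMap a r) θ • (φ (circleMap a r θ) / (G (circleMap a r θ) - z) ^ 2))
    (x₀ := z₀) (s := ball z₀ ε) (bound := fun _ => r * (M / ε ^ 2)) (ball_mem_nhds z₀ hε)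
    (by
      filter_upwards [ball_mem_nhds z₀ hε] with z hz
      exact (hcont z hz).aestronglyMeasurable)
    ((hcont z₀ hz0).intervalIntegrable _ _)
    ((hcont' z₀ hz0).aestronglyMeasurable)
    (by
      refine Eventually.of_forall fun θ _ z hz => ?_
      rw [norm_smul, norm_div, norm_pow, deriv_circleMap, norm_mul, norm_I, mul_one]
      have h1 : ‖circleMap 0 r θ‖ = r := by
        rw [norm_circleMap_zero, abs_of_pos hr]
      rw [h1]
      have h2 := hdist _ (hcm θ) z hz
      have h3 := hM _ (hcm θ)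
      gcongr)
    intervalIntegrable_const
    (by
      refine Eventually.of_forall fun θ _ z hz => ?_
      have h2 : G (circleMap a r θ) - z ≠ 0 :=
        norm_pos_iff.1 (hε.trans_le (hdist _ (hcm θ) z hz))
      have h3 : HasDerivAt (fun z => (G (circleMap a r θ) - z)⁻¹)
          (-(-1) / (G (circleMap a r θ) - z) ^ 2) z := ((hasDerivAt_id z).const_sub _).inv h2
      have h4 := (h3.const_mul (φ (circleMap a r θ))).const_smul (deriv (circleMap a r) θ)
      refine (h4.congr_deriv ?_).congr_of_eventuallyEq ?_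
      · simp only [smul_eq_mul]
        ring
      · refine Eventually.of_forall fun z' => ?_
        simp only [Pi.smul_apply, smul_eq_mul, div_eq_mul_inv])
  exact key.2.differentiableAt

theorem PEX_far (f : Polynomial ℂ) (y G : ℂ → ℂ) (a : ℂ) (r : ℝ) (N : Set ℂ) (hr : 0 < r)
    (hN : IsOpen N) (hs : sphere a r ⊆ N) (hy : DifferentiableOn ℂ y N)
    (hG : ∀ w ∈ N, f.eval (y w) = G w) :
    ∃ B : ℝ, ∀ z : ℂ, B < ‖z‖ → (∮ ζ in C(a, r), y ζ * deriv G ζ / (G ζ - z)) = 0 := by
  obtain ⟨M, hM⟩ := (isCompact_sphere a r).exists_bound_of_continuousOn (hy.continuousOn.mono hs)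
  obtain ⟨B, hB⟩ := (isCompact_closedBall (0 : ℂ) (M + 1)).exists_bound_of_continuousOn
    (f := fun Y => f.eval Y) f.continuous.continuousOn
  refine ⟨B, fun z hz => ?_⟩
  have hne : ∀ Y ∈ ball (0 : ℂ) (M + 1), f.eval Y - z ≠ 0 := by
    intro Y hY h
    have h1 := hB Y (ball_subset_closedBall hY)
    rw [sub_eq_zero] at h
    rw [h] at h1
    linarith
  have hΦ : DifferentiableOn ℂ (fun Y => Y * fd f Y / (f.eval Y - z)) (ball 0 (M + 1)) := by
    refine DifferentiableOn.div ?_ ?_ hne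
    · exact (differentiable_id.mul f.derivative.differentiable).differentiableOn
    · exact (f.differentiable.sub_const z).differentiableOn
  obtain ⟨P, hP⟩ := hΦ.isExactOn_ball
  refine circleIntegral.integral_eq_zero_of_hasDerivWithinAt (f := fun ζ => P (y ζ)) hr.le ?_
  intro ζ hζ
  have h1 : HasDerivAt y (deriv y ζ) ζ := (hy.differentiableAt (hN.mem_nhds (hs hζ))).hasDerivAt
  have h2 : y ζ ∈ ball (0 : ℂ) (M + 1) := by
    rw [mem_ball_zero_iff]
    have := hM ζ hζ
    linarith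
  have h3 := (hP (y ζ) h2).comp ζ h1
  have h4 : deriv G ζ = fd f (y ζ) * deriv y ζ := by
    have h5 : HasDerivAt (fun w => f.eval (y w)) (f.derivative.eval (y ζ) * deriv y ζ) ζ :=
      (f.hasDerivAt (y ζ)).comp ζ h1
    have h6 : G =ᶠ[𝓝 ζ] fun w => f.eval (y w) := by
      filter_upwards [hN.mem_nhds (hs hζ)] with w hw
      exact (hG w hw).symm
    rw [h6.deriv_eq, h5.deriv]
    rfl
  refine (h3.congr_deriv ?_).hasDerivWithinAt
  rw [h4, ← hG ζ (hs hζ)]
  ring

theorem PEX_slope {G : ℂ → ℂ} {a w : ℂ} {R : ℝ} (hG : DifferentiableOn ℂ G (ball a R))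
    (hinj : InjOn G (ball a R)) (hw : w ∈ ball a R) :
    DifferentiableOn ℂ (dslope G w) (ball a R) ∧ ∀ ζ ∈ ball a R, dslope G w ζ ≠ 0 := by
  refine ⟨(Complex.differentiableOn_dslope (isOpen_ball.mem_nhds hw)).2 hG, fun ζ hζ => ?_⟩
  rcases eq_or_ne ζ w with rfl | h
  · rw [dslope_same]
    obtain ⟨e, he, hsub⟩ := Metric.isOpen_iff.1 isOpen_ball ζ hζ
    exact EVT_deriv he (hG.mono hsub) (hinj.mono hsub)
  · rw [dslope_of_ne _ h, slope_def_field]
    refine div_ne_zero (sub_ne_zero.2 fun he => h (hinj hζ hw he)) (sub_ne_zero.2 h)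

theorem PEX_log1 {G : ℂ → ℂ} {a w : ℂ} {r R : ℝ} (hG : DifferentiableOn ℂ G (ball a R))
    (hinj : InjOn G (ball a R)) (hr : 0 < r) (hrR : r < R) (hw : w ∈ ball a R)
    (hw2 : r < ‖w - a‖) :
    (∮ ζ in C(a, r), deriv G ζ / (G ζ - G w)) = 0 := by
  have hsub : closedBall a r ⊆ ball a R := closedBall_subset_ball hrR
  have hne : ∀ ζ ∈ closedBall a r, G ζ - G w ≠ 0 := by
    intro ζ hζ h
    have h1 := hinj (hsub hζ) hw (sub_eq_zero.1 h)
    rw [h1, mem_closedBall, dist_eq_norm] at hζ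
    linarith
  have hdiff : ∀ ζ ∈ closedBall a r, DifferentiableAt ℂ (fun ζ => deriv G ζ / (G ζ - G w)) ζ := by
    intro ζ hζ
    have h1 : DifferentiableAt ℂ G ζ := hG.differentiableAt (isOpen_ball.mem_nhds (hsub hζ))
    have h2 : DifferentiableAt ℂ (deriv G) ζ :=
      (hG.deriv isOpen_ball).differentiableAt (isOpen_ball.mem_nhds (hsub hζ))
    exact h2.div (h1.sub_const _) (hne ζ hζ)
  exact Complex.circleIntegral_eq_zero_of_differentiable_on_off_countable hr.le countable_empty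
    (fun ζ hζ => (hdiff ζ hζ).continuousAt.continuousWithinAt)
    (fun ζ hζ => hdiff ζ (ball_subset_closedBall hζ.1))

theorem PEX_log2 {G : ℂ → ℂ} {a w : ℂ} {r R : ℝ} (hG : DifferentiableOn ℂ G (ball a R))
    (hinj : InjOn G (ball a R)) (hr : 0 < r) (hrR : r < R) (hw : w ∈ ball a r) :
    (∮ ζ in C(a, r), deriv G ζ / (G ζ - G w)) = 2 * Real.pi * I := by
  have hsub : closedBall a r ⊆ ball a R := closedBall_subset_ball hrR
  have hwR : w ∈ ball a R := hsub (ball_subset_closedBall hw)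
  obtain ⟨hgd, hg0⟩ := PEX_slope hG hinj hwR
  set g := dslope G w with hg
  have hGg : ∀ ζ, G ζ - G w = (ζ - w) * g ζ := by
    intro ζ
    rw [hg]
    have := sub_smul_dslope G w ζ
    rw [smul_eq_mul] at this
    exact this.symm
  have hder : ∀ ζ ∈ ball a R, deriv G ζ = g ζ + (ζ - w) * deriv g ζ := by
    intro ζ hζ
    have h1 : DifferentiableAt ℂ g ζ := hgd.differentiableAt (isOpen_ball.mem_nhds hζ)
    have h2 : HasDerivAt (fun ζ => (ζ - w) * g ζ) (1 * g ζ + (ζ - w) * deriv g ζ) ζ :=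
      ((hasDerivAt_id ζ).sub_const w).mul h1.hasDerivAt
    have h3 : HasDerivAt G (1 * g ζ + (ζ - w) * deriv g ζ) ζ := by
      have h4 := h2.add_const (G w)
      refine h4.congr_of_eventuallyEq (Eventually.of_forall fun z => ?_)
      show G z = (z - w) * g z + G w
      rw [← hGg]
      ring
    rw [h3.deriv, one_mul]
  have hsph : ∀ ζ ∈ sphere a r, ζ - w ≠ 0 := by
    intro ζ hζ h
    rw [sub_eq_zero] at h
    rw [h, mem_sphere] at hζ
    rw [mem_ball] at hw
    linarith
  have heq : EqOn (fun ζ => deriv G ζ / (G ζ - G w)) (fun ζ => (ζ - w)⁻¹ + deriv g ζ / g ζ)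
      (sphere a r) := by
    intro ζ hζ
    have h1 := hsph ζ hζ
    have h2 := hg0 ζ (hsub (sphere_subset_closedBall hζ))
    show deriv G ζ / (G ζ - G w) = (ζ - w)⁻¹ + deriv g ζ / g ζ
    rw [hder ζ (hsub (sphere_subset_closedBall hζ)), hGg]
    field_simp
  rw [circleIntegral.integral_congr hr.le heq]
  have hc1 : ContinuousOn (fun ζ : ℂ => (ζ - w)⁻¹) (sphere a r) :=
    (continuousOn_id.sub continuousOn_const).inv₀ hsph
  have hdq : ∀ ζ ∈ closedBall a r, DifferentiableAt ℂ (fun ζ => deriv g ζ / g ζ) ζ := by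
    intro ζ hζ
    have h1 : DifferentiableAt ℂ g ζ := hgd.differentiableAt (isOpen_ball.mem_nhds (hsub hζ))
    have h2 : DifferentiableAt ℂ (deriv g) ζ :=
      (hgd.deriv isOpen_ball).differentiableAt (isOpen_ball.mem_nhds (hsub hζ))
    exact h2.div h1 (hg0 ζ (hsub hζ))
  have hc2 : ContinuousOn (fun ζ => deriv g ζ / g ζ) (sphere a r) := fun ζ hζ =>
    (hdq ζ (sphere_subset_closedBall hζ)).continuousAt.continuousWithinAt
  rw [circleIntegral.integral_add (hc1.circleIntegrable hr.le) (hc2.circleIntegrable hr.le),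
    circleIntegral.integral_sub_inv_of_mem_ball hw,
    Complex.circleIntegral_eq_zero_of_differentiable_on_off_countable hr.le countable_empty
      (fun ζ hζ => (hdq ζ hζ).continuousAt.continuousWithinAt)
      (fun ζ hζ => hdq ζ (ball_subset_closedBall hζ.1)), add_zero]

theorem PEX_res {G y : ℂ → ℂ} {a w : ℂ} {r₁ r R r₂ : ℝ} (hG : DifferentiableOn ℂ G (ball a r₂))
    (hinj : InjOn G (ball a r₂)) (h0 : 0 ≤ r₁)
    (hy : DifferentiableOn ℂ y {w | r₁ < ‖w - a‖ ∧ ‖w - a‖ < r₂})
    (h1 : r₁ < r) (h2 : r < ‖w - a‖) (h3 : ‖w - a‖ < R) (h4 : R < r₂) :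
    (∮ ζ in C(a, R), y ζ * deriv G ζ / (G ζ - G w)) =
      (∮ ζ in C(a, r), y ζ * deriv G ζ / (G ζ - G w)) + 2 * Real.pi * I * y w := by
  set N : Set ℂ := {w | r₁ < ‖w - a‖ ∧ ‖w - a‖ < r₂} with hN
  have hNo : IsOpen N := by
    have h : Continuous fun w : ℂ => ‖w - a‖ := (continuous_id.sub continuous_const).norm
    exact (isOpen_lt continuous_const h).inter (isOpen_lt h continuous_const)
  have hNb : N ⊆ ball a r₂ := fun z hz => by
    rw [mem_ball, dist_eq_norm]
    exact hz.2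
  have hr : 0 < r := h0.trans_lt h1
  have hR : 0 < R := by linarith
  have hwN : w ∈ N := ⟨by linarith, by linarith⟩
  have hwb : w ∈ ball a r₂ := hNb hwN
  obtain ⟨hgd, hg0⟩ := PEX_slope hG hinj hwb
  have hyd : DifferentiableOn ℂ (dslope y w) N := (Complex.differentiableOn_dslope (hNo.mem_nhds hwN)).2 hy
  set φ : ℂ → ℂ := fun ζ => dslope y w ζ * deriv G ζ / dslope G w ζ with hφ
  have hφd : ∀ ζ ∈ N, DifferentiableAt ℂ φ ζ := by
    intro ζ hζ
    have e1 := hyd.differentiableAt (hNo.mem_nhds hζ)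
    have e2 := hgd.differentiableAt (isOpen_ball.mem_nhds (hNb hζ))
    have e3 := (hG.deriv isOpen_ball).differentiableAt (isOpen_ball.mem_nhds (hNb hζ))
    exact (e1.mul e3).div e2 (hg0 ζ (hNb hζ))
  have hsph : ∀ ρ, (ρ = r ∨ ρ = R) → ∀ ζ ∈ sphere a ρ, ζ ∈ N ∧ ζ ≠ w := by
    intro ρ hρ ζ hζ
    rw [mem_sphere, dist_eq_norm] at hζ
    constructor
    · rcases hρ with rfl | rfl
      · exact ⟨by rw [hζ]; exact h1, by rw [hζ]; linarith⟩
      · exact ⟨by rw [hζ]; linarith, by rw [hζ]; exact h4⟩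
    · rintro rfl
      rcases hρ with rfl | rfl <;> linarith
  have hann : (∮ ζ in C(a, R), φ ζ) = ∮ ζ in C(a, r), φ ζ := by
    refine Complex.circleIntegral_eq_of_differentiable_on_annulus_off_countable hr (by linarith)
      countable_empty (fun ζ hζ => ?_) (fun ζ hζ => ?_)
    · refine (hφd ζ ?_).continuousAt.continuousWithinAt
      have e1 := hζ.1
      have e2 := hζ.2
      rw [mem_closedBall, dist_eq_norm] at e1
      rw [mem_ball, dist_eq_norm, not_lt] at e2
      exact ⟨by linarith, by linarith⟩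
    · refine hφd ζ ?_
      have e1 := hζ.1.1
      have e2 := hζ.1.2
      rw [mem_ball, dist_eq_norm] at e1
      rw [mem_closedBall, dist_eq_norm, not_le] at e2
      exact ⟨by linarith, by linarith⟩
  -- on the circles
  have hcirc : ∀ ρ, 0 < ρ → (ρ = r ∨ ρ = R) → (∮ ζ in C(a, ρ), φ ζ) =
      (∮ ζ in C(a, ρ), y ζ * deriv G ζ / (G ζ - G w)) -
        y w * ∮ ζ in C(a, ρ), deriv G ζ / (G ζ - G w) := by
    intro ρ hρ0 hρ
    have hne : ∀ ζ ∈ sphere a ρ, G ζ - G w ≠ 0 := by
      intro ζ hζ h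
      exact (hsph ρ hρ ζ hζ).2 (hinj (hNb (hsph ρ hρ ζ hζ).1) hwb (sub_eq_zero.1 h))
    have hG1 : ContinuousOn G (sphere a ρ) := fun ζ hζ =>
      (hG.differentiableAt (isOpen_ball.mem_nhds (hNb (hsph ρ hρ ζ hζ).1))).continuousAt.continuousWithinAt
    have hG2 : ContinuousOn (deriv G) (sphere a ρ) := fun ζ hζ =>
      ((hG.deriv isOpen_ball).differentiableAt
        (isOpen_ball.mem_nhds (hNb (hsph ρ hρ ζ hζ).1))).continuousAt.continuousWithinAt
    have hy1 : ContinuousOn y (sphere a ρ) := fun ζ hζ =>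
      (hy.differentiableAt (hNo.mem_nhds (hsph ρ hρ ζ hζ).1)).continuousAt.continuousWithinAt
    have c1 : ContinuousOn (fun ζ => y ζ * deriv G ζ / (G ζ - G w)) (sphere a ρ) :=
      (hy1.mul hG2).div (hG1.sub continuousOn_const) hne
    have c2 : ContinuousOn (fun ζ => y w * (deriv G ζ / (G ζ - G w))) (sphere a ρ) :=
      continuousOn_const.mul (hG2.div (hG1.sub continuousOn_const) hne)
    have e1 : EqOn φ (fun ζ => y ζ * deriv G ζ / (G ζ - G w) - y w * (deriv G ζ / (G ζ - G w)))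
        (sphere a ρ) := by
      intro ζ hζ
      have hzw := (hsph ρ hρ ζ hζ).2
      have h5 : ζ - w ≠ 0 := sub_ne_zero.2 hzw
      have h6 := hne ζ hζ
      show dslope y w ζ * deriv G ζ / dslope G w ζ =
        y ζ * deriv G ζ / (G ζ - G w) - y w * (deriv G ζ / (G ζ - G w))
      rw [dslope_of_ne _ hzw, dslope_of_ne _ hzw, slope_def_field, slope_def_field]
      field_simp
    rw [circleIntegral.integral_congr hρ0.le e1,
      circleIntegral.integral_sub (c1.circleIntegrable hρ0.le) (c2.circleIntegrable hρ0.le),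
      circleIntegral.integral_const_mul]
  have e1 := hcirc r hr (Or.inl rfl)
  have e2 := hcirc R hR (Or.inr rfl)
  have hwR : w ∈ ball a R := by rw [mem_ball, dist_eq_norm]; exact h3
  rw [PEX_log1 hG hinj hr (by linarith) hwb h2] at e1
  rw [PEX_log2 hG hinj hR h4 hwR] at e2
  rw [hann, e1] at e2
  linear_combination -e2

theorem PEX_ring (a : ℂ) (r R : ℝ) (hr : 0 < r) (hR : 0 < R) (G : ℂ → ℂ)
    (hG : ContinuousOn G {w : ℂ | r < ‖w - a‖ ∧ ‖w - a‖ < R}) :
    IsPreconnected (G '' {w : ℂ | r < ‖w - a‖ ∧ ‖w - a‖ < R}) := by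
  have h1 : {w : ℂ | r < ‖w - a‖ ∧ ‖w - a‖ < R} =
      (fun ξ : ℂ => a + Complex.exp ξ) '' {ξ : ℂ | Real.log r < ξ.re ∧ ξ.re < Real.log R} := by
    ext w
    constructor
    · rintro ⟨h1, h2⟩
      have h0 : w - a ≠ 0 := by
        intro h
        rw [h, norm_zero] at h1
        linarith
      refine ⟨Complex.log (w - a), ⟨?_, ?_⟩, ?_⟩
      · rw [Complex.log_re]; exact Real.log_lt_log hr h1
      · rw [Complex.log_re]; exact Real.log_lt_log (hr.trans h1) h2
      · show a + Complex.exp (Complex.log (w - a)) = w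
        rw [Complex.exp_log h0]
        ring
    · rintro ⟨ξ, ⟨h1, h2⟩, rfl⟩
      show r < ‖a + Complex.exp ξ - a‖ ∧ ‖a + Complex.exp ξ - a‖ < R
      rw [add_sub_cancel_left, Complex.norm_exp]
      exact ⟨(Real.log_lt_iff_lt_exp hr).1 h1, (Real.lt_log_iff_exp_lt hR).1 h2⟩
  have h2 : IsPreconnected {ξ : ℂ | Real.log r < ξ.re ∧ ξ.re < Real.log R} := by
    have h3 : Convex ℝ {ξ : ℂ | Real.log r < ξ.re ∧ ξ.re < Real.log R} := by
      have e1 : Convex ℝ {ξ : ℂ | Real.log r < ξ.re} := convex_halfSpace_re_gt _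
      have e2 : Convex ℝ {ξ : ℂ | ξ.re < Real.log R} := convex_halfSpace_re_lt _
      exact e1.inter e2
    exact h3.isPreconnected
  have h3 : IsPreconnected {w : ℂ | r < ‖w - a‖ ∧ ‖w - a‖ < R} := by
    rw [h1]
    exact h2.image _ (continuous_const.add Complex.continuous_exp).continuousOn
  exact h3.image _ hG

theorem PEX_zero (f : Polynomial ℂ) {G y : ℂ → ℂ} {a w : ℂ} {r₁ r r₂ : ℝ}
    (hG : DifferentiableOn ℂ G (ball a r₂))
    (hinj : InjOn G (ball a r₂)) (h0 : 0 ≤ r₁)
    (hy : DifferentiableOn ℂ y {w | r₁ < ‖w - a‖ ∧ ‖w - a‖ < r₂})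
    (hf : ∀ w, r₁ < ‖w - a‖ → ‖w - a‖ < r₂ → f.eval (y w) = G w)
    (h1 : r₁ < r) (h2 : r < ‖w - a‖) (h3 : ‖w - a‖ < r₂) :
    (∮ ζ in C(a, r), y ζ * deriv G ζ / (G ζ - G w)) = 0 := by
  set N : Set ℂ := {w | r₁ < ‖w - a‖ ∧ ‖w - a‖ < r₂} with hN
  have hNo : IsOpen N := by
    have h : Continuous fun w : ℂ => ‖w - a‖ := (continuous_id.sub continuous_const).norm
    exact (isOpen_lt continuous_const h).inter (isOpen_lt h continuous_const)
  have hNb : N ⊆ ball a r₂ := fun z hz => by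
    rw [mem_ball, dist_eq_norm]
    exact hz.2
  have hr : 0 < r := h0.trans_lt h1
  have hsN : sphere a r ⊆ N := by
    intro ζ hζ
    rw [mem_sphere, dist_eq_norm] at hζ
    exact ⟨by rw [hζ]; exact h1, by rw [hζ]; linarith⟩
  obtain ⟨B, hB⟩ := PEX_far f y G a r N hr hNo hsN hy (fun w hw => hf w hw.1 hw.2)
  have hcb : closedBall a r ⊆ ball a r₂ := closedBall_subset_ball (by linarith)
  have hGc : ContinuousOn G (closedBall a r) := hG.continuousOn.mono hcb
  obtain ⟨wm, hwm, hmax⟩ := (isCompact_closedBall a r).exists_isMaxOn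
    ⟨a, mem_closedBall_self hr.le⟩ (Complex.continuous_re.comp_continuousOn hGc)
  set M' : ℝ := (G wm).re with hM'
  have hmax' : ∀ ζ ∈ closedBall a r, (G ζ).re ≤ M' := fun ζ hζ => hmax hζ
  set A : Set ℂ := {w : ℂ | r < ‖w - a‖ ∧ ‖w - a‖ < r₂} with hA
  have hAb : A ⊆ ball a r₂ := fun z hz => by
    rw [mem_ball, dist_eq_norm]
    exact hz.2
  set U : Set ℂ := {z : ℂ | M' < z.re} ∪ G '' A with hU
  -- a common point
  have hwmb : wm ∈ ball a r₂ := hcb hwm
  have hmap : Filter.map G (𝓝 wm) = 𝓝 (G wm) := by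
    have e1 : AnalyticAt ℂ G wm := hG.analyticAt (isOpen_ball.mem_nhds hwmb)
    obtain ⟨e, he, hsub⟩ := Metric.isOpen_iff.1 isOpen_ball wm hwmb
    exact e1.hasStrictDerivAt.map_nhds_eq (EVT_deriv he (hG.mono hsub) (hinj.mono hsub))
  have himg : G '' ball a r₂ ∈ 𝓝 (G wm) := by
    rw [← hmap]
    exact Filter.image_mem_map (isOpen_ball.mem_nhds hwmb)
  obtain ⟨ε, hε, hεs⟩ := Metric.mem_nhds_iff.1 himg
  have hp : G wm + ((ε / 2 : ℝ) : ℂ) ∈ G '' ball a r₂ := by
    apply hεs
    rw [mem_ball, dist_eq_norm, add_sub_cancel_left, Complex.norm_real,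
      Real.norm_of_nonneg (by positivity)]
    linarith
  obtain ⟨w', hw', hGw'⟩ := hp
  have hre : (G w').re = M' + ε / 2 := by
    rw [hGw', Complex.add_re, Complex.ofReal_re]
  have hw'A : w' ∈ A := by
    refine ⟨?_, by rw [mem_ball, dist_eq_norm] at hw'; exact hw'⟩
    by_contra hcon
    have e1 : w' ∈ closedBall a r := by
      rw [mem_closedBall, dist_eq_norm]
      exact not_lt.1 hcon
    have e2 := hmax' w' e1
    rw [hre] at e2
    linarith
  have hGA : ContinuousOn G A := hG.continuousOn.mono hAb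
  have hr2 : 0 < r₂ := by linarith
  have hpre : IsPreconnected U :=
    IsPreconnected.union (G w') (by show M' < (G w').re; rw [hre]; linarith) ⟨w', hw'A, rfl⟩
      (convex_halfSpace_re_gt M').isPreconnected (PEX_ring a r r₂ hr hr2 G hGA)
  -- U avoids the curve
  have hUc : U ⊆ (G '' sphere a r)ᶜ := by
    rintro z hz ⟨ζ, hζ, rfl⟩
    rcases hz with hz | ⟨v, hv, hGv⟩
    · have e1 : M' < (G ζ).re := hz
      have e2 := hmax' ζ (sphere_subset_closedBall hζ)
      linarith
    · have e1 := hinj (hAb hv) (hcb (sphere_subset_closedBall hζ)) hGv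
      rw [e1] at hv
      have e2 := hv.1
      rw [mem_sphere, dist_eq_norm] at hζ
      linarith
  have hcurve : IsOpen (G '' sphere a r)ᶜ :=
    ((isCompact_sphere a r).image_of_continuousOn
      (hGc.mono sphere_subset_closedBall)).isClosed.isOpen_compl
  have hS := PEX_param (fun ζ => y ζ * deriv G ζ) G a r hr
    ((hy.continuousOn.mono hsN).mul
      ((hG.deriv isOpen_ball).continuousOn.mono (sphere_subset_closedBall.trans hcb)))
    (hGc.mono sphere_subset_closedBall)
  have hSan : AnalyticOnNhd ℂ (fun z => ∮ ζ in C(a, r), y ζ * deriv G ζ / (G ζ - z)) U :=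
    (hS.analyticOnNhd hcurve).mono hUc
  -- it vanishes far away
  set z₁ : ℂ := ((max |B| |M'| + 1 : ℝ) : ℂ) with hz₁
  have hz₁U : z₁ ∈ U := by
    left
    show M' < z₁.re
    rw [hz₁, Complex.ofReal_re]
    have e1 := le_max_right |B| |M'|
    have e2 := le_abs_self M'
    linarith
  have hz₁B : B < ‖z₁‖ := by
    rw [hz₁, Complex.norm_real, Real.norm_of_nonneg (by positivity)]
    have e1 := le_max_left |B| |M'|
    have e2 := le_abs_self B
    linarith
  have hev : (fun z => ∮ ζ in C(a, r), y ζ * deriv G ζ / (G ζ - z)) =ᶠ[𝓝 z₁] 0 := by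
    have e1 : ∀ᶠ z : ℂ in 𝓝 z₁, B < ‖z‖ := continuous_norm.continuousAt.eventually (lt_mem_nhds hz₁B)
    filter_upwards [e1] with z hz
    exact hB z hz
  have hzero := hSan.eqOn_zero_of_preconnected_of_eventuallyEq_zero hpre hz₁U hev
  exact hzero (show G w ∈ U from Or.inr ⟨w, ⟨h2, h3⟩, rfl⟩)

theorem PEX : PEX_stmt := by
  intro f G y a r₁ r₂ hf1 h0 h12 hG hinj hy hf
  set N : Set ℂ := {w | r₁ < ‖w - a‖ ∧ ‖w - a‖ < r₂} with hN
  have hNo : IsOpen N := by
    have h : Continuous fun w : ℂ => ‖w - a‖ := (continuous_id.sub continuous_const).norm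
    exact (isOpen_lt continuous_const h).inter (isOpen_lt h continuous_const)
  have hNb : N ⊆ ball a r₂ := fun z hz => by
    rw [mem_ball, dist_eq_norm]
    exact hz.2
  set R : ℝ := (r₁ + r₂) / 2 with hR
  have hR1 : r₁ < R := by rw [hR]; linarith
  have hR2 : R < r₂ := by rw [hR]; linarith
  have hR0 : 0 < R := by linarith
  have hcb : closedBall a R ⊆ ball a r₂ := closedBall_subset_ball hR2
  have hsN : sphere a R ⊆ N := by
    intro ζ hζ
    rw [mem_sphere, dist_eq_norm] at hζ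
    exact ⟨by rw [hζ]; exact hR1, by rw [hζ]; exact hR2⟩
  set F : ℂ → ℂ := fun w => (2 * Real.pi * I)⁻¹ * ∮ ζ in C(a, R), y ζ * deriv G ζ / (G ζ - G w)
    with hF
  have hGc : ContinuousOn G (sphere a R) := hG.continuousOn.mono (sphere_subset_closedBall.trans hcb)
  have hcurve : IsOpen (G '' sphere a R)ᶜ :=
    ((isCompact_sphere a R).image_of_continuousOn hGc).isClosed.isOpen_compl
  have hS := PEX_param (fun ζ => y ζ * deriv G ζ) G a R hR0
    ((hy.continuousOn.mono hsN).mul
      ((hG.deriv isOpen_ball).continuousOn.mono (sphere_subset_closedBall.trans hcb))) hGc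
  have hFd : ∀ w ∈ ball a R, DifferentiableAt ℂ F w := by
    intro w hw
    have hwb : w ∈ ball a r₂ := hcb (ball_subset_closedBall hw)
    have e1 : G w ∈ (G '' sphere a R)ᶜ := by
      rintro ⟨ζ, hζ, he⟩
      have e2 := hinj (hcb (sphere_subset_closedBall hζ)) hwb he
      rw [e2, mem_sphere] at hζ
      rw [mem_ball] at hw
      linarith
    have e2 := (hS.differentiableAt (hcurve.mem_nhds e1)).comp w
      (hG.differentiableAt (isOpen_ball.mem_nhds hwb))
    exact e2.const_mul _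
  have hFy : ∀ w, r₁ < ‖w - a‖ → ‖w - a‖ < R → F w = y w := by
    intro w h1 h2
    set r : ℝ := (r₁ + ‖w - a‖) / 2 with hr
    have e1 : r₁ < r := by rw [hr]; linarith
    have e2 : r < ‖w - a‖ := by rw [hr]; linarith
    have e3 := PEX_res hG hinj h0 hy e1 e2 h2 hR2
    have e4 := PEX_zero f hG hinj h0 hy hf e1 e2 (h2.trans hR2)
    have hpi : (2 * Real.pi * I : ℂ) ≠ 0 := by
      simp [Real.pi_ne_zero]
    show (2 * Real.pi * I)⁻¹ * (∮ ζ in C(a, R), y ζ * deriv G ζ / (G ζ - G w)) = y w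
    rw [e3, e4, zero_add, ← mul_assoc, inv_mul_cancel₀ hpi, one_mul]
  set Y : ℂ → ℂ := fun w => if ‖w - a‖ ≤ r₁ then F w else y w with hY
  have hYy : ∀ w, r₁ < ‖w - a‖ → Y w = y w := fun w h => if_neg (not_le.2 h)
  have hYF : ∀ w ∈ ball a R, Y w = F w := by
    intro w hw
    rw [mem_ball, dist_eq_norm] at hw
    by_cases h : ‖w - a‖ ≤ r₁
    · exact if_pos h
    · rw [hYy w (not_le.1 h), hFy w (not_le.1 h) hw]
  have hYd : DifferentiableOn ℂ Y (ball a r₂) := by
    intro w hw
    refine DifferentiableAt.differentiableWithinAt ?_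
    by_cases h : ‖w - a‖ < R
    · have hwR : w ∈ ball a R := by rw [mem_ball, dist_eq_norm]; exact h
      refine (hFd w hwR).congr_of_eventuallyEq ?_
      filter_upwards [isOpen_ball.mem_nhds hwR] with v hv
      exact hYF v hv
    · have hwN : w ∈ N := ⟨by linarith [not_lt.1 h], by rw [mem_ball, dist_eq_norm] at hw; exact hw⟩
      refine (hy.differentiableAt (hNo.mem_nhds hwN)).congr_of_eventuallyEq ?_
      filter_upwards [hNo.mem_nhds hwN] with v hv
      exact hYy v hv.1
  refine ⟨Y, hYd, fun w h1 _ => hYy w h1, ?_⟩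
  -- the identity theorem
  set w₁ : ℂ := a + ((R : ℝ) : ℂ) with hw₁
  have hw₁n : ‖w₁ - a‖ = R := by
    rw [hw₁, add_sub_cancel_left, Complex.norm_real, Real.norm_of_nonneg hR0.le]
  have hw₁N : w₁ ∈ N := ⟨by rw [hw₁n]; exact hR1, by rw [hw₁n]; exact hR2⟩
  have hA : AnalyticOnNhd ℂ (fun w => f.eval (Y w) - G w) (ball a r₂) := by
    refine DifferentiableOn.analyticOnNhd ?_ isOpen_ball
    exact (f.differentiable.comp_differentiableOn hYd).sub hG
  have hev : (fun w => f.eval (Y w) - G w) =ᶠ[𝓝 w₁] 0 := by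
    filter_upwards [hNo.mem_nhds hw₁N] with v hv
    show f.eval (Y v) - G v = 0
    rw [hYy v hv.1, hf v hv.1 hv.2, sub_self]
  have hzero := hA.eqOn_zero_of_preconnected_of_eventuallyEq_zero
    (convex_ball a r₂).isPreconnected (hNb hw₁N) hev
  intro w hw
  exact sub_eq_zero.1 (hzero hw)

end PPS
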