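import Pool.Agent.helper36.PP.PRB

/-! pp:PF -/

set_option autoImplicit false

open Complex Metric Set Filter Topology MeasureTheory MPS

noncomputable section

namespace PPS

theorem PF_one (f : Polynomial ℂ) (hf : 1 ≤ f.natDegree) (z : ℂ) (hz : z ∉ CV f) (b : ℂ)
    (hb : f.eval b ≠ z) :
    ((pre f z).map fun y => 1 / ((y - b) * fd f y)).sum = 1 / (z - f.eval b) := by
  obtain ⟨hmem, hcard, hnod, -, -, -⟩ := PRB f hf
  have hnd := hnod z hz
  set s : Finset ℂ := (pre f z).toFinset with hs
  have hval : s.val = pre f z := by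
    rw [hs, Multiset.toFinset_val]
    exact hnd.dedup
  have hF : f - Polynomial.C z = Polynomial.C f.leadingCoeff * Lagrange.nodal s id := by
    have h1 : (f - Polynomial.C z).Splits := IsAlgClosed.splits _
    have h2 := h1.eq_prod_roots
    have h3 : (f - Polynomial.C z).leadingCoeff = f.leadingCoeff := by
      rw [Polynomial.leadingCoeff, PRB_deg f z hf, Polynomial.coeff_sub, Polynomial.coeff_C,
        if_neg (by omega), sub_zero]
      rfl
    rw [h3] at h2
    rw [h2]
    congr 1
    unfold Lagrange.nodal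
    rw [Finset.prod, hval]
    rfl
  have hder : f.derivative = Polynomial.C f.leadingCoeff * (Lagrange.nodal s (id : ℂ → ℂ)).derivative := by
    have := congrArg Polynomial.derivative hF
    rwa [Polynomial.derivative_sub, Polynomial.derivative_C, sub_zero,
      Polynomial.derivative_C_mul] at this
  have hlc : f.leadingCoeff ≠ 0 := by
    rw [Polynomial.leadingCoeff_ne_zero]
    rintro rfl
    simp at hf
  have hsum : ((pre f z).map fun y => 1 / ((y - b) * fd f y)).sum =
      ∑ y ∈ s, 1 / ((y - b) * fd f y) := by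
    rw [Finset.sum, hval]
  rw [hsum]
  have hinj : Set.InjOn (id : ℂ → ℂ) s := Set.injOn_id _
  have hbs : ∀ y ∈ s, b ≠ y := by
    intro y hy hby
    rw [hs, Multiset.mem_toFinset, hmem] at hy
    exact hb (hby ▸ hy)
  have hne : s.Nonempty := by
    have h1 : 0 < s.card := by
      have : s.card = (pre f z).card := by rw [← hval]; rfl
      rw [this, hcard]
      omega
    exact Finset.card_pos.1 h1
  have h5 := Lagrange.eval_interpolate_not_at_node (s := s) (v := (id : ℂ → ℂ)) (r := fun _ => 1) hbs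
  have h6 : Lagrange.interpolate s (id : ℂ → ℂ) (fun _ => (1 : ℂ)) = 1 := Lagrange.interpolate_one hinj hne
  rw [h6, Polynomial.eval_one] at h5
  have h7 : f.eval b - z = f.leadingCoeff * (Lagrange.nodal s (id : ℂ → ℂ)).eval b := by
    have := congrArg (Polynomial.eval b) hF
    simpa using this
  have h8 : f.eval b - z ≠ 0 := sub_ne_zero.2 hb
  have hnod0 : (Lagrange.nodal s (id : ℂ → ℂ)).eval b ≠ 0 := by
    intro h
    rw [h, mul_zero] at h7
    exact h8 h7
  have h9 : ∀ y ∈ s, 1 / ((y - b) * fd f y) =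
      -(f.leadingCoeff)⁻¹ * (Lagrange.nodalWeight s (id : ℂ → ℂ) y * (b - y)⁻¹) := by
    intro y hy
    rw [Lagrange.nodalWeight_eq_eval_derivative_nodal hy]
    unfold fd
    rw [hder, Polynomial.eval_mul, Polynomial.eval_C]
    have h10 : b - y ≠ 0 := sub_ne_zero.2 (hbs y hy)
    have h11 : y - b ≠ 0 := sub_ne_zero.2 (hbs y hy).symm
    simp only [id]
    rw [one_div, mul_inv, mul_inv]
    have h12 : (y - b)⁻¹ = -(b - y)⁻¹ := by
      rw [← neg_sub b y, inv_neg]
    rw [h12]
    ring
  rw [Finset.sum_congr rfl h9, ← Finset.mul_sum]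
  simp only [mul_one, id] at h5
  have h13 : ∑ y ∈ s, Lagrange.nodalWeight s (id : ℂ → ℂ) y * (b - y)⁻¹ =
      ((Lagrange.nodal s (id : ℂ → ℂ)).eval b)⁻¹ := by
    have h14 : (Lagrange.nodal s (id : ℂ → ℂ)).eval b *
        ∑ y ∈ s, Lagrange.nodalWeight s (id : ℂ → ℂ) y * (b - y)⁻¹ = 1 := h5.symm
    exact eq_inv_of_mul_eq_one_right h14
  rw [h13, ← neg_sub (f.eval b) z, h7]
  field_simp

theorem PF : PF_stmt := by
  intro f hf z hz b hb
  refine ⟨PF_one f hf z hz b hb, ?_⟩
  obtain ⟨hmem, -, -, -, -, -⟩ := PRB f hf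
  -- derivative of both sides in `b`
  have h1 : ∀ s : Multiset ℂ, (∀ y ∈ s, y ≠ b) →
      HasDerivAt (fun b' => (s.map fun y => 1 / ((y - b') * fd f y)).sum)
        ((s.map fun y => 1 / ((y - b) ^ 2 * fd f y)).sum) b := by
    intro s
    induction s using Multiset.induction_on with
    | empty => intro _; simpa using hasDerivAt_const b (0 : ℂ)
    | cons a s ih =>
      intro hs
      have h2 := ih fun y hy => hs y (Multiset.mem_cons_of_mem hy)
      have h3 : a - b ≠ 0 := sub_ne_zero.2 (hs a (Multiset.mem_cons_self a s))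
      have h4 : HasDerivAt (fun b' : ℂ => 1 / ((a - b') * fd f a)) (1 / ((a - b) ^ 2 * fd f a)) b := by
        have h5 : HasDerivAt (fun b' : ℂ => (a - b')⁻¹) (-(-1) / (a - b) ^ 2) b :=
          ((hasDerivAt_id b).const_sub a).inv h3
        have h6 := h5.mul_const ((fd f a)⁻¹)
        have e1 : (fun b' : ℂ => 1 / ((a - b') * fd f a)) = fun y => (a - y)⁻¹ * (fd f a)⁻¹ := by
          funext b'
          rw [one_div, mul_inv]
        rw [e1]
        refine h6.congr_deriv ?_
        rw [one_div, mul_inv]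
        ring
      simp only [Multiset.map_cons, Multiset.sum_cons]
      exact h4.add h2
  have h2 := h1 (pre f z) (fun y hy he => hb (by rw [← he]; exact (hmem z y).1 hy))
  have h3 : HasDerivAt (fun b' => 1 / (z - f.eval b')) (fd f b / (z - f.eval b) ^ 2) b := by
    have h4 : z - f.eval b ≠ 0 := sub_ne_zero.2 (Ne.symm hb)
    have h5 := ((f.hasDerivAt b).const_sub z).inv h4
    have e1 : (fun b' => 1 / (z - f.eval b')) = fun y => (z - f.eval y)⁻¹ := by
      funext b'
      rw [one_div]
    rw [e1]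
    refine h5.congr_deriv ?_
    unfold fd
    ring
  have h4 : (fun b' => (((pre f z).map fun y => 1 / ((y - b') * fd f y)).sum)) =ᶠ[𝓝 b]
      fun b' => 1 / (z - f.eval b') := by
    have h5 : ∀ᶠ b' in 𝓝 b, f.eval b' ≠ z := f.continuous.continuousAt.eventually_ne hb
    filter_upwards [h5] with b' hb'
    exact PF_one f hf z hz b' hb'
  exact h2.unique (h3.congr_of_eventuallyEq h4)

end PPS
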