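import Pool.Agent.helper36.PP.Defs

/-!
# Project pp: (MP_70a088_an): part A (algebra of the transfer operator, mass, lifting, critical values)

The universal strip for the multipliers of all polynomials. Generalisation of mp: and mq:; see Defs.
RULES. File `Pool/Agent/<seat>/PP/XX.lean`, `import Pool.Agent.helper36.PP.SpecA` (or the later Spec file with the statement),
`namespace PPS`, `theorem XX (h : YY_stmt) ... : XX_stmt`. Hypotheses may be: any other statement of the pp: Spec files (no circles) and every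
statement of `MPS` and `MQ` (all of them are proved: `Pool/Agent/helper36/MP/All.lean`, `Pool/Agent/helper74/MQ/All.lean`). You may import the
proof files of mp:/mq: and use or copy (and adapt) their lemmas; inside `namespace PPS` the names `fd`, `rho`, `er`, `LevSys`, ... mean
the new ones. Auxiliary lemmas prefixed `XX_`. No `sorry`, no double quotes in comments.
-/

set_option autoImplicit false

open Complex Metric Set Filter Topology MeasureTheory MPS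

noncomputable section

namespace PPS

/-! ## Algebra -/

/-- PRB: the preimages.
PROOF. `(f - C z).natDegree = n ≥ 1`, not zero; over `ℂ` the multiset of roots has `natDegree` elements (`IsAlgClosed.splits`, `Polynomial.splits_iff_card_roots`). `(f - C z)' = f'`: a root with
`fd f y ≠ 0` is simple (`Polynomial.one_lt_rootMultiplicity_iff_isRoot`), so its count is `1`; if `z ∉ CV f` all roots are simple (`Multiset.nodup_iff_count_le_one`).
Critical values: images of the at most `n - 1` roots of `f' ≠ 0` (characteristic 0). -/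
def PRB_stmt : Prop := ∀ f : Polynomial ℂ, 1 ≤ f.natDegree →
  (∀ z y : ℂ, y ∈ pre f z ↔ f.eval y = z) ∧ (∀ z, (pre f z).card = f.natDegree) ∧
  (∀ z, z ∉ CV f → (pre f z).Nodup) ∧ (∀ z y, f.eval y = z → fd f y ≠ 0 → (pre f z).count y = 1) ∧
  (CV f).Finite ∧ (CV f).ncard ≤ f.natDegree - 1

/-- PF: partial fractions of `1/(f - z)`.
PROOF. `F = f - C z`, `F' = f'`, `n` distinct simple roots. `1/F(b) = ∑_y 1/(F'(y)(b - y))` for `F(b) ≠ 0` (Lagrange interpolation of the constant `1` at the roots: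
`∑_y ∏_{y' ≠ y} (X - y')/(y - y') = 1`, `Lagrange.sum_basis`, and `F = C (leadingCoeff) * ∏ (X - y)`, `F'(y) = leadingCoeff * ∏_{y' ≠ y} (y - y')`). So the first sum is `-1/F(b) = 1/(z - f b)`.
Second: differentiate the first identity in `b` (both sides are differentiable near `b`; the identity holds for all `b'` near `b`). -/
def PF_stmt : Prop := ∀ f : Polynomial ℂ, 1 ≤ f.natDegree → ∀ z, z ∉ CV f → ∀ b : ℂ, f.eval b ≠ z →
  ((pre f z).map fun y => 1 / ((y - b) * fd f y)).sum = 1 / (z - f.eval b) ∧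
  ((pre f z).map fun y => 1 / ((y - b) ^ 2 * fd f y)).sum = fd f b / (z - f.eval b) ^ 2

/-- QI: `B + Q = f' M` for exact coefficients.
PROOF. Put `K(X,Y) = (f'(X) - f'(Y))/(X - Y) = ∑_l α_l ∑_{m+j=l-1} X^m Y^j` (`α_l = f.derivative.coeff l`, `l < n`) and `Λ(u) = ∑_i (u'(b i)/f'(b i) + g (i+1) u(b i))`, so `lam m = Λ(X^m)` and
`QQ y = Λ_X (K(X,y))` (for `y ≠ b i`). With `u X = K(X,y)`: `u(b) = (f'(b) - f'(y))/(b - y)`, `u'(b) = f''(b)/(b - y) - (f'(b) - f'(y))/(b - y)²`. By exactness `g (i+1) f'(b i) = g i - f''(b i)/f'(b i)`, so the `i`-th term of `Λ(u)` is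
`-1/(y - b)² - g i/(y - b) + f'(y) (1/(f'(b)(y-b)²) + g (i+1)/(y - b))`. -/
def QI_stmt : Prop := ∀ (n k : ℕ) [NeZero k] (f : Polynomial ℂ) (b g : ZMod k → ℂ), 2 ≤ n →
  f.natDegree = n → IsCyc f b → Exact f b g → ∀ y : ℂ, (∀ i, y ≠ b i) →
  BB b g y + QQ f b g y = fd f y * ∑ i, (1 / (fd f (b i) * (y - b i) ^ 2) + g (i + 1) / (y - b i))

/-- TB: `T (B + Q) = B` for exact coefficients.
PROOF. `y ∈ pre f z` is no `b i` (else `z = b (i+1)`), `fd f y ≠ 0`. By QI the sum is `∑_y M(y)/f'(y)`, `M(y) = ∑_i (1/(f'(b i)(y-b i)²) + g (i+1)/(y-b i))`; PF with `b = b i`, `f (b i) = b (i+1)`: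
`= ∑_i (1/(z - b (i+1))² + g (i+1)/(z - b (i+1)))`. -/
def TB_stmt : Prop := ∀ (n k : ℕ) [NeZero k] (f : Polynomial ℂ) (b g : ZMod k → ℂ), 2 ≤ n →
  f.natDegree = n → IsCyc f b → Exact f b g → ∀ z : ℂ, z ∉ CV f → (∀ i, z ≠ b i) →
  TT f (fun y => BB b g y + QQ f b g y) z = BB b g z ∧ er f b g z = TT f (QQ f b g) z

/-- TG: existence and uniqueness of exact coefficients (proof of `MPS.TG`, helper24/MP/TG.lean, with `fd f`). -/
def TG_stmt : Prop := ∀ (n k : ℕ) [NeZero k] (f : Polynomial ℂ) (b : ZMod k → ℂ), 2 ≤ n →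
  f.natDegree = n → IsCyc f b → rho f b ≠ 1 → ∃! g : ZMod k → ℂ, Exact f b g

/-- QB: bound of `Q`.
PROOF. `‖α_l‖ = ‖(l+1) coeff (l+1)‖ ≤ n * max a 1`, at most `n` terms with `‖y‖^(..) ≤ R^n`. -/
def QB_stmt : Prop := ∀ (n k : ℕ) [NeZero k] (f : Polynomial ℂ) (b g : ZMod k → ℂ) (a R : ℝ), 2 ≤ n →
  f.natDegree = n → (∀ i, ‖f.coeff i‖ ≤ a) → 1 ≤ R → ∀ y : ℂ, ‖y‖ ≤ R →
  ‖QQ f b g y‖ ≤ (n : ℝ) ^ 3 * max a 1 * R ^ n * ∑ m ∈ Finset.range (n - 1), ‖lam f b g m‖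

/-! ## Measure -/

/-- MS: sums over the preimages are measurable.
PROOF. `{f' ≠ 0}` is a countable disjoint union of measurable sets `U_j` on which `f` is injective (second countability and local injectivity: a countable cover by balls, then differences), with measurable images and inverses
(`MeasurableSet.image_of_measurable_injOn`, `MeasurableEmbedding` of the restriction). For `z ∉ CV f` the sum is `∑_j 1_{f(U_j)}(z) φ((f|U_j)⁻¹ z)` (finitely many terms different from zero; use partial sums, which are eventually constant,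
`measurable_of_tendsto_metrizable`; for `ENNReal` `Measurable.ennreal_tsum`); `CV f` is finite, so the values there do not matter (`Measurable` up to a change on a finite set: `Measurable.measurable_of_countable_ne`). Real and complex `φ` can be
reduced to the `ENNReal` case by positive and negative parts (also of the real and imaginary part). -/
def MS_stmt : Prop := ∀ f : Polynomial ℂ, 1 ≤ f.natDegree →
  (∀ φ : ℂ → ENNReal, Measurable φ → Measurable fun z => ((pre f z).map φ).sum) ∧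
  (∀ φ : ℂ → ℝ, Measurable φ → Measurable fun z => ((pre f z).map φ).sum) ∧
  (∀ φ : ℂ → ℂ, Measurable φ → Measurable fun z => ((pre f z).map φ).sum)

/-- MCV: change of variables `∫_K T F = ∫_{f⁻¹ K} F`.
PROOF. Pieces `U_j` as in MS: `∫_{f⁻¹K} F = ∑_j ∫_{U_j ∩ f⁻¹K} F` (`{f' = 0}` is finite) `= ∑_j ∫_{f(U_j) ∩ K} F(g_j z)/‖f'(g_j z)‖² dz` (`lintegral_image_eq_lintegral_abs_det_fderiv_mul` for `f` on `U_j ∩ f⁻¹ K`, `g_j` the inverse of `f|U_j`;
the determinant of the real derivative of a holomorphic map is `‖f'‖²`, see helper43/MP/MCV.lean) `= ∫_K ∑_j ...`, and for `z ∉ CV f` the last sum is the sum over `pre f z`. -/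
def MCV_stmt : Prop := ∀ f : Polynomial ℂ, 1 ≤ f.natDegree → ∀ (F : ℂ → ENNReal) (K : Set ℂ),
  Measurable F → MeasurableSet K →
  ∫⁻ z in K, ((pre f z).map fun y => F y / ENNReal.ofReal (‖fd f y‖ ^ 2)).sum =
    ∫⁻ y in {y : ℂ | f.eval y ∈ K}, F y

/-- MI: measurability, positivity of the deficit.
PROOF. MS. `‖∑ q_y‖ ≤ ∑ ‖q_y‖` for multisets; `‖q / fd² ‖ = ‖q‖ / ‖fd‖²` (also for `fd = 0`: both are `0`). -/
def MI_stmt : Prop := ∀ (k : ℕ) [NeZero k] (f : Polynomial ℂ) (b g : ZMod k → ℂ), 1 ≤ f.natDegree →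
  Measurable (BB b g) ∧ Measurable (TT f (BB b g)) ∧ Measurable (er f b g) ∧ Measurable (Df f b g) ∧
    (∀ z, 0 ≤ Df f b g z) ∧ Measurable (TT f (QQ f b g))

/-- TL1: the transfer operator does not increase the mass. PROOF. MCV for `F = ‖q‖`, `K = ball 0 R`, `f⁻¹ K ⊆ K`; `‖TT f q z‖ ≤ ∑ ‖q y‖/‖fd f y‖²`, and `ofReal (a/b) ≤ ofReal a/ofReal b`. -/
def TL1_stmt : Prop := ∀ (f : Polynomial ℂ) (R : ℝ) (q : ℂ → ℂ), 1 ≤ f.natDegree →
  (∀ y : ℂ, ‖f.eval y‖ < R → ‖y‖ < R) → Measurable q →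
  ∫⁻ z in ball (0 : ℂ) R, ENNReal.ofReal ‖TT f q z‖ ≤ ∫⁻ z in ball (0 : ℂ) R, ENNReal.ofReal ‖q z‖

/-- ERQ: exact coefficients: the error is `T Q`, and the bound of its integral.
PROOF. `er = TT f (QQ ..)` off `CV f` and the cycle (TB), a finite set (PRB). TL1 for `q = QQ` (a polynomial): `∫⁻ ≤ ∫⁻_{ball 0 R} ‖QQ‖ ≤ C * volume (ball 0 R) = C π R²`; measurability MI. -/
def ERQ_stmt : Prop := ∀ (n k : ℕ) [NeZero k] (f : Polynomial ℂ) (b g : ZMod k → ℂ),
  2 ≤ n → f.natDegree = n → IsCyc f b → Exact f b g →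
  (∀ᵐ z : ℂ, er f b g z = TT f (QQ f b g) z) ∧
  ∀ R C : ℝ, 0 < R → (∀ y : ℂ, ‖f.eval y‖ < R → ‖y‖ < R) → (∀ y : ℂ, ‖y‖ ≤ R → ‖QQ f b g y‖ ≤ C) →
    IntegrableOn (er f b g) (ball 0 R) ∧ ∫ z in ball (0 : ℂ) R, ‖er f b g z‖ ≤ C * Real.pi * R ^ 2

/-- ERI: `er` is integrable (for all coefficients `g`), and coefficients with `∑ g ≠ 0` by a small perturbation.
PROOF. Exact `g₀` (TG). `d i = g i - g₀ i`, `q z = ∑ d i/(z - b i)`, integrable on bounded sets (`MPS.MI`, last part): `BB b g = BB b g₀ + q`, `TT f` is additive, so `er f b g = er f b g₀ + q - TT f q`; TL1 for `q` and ERQ for `g₀` (`QQ` is bounded on the ball).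
For the second claim `g' i = g i + ν` (constant `ν ≠ 0` small): `er f b g' = er f b g + ν (q₁ - TT f q₁)`, `q₁ = ∑ 1/(z - b i)`, so `∫‖er f b g'‖ ≤ ∫‖er f b g‖ + 2 ‖ν‖ ∫_{ball 0 R} ‖q₁‖` (TL1), and `∑ g' = ∑ g + k ν ≠ 0` for all `ν` but one. -/
def ERI_stmt : Prop := ∀ (n k : ℕ) [NeZero k] (f : Polynomial ℂ) (b g : ZMod k → ℂ) (R : ℝ),
  2 ≤ n → f.natDegree = n → IsCyc f b → rho f b ≠ 1 → 0 < R → (∀ y : ℂ, ‖f.eval y‖ < R → ‖y‖ < R) →
  IntegrableOn (er f b g) (ball 0 R) ∧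
  ∀ η > (0 : ℝ), ∃ g' : ZMod k → ℂ, ∑ i, g' i ≠ 0 ∧
    ∫ z in ball (0 : ℂ) R, ‖er f b g' z‖ ≤ (∫ z in ball (0 : ℂ) R, ‖er f b g z‖) + η

/-- MD: total cancellation.
PROOF. As `MPS.MD` (helper74/MP/MD.lean, MD1.lean; the lemmas `MD_loc`, `MD_annB`, `MD_disj` on `BB b g` near the poles do not depend on `f` and can be used; `MD_der` for the polynomial `f` at `b i`, `fd f (b i) ≠ 0`).
`K_r = ball 0 R \ ⋃ ball (b i) r`. MCV: `∫_{K_r} T|B| = ∫_{f⁻¹ K_r} |B|`, `f⁻¹ (ball 0 R) ⊆ ball 0 R`, and `f⁻¹ K_r` is disjoint from `ball (b i) (r (1 - C r)/‖f'(b i)‖)` since `f` maps it into `ball (b (i+1)) r`. So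
`∫_{K_r} T|B| ≤ ∫_{K_r} |B| + 2π ∑ log ‖f'(b i)‖ + o(1)`; `Df = T|B| - |TB| ≤ T|B| - |B| + ‖er‖`; `r → 0` (monotone convergence). `er` is integrable by ERI. -/
def MD_stmt : Prop := ∀ (n k : ℕ) [NeZero k] (f : Polynomial ℂ) (b g : ZMod k → ℂ) (R : ℝ), 2 ≤ n →
  f.natDegree = n → IsCyc f b → 1 < ‖rho f b‖ → 0 < R → (∀ j, ‖b j‖ < R) →
  (∀ y : ℂ, ‖f.eval y‖ < R → ‖y‖ < R) →
  ∫⁻ z in ball (0 : ℂ) R, ENNReal.ofReal (Df f b g z) ≤
    ENNReal.ofReal (2 * Real.pi * Real.log ‖rho f b‖ + ∫ z in ball (0 : ℂ) R, ‖er f b g z‖)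

/-- MA: sum of the pulled back densities over a family of injective maps with images of multiplicity at most `M`
in `ball 0 R` (proof of `MPS.MA`, helper74/MP/MA.lean). -/
def MA_stmt : Prop := ∀ (n k : ℕ) [NeZero k] (f : Polynomial ℂ) (b g : ZMod k → ℂ) (R : ℝ), 2 ≤ n →
  f.natDegree = n → IsCyc f b → 1 < ‖rho f b‖ → 0 < R → (∀ j, ‖b j‖ < R) →
  (∀ y : ℂ, ‖f.eval y‖ < R → ‖y‖ < R) → ∀ (Q M : ℕ) (Ω : ℕ → Set ℂ) (G : ℕ → ℂ → ℂ),
  (∀ q < Q, IsOpen (Ω q) ∧ DifferentiableOn ℂ (G q) (Ω q) ∧ InjOn (G q) (Ω q) ∧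
    MapsTo (G q) (Ω q) (ball 0 R)) →
  (∀ z : ℂ, ∀ F : Finset ℕ, (∀ q ∈ F, q < Q ∧ z ∈ G q '' Ω q) → F.card ≤ M) →
  (∑ q ∈ Finset.range Q, ∫⁻ w in Ω q, ENNReal.ofReal (dens f b g (G q) w) ≤
    M * ENNReal.ofReal (2 * Real.pi * Real.log ‖rho f b‖ + 3 * ∫ z in ball (0 : ℂ) R, ‖er f b g z‖)) ∧
  (∑ q ∈ Finset.range Q, ∫⁻ w in Ω q, ENNReal.ofReal (‖er f b g (G q w)‖ * ‖deriv (G q) w‖ ^ 2) ≤
    M * ENNReal.ofReal (∫ z in ball (0 : ℂ) R, ‖er f b g z‖))

/-- TR: shift of the base point of the cycle (reindexing; helper30/MP/TR.lean; `TT`, `er` depend on `b, g` only through `BB`). -/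
def TR_stmt : Prop := ∀ (n k : ℕ) [NeZero k] (f : Polynomial ℂ) (b g : ZMod k → ℂ)
  (ψ : ZMod k → ℂ → ℂ) (ra R ε : ℝ) (i : ZMod k), SU n k f b g ψ ra R ε →
    SU n k f (fun j => b (i + j)) (fun j => g (i + j)) (fun j => ψ (i + j)) ra R ε ∧
    rho f (fun j => b (i + j)) = rho f b ∧
    (∀ z, BB (fun j => b (i + j)) (fun j => g (i + j)) z = BB b g z) ∧
    (∀ χ y r, Flat (fun j => b (i + j)) (fun j => g (i + j)) χ y r ↔ Flat b g χ y r)

/-- NGA: growth of natural maps for cycles in the disc of radius `ra` (proof of `MPS.NG`, helper52/MP/NG.lean, with `2 ra` instead of `8`; or by scaling). -/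
def NGA_stmt : Prop := ∀ δ ra : ℝ, 0 < δ → 0 < ra → ∃ R₁ : ℝ, ra < R₁ ∧ ∀ (k : ℕ) [NeZero k]
  (b g : ZMod k → ℂ) (i : ZMod k) (ψ : ℂ → ℂ), 2 ≤ k → Function.Injective b → (∀ j, ‖b j‖ ≤ ra) →
  PN b g i ψ 1 → ∀ u : ℂ, ‖u‖ ≤ Real.exp (-δ) → ‖ψ u‖ < R₁

/-- NGFA: bound of a flat extension, on the disc of radius `ρ₀/8`.
PROOF. `MPS.NGF` (helper21/MP/NGF.lean) with `2 ra` instead of `8`: base point `w₀ = i y - ρ₀/16`; the segment from `w₀` to `w ∈ ball (iy) (ρ₀/8)` has length `< 3ρ₀/16`, its points are centres of balls of radius `ρ₀/2` inside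
the flat disc: the factor is `exp((8000/ρ₀)(3ρ₀/16)) = e^1500` instead of `e^1000`. -/
def NGFA_stmt : Prop := ∀ ρ₀ ra : ℝ, 0 < ρ₀ → ρ₀ ≤ 1 → 0 < ra → ∃ R₂ : ℝ, ra < R₂ ∧ ∀ (k : ℕ) [NeZero k]
  (b g : ZMod k → ℂ) (i : ZMod k) (ψ χ : ℂ → ℂ) (y : ℝ), 2 ≤ k → Function.Injective b →
  (∀ j, ‖b j‖ ≤ ra) → PN b g i ψ 1 → IsNat b g χ (HP 0 ∪ ball ((y : ℂ) * I) ρ₀) →
  EqOn χ (hat ψ) (HP 0) → ∀ w ∈ ball ((y : ℂ) * I) (ρ₀ / 8), ‖χ w‖ < R₂

/-! ## Lifting -/

/-- LUN: uniqueness of branches.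
PROOF. `{w ∈ Ω | h₁ w = h₂ w}` is closed in `Ω`; it is open: at such a `w` the polynomial `f` is injective near `h₁ w` (`fd f (h₁ w) ≠ 0`, strict derivative), and `f(h₁) = f(h₂)`, both continuous. -/
def LUN_stmt : Prop := ∀ (f : Polynomial ℂ) (Ω : Set ℂ) (h₁ h₂ : ℂ → ℂ) (w₀ : ℂ), IsOpen Ω →
  IsPreconnected Ω → ContinuousOn h₁ Ω → ContinuousOn h₂ Ω → (∀ w ∈ Ω, f.eval (h₁ w) = f.eval (h₂ w)) →
  (∀ w ∈ Ω, fd f (h₁ w) ≠ 0) → w₀ ∈ Ω → h₁ w₀ = h₂ w₀ → EqOn h₁ h₂ Ω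

/-- LIFT: branches exist on convex sets without critical values.
PROOF. As `MPS.ZC0` (helper92/MP/ZC0.lean), which is this for balls and for roots of a holomorphic family of monic polynomials with simple roots (apply its method to `P_w(Y) = f(Y) - F(w)`, up to the leading coefficient).
Locally: at `w₁ ∈ Ω` the `n` distinct simple preimages of `F w₁` continue holomorphically to a ball about `w₁` and are all the preimages there. Continuation along the segments `[w₀, w]`: for every `w ∈ Ω` the set of `s ∈ [0,1]`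
such that a branch exists on a neighbourhood of `[w₀, w₀ + s(w - w₀)]` is open and closed; on convex neighbourhoods (`ε`-neighbourhoods of segments) branches with the same value at `w₀` agree (LUN), so they glue to a branch on `Ω`. -/
def LIFT_stmt : Prop := ∀ (f : Polynomial ℂ) (Ω : Set ℂ) (F : ℂ → ℂ) (w₀ v : ℂ), 1 ≤ f.natDegree →
  IsOpen Ω → Convex ℝ Ω → DifferentiableOn ℂ F Ω → (∀ w ∈ Ω, F w ∉ CV f) → w₀ ∈ Ω →
  f.eval v = F w₀ → Br f F Ω w₀ v

/-- BDY: a branch that cannot be extended beyond a disc ends at a critical point.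
PROOF. Let `w_b` be a point of the circle. The roots of `f(Y) = F(w_b)` are separated by small disjoint discs; for `w` near `w_b` all roots of `f(Y) = F(w)` are in these discs (continuity of roots; or: `f(Y) - F(w_b)` is bounded below off the discs),
and the convex set `ball a r ∩ ball w_b δ` is mapped by the continuous `h` into one of them: so `h w → y_b` (`w → w_b`), `f(y_b) = F(w_b)`. If `fd f y_b = 0` for some `w_b` we are done. Otherwise at every `w_b` the local inverse of `f` at `y_b` gives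
a holomorphic branch on a ball `ball w_b δ_b` that agrees with `h` on `ball a r ∩ ball w_b δ_b` (LUN; near `w_b` by the injectivity of `f` near `y_b`). Two such balls that meet also meet in a point of `ball a r` (a point of the open chord between the
two centres), so the branches agree on the (convex) intersection (LUN): they glue with `h` to a branch on a neighbourhood of the closed disc, which contains `ball a r'` for some `r' > r` (compactness), `r' ≤ r₁`: contradiction. -/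
def BDY_stmt : Prop := ∀ (f : Polynomial ℂ) (F h : ℂ → ℂ) (a : ℂ) (r r₁ : ℝ), 1 ≤ f.natDegree →
  0 < r → r < r₁ → DifferentiableOn ℂ F (ball a r₁) → DifferentiableOn ℂ h (ball a r) →
  (∀ w ∈ ball a r, f.eval (h w) = F w ∧ fd f (h w) ≠ 0) →
  (∀ r', r < r' → r' ≤ r₁ → ¬ Br f F (ball a r') a (h a)) →
  ∃ ws ys : ℂ, ‖ws - a‖ = r ∧ fd f ys = 0 ∧ Tendsto h (𝓝[ball a r] ws) (𝓝 ys)

/-- PEX: a branch on a ring extends to the disc (here it is used that `f` is a polynomial).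
PROOF. Let `r₁ < r < r'' < r₂`, `C_r` the circle of radius `r` about `a`, and `S z = ∮_{C_r} y(ζ) G'(ζ)/(G(ζ) - z) dζ`, holomorphic off the compact set `G(C_r)`. (1) `S z = 0` for large `‖z‖`: as `G' = f'(y) y'`, `S z = ∮ Φ_z(y(ζ)) y'(ζ) dζ` with
`Φ_z(Y) = Y f'(Y)/(f(Y) - z)`, which for large `‖z‖` is holomorphic on a ball that contains `y(C_r)`, so it has a primitive there and the integral over the closed curve is zero. (2) Let `M = max Re G` on `closedBall a r`, attained at some `w_m`, `‖w_m - a‖ = r`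
(open mapping). `{Re z > M}` and `G({r < ‖w - a‖ < r₂})` are preconnected and open, disjoint from `G(closedBall a r)` (injectivity), and they meet (near `G w_m`: the points `G w_m + t`, `t > 0` small, are in `G(ball w_m ε)` and not in `G(closedBall a r)`).
So `S = 0` on their union `U` by the identity theorem: `∮_{C_r} y G'/(G - G w) = 0` for `r < ‖w - a‖ < r₂`. (3) For `r < ‖w - a‖ < r''` the integrand `ζ ↦ y(ζ) G'(ζ)/(G(ζ) - G(w))` is holomorphic on the ring `r₁ < ‖ζ - a‖ < r₂` except for a simple pole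
at `ζ = w` with residue `y(w)` (`G` is injective, `G'(w) ≠ 0`). So `∮_{C_r''} - ∮_{C_r} = 2πi y(w)` and `ŷ w := (2πi)⁻¹ ∮_{C_r''} y G'/(G - G w) dζ`, which is holomorphic on `ball a r''`, is equal to `y w` there. (For the residue: subtract the function
`(y(w) G'(ζ))/(G(ζ) - G(w))`, whose integrals over `C_r''` and `C_r` are `2πi y(w)` and `0`: `G' /(G - G w) - 1/(ζ - w)` is holomorphic on the disc; the difference has a removable singularity at `w`, and circle integrals of holomorphic functions on a ring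
are equal: `Complex.circleIntegral_sub_center_inv_smul_eq_of_differentiable_on_annulus_off_countable`.) (4) the functions for different `r''` agree; `f(ŷ) = G` on `ball a r₂` by the identity theorem (it holds on the ring). -/
def PEX_stmt : Prop := ∀ (f : Polynomial ℂ) (G y : ℂ → ℂ) (a : ℂ) (r₁ r₂ : ℝ), 1 ≤ f.natDegree →
  0 ≤ r₁ → r₁ < r₂ → DifferentiableOn ℂ G (ball a r₂) → InjOn G (ball a r₂) →
  DifferentiableOn ℂ y {w | r₁ < ‖w - a‖ ∧ ‖w - a‖ < r₂} →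
  (∀ w, r₁ < ‖w - a‖ → ‖w - a‖ < r₂ → f.eval (y w) = G w) →
  ∃ ŷ : ℂ → ℂ, DifferentiableOn ℂ ŷ (ball a r₂) ∧
    (∀ w, r₁ < ‖w - a‖ → ‖w - a‖ < r₂ → ŷ w = y w) ∧ ∀ w ∈ ball a r₂, f.eval (ŷ w) = G w

/-- EVT: comparison of branches near a critical value (replaces `MPS.EVT`).
PROOF. `V = {w ∈ ball ws d | G w ∈ CV f}` is finite with at most `n - 1` elements (`G` injective, PRB). The rings `d 4^{-s-1} < ‖w - ws‖ < d 4^{-s}`, `s = 0, ..., n - 1`, are disjoint: choose `s` with `t = d 4^{-s}` such that the ring `A = {t/4 < ‖w - ws‖ < t}` contains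
no point of `V`. `w₀` has distance `t/2` from `ws`, `ball w₀ (t/2) ⊆ ball a r ∩ ball ws d`, `ball w₀ (t/4) ⊆ A`. Write `w = ws + exp ξ`, `w₀ = ws + exp ξ₀`; on the strip `N = {log(t/4) < Re ξ < log t}` (convex) the function `F ξ = G (ws + exp ξ)` avoids `CV f`:
LIFT gives `Y` with `f(Y ξ) = F ξ`, `Y ξ₀ = h w₀`. Let `y₂ = Y (ξ₀ + 2πi)`.
Claim: `y₂ ≠ h w₀`. Otherwise `Y` is `2πi`-periodic (LUN: `Y(ξ + 2πi) = Y ξ` at `ξ₀`), so `y w = Y (log (w - ws))` is a holomorphic branch on `A`; PEX: it extends to `ŷ` on `ball ws t`,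
`f(ŷ) = G`, `f'(ŷ) ŷ' = G' ≠ 0`, so `fd f (ŷ) ≠ 0` everywhere. `ŷ w₀ = h w₀`, so `ŷ = h` on the convex set `ball a r ∩ ball ws t` (LUN), and `h w → ŷ ws` (`w → ws` in `ball a r`): `ys = ŷ ws`, contradiction to `fd f ys = 0`.
Put `Bf ξ = (deriv Y ξ / exp ξ)² BB b g (Y ξ) = brv f b g G w (Y ξ)` (chain rule `fd f (Y ξ) Y' ξ = G'(w) exp ξ`), holomorphic on `N` (`Y ξ ≠ b m`, else `G w = b (m+1)`). For `p ∈ [ξ₀, ξ₀ + 2πi]`: `ball p (log 2)` is mapped injectively into `{‖w - ws‖ > t/4}` (width `< 2π`), Jacobian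
`≥ t²/16`, and `Y ξ ∈ pre f (G w)`, so `∫ (‖Bf‖ - re Bf) ≤ 16 ν/t²`. `MPS.HCH` from `a = ξ₀ + 2πi` to `z = ξ₀`, `r = log 2`, `m = 19`: `‖brv (h w₀)‖ ≤ 4^19 (‖brv (y₂)‖ + 2·16 ν/(π t² log² 2)) ≤ 4^19 (‖brv w₀ y₂‖ + 22 ν/t²)`.
Finally `y₂(w) = Y(ξ(w) + 2πi)` (`ξ(w)` the branch of the logarithm near `ξ₀`) is a branch on `ball w₀ (t/4)` different from `h` everywhere (LUN), so with `H w = (deriv G w)² BB b g (G w) - brv w (h w) = ∑_{others} brv + G'^2 er(G)` (definition of `er`; `h w` is a simple element of `pre f (G w)`, PRB), holomorphic on `ball w₀ (t/4)`: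
`∫_{ball w₀ (t/4)} ‖brv w (y₂ w)‖ ≤ ∫ ∑_{others} (‖brv‖ - re brv) + re ∫ H + ∫ ‖er‖‖G'‖² ≤ 2ν + π (t²/16) ‖H w₀‖`, and `w ↦ brv w (y₂ w)` is holomorphic: `‖brv w₀ y₂‖ ≤ ‖H w₀‖ + 11 ν/t²`. -/
def EVT_stmt : Prop := ∀ (n k : ℕ) [NeZero k] (f : Polynomial ℂ) (b g : ZMod k → ℂ) (G h : ℂ → ℂ)
  (a ws ys : ℂ) (r d ν : ℝ), 2 ≤ n → f.natDegree = n → IsCyc f b → 0 < d → d ≤ r → 0 ≤ ν →
  ‖ws - a‖ = r → DifferentiableOn ℂ G (ball ws d) → InjOn G (ball ws d) →
  (∀ w ∈ ball ws d, ∀ j, G w ≠ b j) → DifferentiableOn ℂ h (ball a r) →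
  (∀ w ∈ ball a r ∩ ball ws d, f.eval (h w) = G w ∧ fd f (h w) ≠ 0) → fd f ys = 0 →
  Tendsto h (𝓝[ball a r] ws) (𝓝 ys) →
  ∫⁻ w in ball ws d, ENNReal.ofReal
    ((pre f (G w)).map fun y => ‖brv f b g G w y‖ - (brv f b g G w y).re).sum ≤ ENNReal.ofReal ν →
  ∫⁻ w in ball ws d, ENNReal.ofReal (‖er f b g (G w)‖ * ‖deriv G w‖ ^ 2) ≤ ENNReal.ofReal ν →
  ∃ t : ℝ, d / 4 ^ n ≤ t ∧ t ≤ d ∧ ∀ w₀ : ℂ, w₀ = ws + ((t / (2 * r) : ℝ) : ℂ) * (a - ws) →
    ‖brv f b g G w₀ (h w₀)‖ ≤ 4 ^ 21 * (‖deriv G w₀ ^ 2 * BB b g (G w₀) - brv f b g G w₀ (h w₀)‖ +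
      100 * ν / t ^ 2)

end PPS
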