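import Pool.Agent.helper36.PP.SpecA
import Pool.Agent.helper98.MP.EVT
import Pool.Agent.helper25.MP.HAR

/-! pp:EVT -/

set_option autoImplicit false

open Complex Metric Set Filter Topology MeasureTheory MPS

noncomputable section

namespace PPS

/-- upper bound of the real part at the centre by the integral of a majorant. -/
theorem EVT_mean {u : ℂ → ℂ} {P : ℂ → ℝ} {a : ℂ} {r ν : ℝ} (hr : 0 < r) (hν : 0 ≤ ν)
    (hu : DifferentiableOn ℂ u (ball a r)) (hP : ∀ w ∈ ball a r, (u w).re ≤ P w)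
    (hI : ∫⁻ w in ball a r, ENNReal.ofReal (P w) ≤ ENNReal.ofReal ν) :
    Real.pi * r ^ 2 * (u a).re ≤ ν := by
  have key : ∀ ρ, 0 ≤ ρ → ρ < r → Real.pi * ρ ^ 2 * (u a).re ≤ ν := by
    intro ρ h0 h1
    have hcl : closedBall a ρ ⊆ ball a r := closedBall_subset_ball h1
    have hcont : ContinuousOn u (closedBall a ρ) := hu.continuousOn.mono hcl
    have hint : IntegrableOn u (ball a ρ) :=
      (hcont.integrableOn_compact (isCompact_closedBall a ρ)).mono_set ball_subset_closedBall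
    have e1 := HAR_area h0 h1 hu
    have e2 : (∫ z in ball a ρ, u z).re = ∫ z in ball a ρ, (u z).re := by
      have := integral_re (𝕜 := ℂ) hint
      simpa using this.symm
    have e3 : Real.pi * ρ ^ 2 * (u a).re = ∫ z in ball a ρ, (u z).re := by
      rw [← e2, e1, Complex.re_ofReal_mul]
    rw [e3]
    have hintr : IntegrableOn (fun z => (u z).re) (ball a ρ) := hint.re
    have e4 : ∫ z in ball a ρ, (u z).re ≤ ∫ z in ball a ρ, max (u z).re 0 := by
      refine setIntegral_mono hintr ?_ fun z => le_max_left _ _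
      exact hintr.pos_part
    refine e4.trans ?_
    have hpp : IntegrableOn (fun z => max (u z).re 0) (ball a ρ) := hintr.pos_part
    rw [integral_eq_lintegral_of_nonneg_ae (f := fun z => max (u z).re 0)
      (Eventually.of_forall fun z => le_max_right _ _) hpp.aestronglyMeasurable]
    refine ENNReal.toReal_le_of_le_ofReal hν (le_trans ?_ hI)
    calc ∫⁻ z in ball a ρ, ENNReal.ofReal (max (u z).re 0)
        ≤ ∫⁻ z in ball a ρ, ENNReal.ofReal (P z) := by
          refine setLIntegral_mono' measurableSet_ball fun z hz => ?_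
          have h3 := hP z (ball_subset_ball h1.le hz)
          rcases le_total (u z).re 0 with h4 | h4
          · rw [max_eq_right h4]
            simp
          · rw [max_eq_left h4]
            exact ENNReal.ofReal_le_ofReal h3
      _ ≤ ∫⁻ z in ball a r, ENNReal.ofReal (P z) := lintegral_mono_set (ball_subset_ball h1.le)
  have hlim : Tendsto (fun ρ : ℝ => Real.pi * ρ ^ 2 * (u a).re) (𝓝[<] r)
      (𝓝 (Real.pi * r ^ 2 * (u a).re)) := by
    have hc : Continuous fun ρ : ℝ => Real.pi * ρ ^ 2 * (u a).re := by fun_prop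
    exact (hc.tendsto r).mono_left nhdsWithin_le_nhds
  refine le_of_tendsto hlim ?_
  have h1 : ∀ᶠ ρ in 𝓝[<] r, 0 < ρ := (lt_mem_nhds hr).filter_mono nhdsWithin_le_nhds
  filter_upwards [h1, self_mem_nhdsWithin] with ρ h2 h3
  exact key ρ h2.le h3

/-- one of `n` dyadic rings contains no critical value. -/
theorem EVT_ring (hPRB : PRB_stmt) (f : Polynomial ℂ) (n : ℕ) (hn : 2 ≤ n) (hdeg : f.natDegree = n)
    (G : ℂ → ℂ) (ws : ℂ) (d : ℝ) (hd : 0 < d) (hinj : InjOn G (ball ws d)) :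
    ∃ t : ℝ, d / 4 ^ n ≤ t ∧ t ≤ d ∧ 0 < t ∧ ∀ w, t / 4 < ‖w - ws‖ → ‖w - ws‖ < t → G w ∉ CV f := by
  by_contra hcon
  push Not at hcon
  have h1 : ∀ s : Fin n, ∃ w, d / 4 ^ ((s : ℕ) + 1) < ‖w - ws‖ ∧ ‖w - ws‖ < d / 4 ^ (s : ℕ) ∧
      G w ∈ CV f := by
    intro s
    have h4 : (1 : ℝ) ≤ 4 ^ (s : ℕ) := one_le_pow₀ (by norm_num)
    obtain ⟨w, hw1, hw2, hw3⟩ := hcon (d / 4 ^ (s : ℕ))
      (div_le_div_of_nonneg_left hd.le (by positivity) (pow_le_pow_right₀ (by norm_num) s.2.le))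
      (div_le_self hd.le h4) (by positivity)
    refine ⟨w, ?_, hw2, hw3⟩
    rw [pow_succ, ← div_div]
    exact hw1
  choose w hw1 hw2 hw3 using h1
  have hwd : ∀ s, w s ∈ ball ws d := by
    intro s
    rw [mem_ball, dist_eq_norm]
    exact (hw2 s).trans_le (div_le_self hd.le (one_le_pow₀ (by norm_num)))
  have hwinj : Function.Injective w := by
    intro s s' he
    by_contra hne
    rcases lt_or_gt_of_ne hne with h | h
    · have h2 := hw1 s
      have h3 := hw2 s'
      rw [← he] at h3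
      have h4 : d / 4 ^ (s' : ℕ) ≤ d / 4 ^ ((s : ℕ) + 1) :=
        div_le_div_of_nonneg_left hd.le (by positivity) (pow_le_pow_right₀ (by norm_num) h)
      linarith
    · have h2 := hw1 s'
      have h3 := hw2 s
      rw [he] at h3
      have h4 : d / 4 ^ (s : ℕ) ≤ d / 4 ^ ((s' : ℕ) + 1) :=
        div_le_div_of_nonneg_left hd.le (by positivity) (pow_le_pow_right₀ (by norm_num) h)
      linarith
  have hGinj : Function.Injective fun s => G (w s) := fun s s' he => hwinj (hinj (hwd s) (hwd s') he)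
  obtain ⟨-, -, -, -, hfin, hcard⟩ := hPRB f (by omega)
  have h5 : n ≤ (CV f).ncard := by
    have h6 : (Set.range fun s => G (w s)) ⊆ CV f := by
      rintro _ ⟨s, rfl⟩
      exact hw3 s
    have h7 := Set.ncard_le_ncard h6 hfin
    rwa [← Set.image_univ, Set.ncard_image_of_injective _ hGinj, Set.ncard_univ, Nat.card_fin] at h7
  omega

/-- change of variables. -/
theorem EVT_cov (ws p : ℂ) (d ν : ℝ) (hd : 0 < d)
    (hp : p.re = Real.log (d / 2)) (B : ℂ → ℂ) (F : ℂ → ℝ)
    (hF : ∀ ξ : ℂ, Real.log (d / 4) < ξ.re → ξ.re < Real.log d →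
      ‖B ξ‖ - (B ξ).re ≤ F (ws + Complex.exp ξ))
    (hFi : ∫⁻ w in ball ws d, ENNReal.ofReal (F w) ≤ ENNReal.ofReal ν) :
    ∫⁻ ξ in ball p (Real.log 2), ENNReal.ofReal (‖B ξ‖ - (B ξ).re) ≤
      ENNReal.ofReal (16 * ν / d ^ 2) := by
  have hlog2 : 0 < Real.log 2 := Real.log_pos (by norm_num)
  have hre : ∀ ξ ∈ ball p (Real.log 2), ξ.re < Real.log d ∧ Real.log (d / 4) < ξ.re := by
    intro ξ hξ
    have h1 : |ξ.re - p.re| < Real.log 2 := by
      have h2 := Complex.abs_re_le_norm (ξ - p)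
      rw [Complex.sub_re] at h2
      rw [mem_ball, dist_eq_norm] at hξ
      linarith
    rw [hp, abs_lt] at h1
    rw [Real.log_div hd.ne' (by norm_num)] at h1
    have h4 : Real.log (d / 4) = Real.log d - 2 * Real.log 2 := by
      rw [Real.log_div hd.ne' (by norm_num), show (4 : ℝ) = 2 ^ 2 by norm_num, Real.log_pow]
      push_cast
      ring
    rw [h4]
    constructor <;> linarith [h1.1, h1.2]
  set s := ball p (Real.log 2) with hs
  set W : ℂ → ℂ := fun ξ => ws + Complex.exp ξ with hW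
  have hder : ∀ ξ : ℂ, HasDerivAt W (Complex.exp ξ) ξ := fun ξ => (Complex.hasDerivAt_exp ξ).const_add ws
  have hfd : ∀ ξ ∈ s, HasFDerivWithinAt W
      ((ContinuousLinearMap.toSpanSingleton ℂ (Complex.exp ξ)).restrictScalars ℝ : ℂ →L[ℝ] ℂ)
      s ξ := fun ξ _ => ((hder ξ).hasFDerivAt.restrictScalars ℝ).hasFDerivWithinAt
  have hinj : InjOn W s := by
    intro ξ hξ ξ' hξ' he
    have he' : Complex.exp ξ = Complex.exp ξ' := add_left_cancel he
    rw [Complex.exp_eq_exp_iff_exists_int] at he'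
    obtain ⟨k, hk⟩ := he'
    have him := congrArg Complex.im hk
    have e2 : (ξ' + k * (2 * Real.pi * I)).im = ξ'.im + k * (2 * Real.pi) := by simp
    rw [e2] at him
    have h1 : |ξ.im - p.im| < Real.log 2 := by
      have h2 := Complex.abs_im_le_norm (ξ - p)
      rw [Complex.sub_im] at h2
      rw [hs, mem_ball, dist_eq_norm] at hξ
      linarith
    have h2 : |ξ'.im - p.im| < Real.log 2 := by
      have h2 := Complex.abs_im_le_norm (ξ' - p)
      rw [Complex.sub_im] at h2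
      rw [hs, mem_ball, dist_eq_norm] at hξ'
      linarith
    have h4 : |(k : ℝ) * (2 * Real.pi)| < 2 * Real.log 2 := by
      have h5 : (k : ℝ) * (2 * Real.pi) = (ξ.im - p.im) - (ξ'.im - p.im) := by linarith
      rw [h5]
      have h6 := abs_sub (ξ.im - p.im) (ξ'.im - p.im)
      linarith
    have h5 : Real.log 2 < 1 := by
      have := Real.log_two_lt_d9
      linarith
    have h6 : k = 0 := by
      by_contra hk0
      have h7 : (1 : ℝ) ≤ |(k : ℝ)| := by
        have := Int.one_le_abs hk0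
        exact_mod_cast this
      rw [abs_mul, abs_of_pos Real.two_pi_pos] at h4
      have h8 := Real.pi_gt_three
      nlinarith
    rw [h6] at hk
    rw [hk]
    simp
  have hmaps : W '' s ⊆ ball ws d := by
    rintro _ ⟨ξ, hξ, rfl⟩
    rw [mem_ball, dist_eq_norm]
    show ‖ws + Complex.exp ξ - ws‖ < d
    rw [add_sub_cancel_left, Complex.norm_exp]
    exact (Real.lt_log_iff_exp_lt hd).1 (hre ξ hξ).1
  have hc0 : (0 : ℝ) ≤ 16 / d ^ 2 := by positivity
  calc ∫⁻ ξ in s, ENNReal.ofReal (‖B ξ‖ - (B ξ).re)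
      ≤ ∫⁻ ξ in s, ENNReal.ofReal (16 / d ^ 2) *
        (ENNReal.ofReal |((ContinuousLinearMap.toSpanSingleton ℂ
          (Complex.exp ξ)).restrictScalars ℝ : ℂ →L[ℝ] ℂ).det| *
          ENNReal.ofReal (F (W ξ))) := by
        refine setLIntegral_mono' isOpen_ball.measurableSet fun ξ hξ => ?_
        rw [Pool.Agent.helper98.ILF.det_smul, abs_of_nonneg (by positivity),
          ← ENNReal.ofReal_mul (by positivity), ← ENNReal.ofReal_mul hc0]
        apply ENNReal.ofReal_le_ofReal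
        obtain ⟨h1, h2⟩ := hre ξ hξ
        have h3 := hF ξ h2 h1
        have h4 : (0 : ℝ) ≤ ‖B ξ‖ - (B ξ).re := sub_nonneg.2 (Complex.re_le_norm _)
        have h5 : d / 4 ≤ ‖Complex.exp ξ‖ := by
          rw [Complex.norm_exp, ← Real.log_le_iff_le_exp (by positivity)]
          exact h2.le
        have h6 : 1 ≤ 16 / d ^ 2 * ‖Complex.exp ξ‖ ^ 2 := by
          have h7 : (d / 4) ^ 2 ≤ ‖Complex.exp ξ‖ ^ 2 :=
            pow_le_pow_left₀ (by positivity) h5 2
          have h8 : 16 / d ^ 2 * (d / 4) ^ 2 = 1 := by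
            field_simp
            norm_num
          rw [← h8]
          exact mul_le_mul_of_nonneg_left h7 hc0
        calc ‖B ξ‖ - (B ξ).re ≤ F (W ξ) := h3
          _ = 1 * F (W ξ) := (one_mul _).symm
          _ ≤ 16 / d ^ 2 * ‖Complex.exp ξ‖ ^ 2 * F (W ξ) :=
            mul_le_mul_of_nonneg_right h6 (h4.trans h3)
          _ = _ := by ring
    _ = ENNReal.ofReal (16 / d ^ 2) * ∫⁻ w in W '' s, ENNReal.ofReal (F w) := by
        rw [lintegral_const_mul' _ _ ENNReal.ofReal_ne_top]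
        congr 1
        exact (lintegral_image_eq_lintegral_abs_det_fderiv_mul volume isOpen_ball.measurableSet hfd
          hinj (fun w => ENNReal.ofReal (F w))).symm
    _ ≤ ENNReal.ofReal (16 / d ^ 2) * ENNReal.ofReal ν := by
        gcongr
        exact (lintegral_mono_set hmaps).trans hFi
    _ = ENNReal.ofReal (16 * ν / d ^ 2) := by
        rw [← ENNReal.ofReal_mul hc0]
        congr 1
        ring

theorem EVT_BBd {k : ℕ} [NeZero k] (b g : ZMod k → ℂ) {Y : ℂ → ℂ} {ξ : ℂ}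
    (hY : DifferentiableAt ℂ Y ξ) (hb : ∀ i, Y ξ ≠ b i) :
    DifferentiableAt ℂ (fun ξ => BB b g (Y ξ)) ξ := by
  unfold BB
  refine DifferentiableAt.fun_sum fun i _ => ?_
  have h1 : Y ξ - b i ≠ 0 := sub_ne_zero.2 (hb i)
  have h2 : DifferentiableAt ℂ (fun ξ => Y ξ - b i) ξ := hY.sub_const _
  exact ((differentiableAt_const _).div (h2.pow 2) (pow_ne_zero 2 h1)).add
    ((differentiableAt_const _).div h2 h1)

/-- the branch continued once around the ring comes back different. -/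
theorem EVT_mono (hLUN : LUN_stmt) (hPEX : PEX_stmt) (f : Polynomial ℂ) (hf : 1 ≤ f.natDegree)
    (G h : ℂ → ℂ) (a ws ys w₀ ξ₀ : ℂ) (r t : ℝ) (ht : 0 < t) (htr : t ≤ r) (hwsa : ‖ws - a‖ = r)
    (hG : DifferentiableOn ℂ G (ball ws t)) (hinj : InjOn G (ball ws t))
    (hh : DifferentiableOn ℂ h (ball a r))
    (hrel : ∀ w ∈ ball a r ∩ ball ws t, f.eval (h w) = G w ∧ fd f (h w) ≠ 0)
    (hys : fd f ys = 0) (hlim : Tendsto h (𝓝[ball a r] ws) (𝓝 ys))
    (hw₀ : w₀ ∈ ball a r ∩ ball ws t) (hw₀t : t / 4 < ‖w₀ - ws‖) (hξ₀ : ws + Complex.exp ξ₀ = w₀)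
    (Y : ℂ → ℂ) (hY : DifferentiableOn ℂ Y {ξ : ℂ | Real.log (t / 4) < ξ.re ∧ ξ.re < Real.log t})
    (hYr : ∀ ξ : ℂ, Real.log (t / 4) < ξ.re → ξ.re < Real.log t →
      f.eval (Y ξ) = G (ws + Complex.exp ξ) ∧ fd f (Y ξ) ≠ 0)
    (hY0 : Y ξ₀ = h w₀) : Y (ξ₀ + 2 * Real.pi * I) ≠ h w₀ := by
  intro hcon
  set N : Set ℂ := {ξ : ℂ | Real.log (t / 4) < ξ.re ∧ ξ.re < Real.log t} with hN
  have hNo : IsOpen N :=
    (isOpen_lt continuous_const Complex.continuous_re).inter
      (isOpen_lt Complex.continuous_re continuous_const)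
  have hNc : Convex ℝ N := (convex_halfSpace_re_gt _).inter (convex_halfSpace_re_lt _)
  have hshift : ∀ (ξ : ℂ) (m : ℤ), (ξ + m * (2 * Real.pi * I)).re = ξ.re := by
    intro ξ m
    simp
  have hexp : ∀ (ξ : ℂ) (m : ℤ), Complex.exp (ξ + m * (2 * Real.pi * I)) = Complex.exp ξ := by
    intro ξ m
    exact Complex.exp_periodic.int_mul m ξ
  have hlog : ∀ w, t / 4 < ‖w - ws‖ → ‖w - ws‖ < t → Complex.log (w - ws) ∈ N ∧
      ws + Complex.exp (Complex.log (w - ws)) = w := by
    intro w h1 h2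
    have h0 : w - ws ≠ 0 := by
      intro h
      rw [h, norm_zero] at h1
      linarith
    refine ⟨⟨?_, ?_⟩, ?_⟩
    · rw [Complex.log_re]; exact Real.log_lt_log (by positivity) h1
    · rw [Complex.log_re]; exact Real.log_lt_log ((by positivity : (0:ℝ) < t / 4).trans h1) h2
    · rw [Complex.exp_log h0]; ring
  have hw₀n : ‖w₀ - ws‖ < t := by
    have := hw₀.2
    rwa [mem_ball, dist_eq_norm] at this
  have hξ₀N : ξ₀ ∈ N := by
    have e1 : ‖w₀ - ws‖ = Real.exp ξ₀.re := by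
      rw [← hξ₀, add_sub_cancel_left, Complex.norm_exp]
    rw [e1] at hw₀t hw₀n
    exact ⟨(Real.log_lt_iff_lt_exp (by positivity)).2 hw₀t, (Real.lt_log_iff_exp_lt ht).2 hw₀n⟩
  -- periodicity
  have hper1 : ∀ ξ ∈ N, Y (ξ + 2 * Real.pi * I) = Y ξ := by
    have hsh : ∀ ξ : ℂ, (ξ + 2 * Real.pi * I).re = ξ.re := by intro ξ; simp
    have hex : ∀ ξ : ℂ, Complex.exp (ξ + 2 * Real.pi * I) = Complex.exp ξ := Complex.exp_periodic
    have hm : MapsTo (fun ξ : ℂ => ξ + 2 * Real.pi * I) N N := by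
      intro ξ hξ
      show Real.log (t / 4) < (ξ + 2 * Real.pi * I).re ∧ (ξ + 2 * Real.pi * I).re < Real.log t
      rw [hsh]
      exact hξ
    have hd : DifferentiableOn ℂ (fun ξ => Y (ξ + 2 * Real.pi * I)) N :=
      hY.comp (differentiable_id.add_const _).differentiableOn hm
    refine hLUN f N (fun ξ => Y (ξ + 2 * Real.pi * I)) Y ξ₀ hNo hNc.isPreconnected hd.continuousOn
      hY.continuousOn ?_ ?_ hξ₀N (hcon.trans hY0.symm)
    · intro ξ hξ
      show f.eval (Y (ξ + 2 * Real.pi * I)) = f.eval (Y ξ)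
      rw [(hYr _ (hm hξ).1 (hm hξ).2).1, (hYr ξ hξ.1 hξ.2).1, hex]
    · intro ξ hξ
      exact (hYr _ (hm hξ).1 (hm hξ).2).2
  have hperN : ∀ (m : ℕ), ∀ ξ ∈ N, Y (ξ + m * (2 * Real.pi * I)) = Y ξ := by
    intro m
    induction m with
    | zero => intro ξ _; simp
    | succ m ih =>
      intro ξ hξ
      have e1 : ξ + ((m + 1 : ℕ) : ℂ) * (2 * Real.pi * I) =
          (ξ + m * (2 * Real.pi * I)) + 2 * Real.pi * I := by push_cast; ring
      have e2 : ξ + m * (2 * Real.pi * I) ∈ N := by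
        have e3 : (ξ + m * (2 * Real.pi * I)).re = ξ.re := by simp
        show _ < (ξ + m * (2 * Real.pi * I)).re ∧ (ξ + m * (2 * Real.pi * I)).re < _
        rw [e3]
        exact hξ
      rw [e1, hper1 _ e2, ih ξ hξ]
  have hper : ∀ (m : ℤ), ∀ ξ ∈ N, Y (ξ + m * (2 * Real.pi * I)) = Y ξ := by
    intro m ξ hξ
    obtain ⟨j, hj | hj⟩ := m.eq_nat_or_neg
    · rw [hj]
      exact_mod_cast hperN j ξ hξ
    · have e2 : ξ + m * (2 * Real.pi * I) ∈ N := by
        show _ < (ξ + m * (2 * Real.pi * I)).re ∧ (ξ + m * (2 * Real.pi * I)).re < _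
        rw [hshift]
        exact hξ
      have e3 := hperN j _ e2
      rw [← e3, hj]
      congr 1
      push_cast
      ring
  have hpereq : ∀ ξ ∈ N, ∀ ξ' ∈ N, Complex.exp ξ = Complex.exp ξ' → Y ξ = Y ξ' := by
    intro ξ hξ ξ' hξ' he
    obtain ⟨m, hm⟩ := Complex.exp_eq_exp_iff_exists_int.1 he
    rw [hm]
    exact hper m ξ' hξ'
  -- the branch on the ring
  set y : ℂ → ℂ := fun w => Y (Complex.log (w - ws)) with hy
  have hyd : DifferentiableOn ℂ y {w | t / 4 < ‖w - ws‖ ∧ ‖w - ws‖ < t} := by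
    rintro w ⟨h1, h2⟩
    refine DifferentiableAt.differentiableWithinAt ?_
    have h0 : w - ws ≠ 0 := by
      intro h
      rw [h, norm_zero] at h1
      linarith
    obtain ⟨hl1, hl2⟩ := hlog w h1 h2
    set l : ℂ := Complex.log (w - ws) with hl
    have e1 : DifferentiableAt ℂ (fun w' : ℂ => l + Complex.log ((w' - ws) / (w - ws))) w := by
      refine DifferentiableAt.const_add _ ?_
      refine DifferentiableAt.clog ?_ ?_
      · exact (differentiableAt_id.sub_const _).div_const _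
      · show (w - ws) / (w - ws) ∈ Complex.slitPlane
        rw [div_self h0]
        exact Complex.one_mem_slitPlane
    have e2 : l + Complex.log ((w - ws) / (w - ws)) = l := by
      rw [div_self h0, Complex.log_one, add_zero]
    have e3 : DifferentiableAt ℂ (fun w' : ℂ => Y (l + Complex.log ((w' - ws) / (w - ws)))) w := by
      have e4 : DifferentiableAt ℂ Y (l + Complex.log ((w - ws) / (w - ws))) := by
        rw [e2]
        exact hY.differentiableAt (hNo.mem_nhds hl1)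
      exact e4.comp w e1
    refine e3.congr_of_eventuallyEq ?_
    have a1 : ∀ᶠ w' in 𝓝 w, l + Complex.log ((w' - ws) / (w - ws)) ∈ N := by
      have := e1.continuousAt
      refine this.eventually ?_
      show ∀ᶠ z in 𝓝 (l + Complex.log ((w - ws) / (w - ws))), z ∈ N
      rw [e2]
      exact hNo.mem_nhds hl1
    have hcn : Continuous fun w' : ℂ => ‖w' - ws‖ := (continuous_id.sub continuous_const).norm
    have a2 : ∀ᶠ w' in 𝓝 w, t / 4 < ‖w' - ws‖ := hcn.continuousAt.eventually (lt_mem_nhds h1)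
    have a3 : ∀ᶠ w' in 𝓝 w, ‖w' - ws‖ < t := hcn.continuousAt.eventually (gt_mem_nhds h2)
    filter_upwards [a1, a2, a3] with w' b1 b2 b3
    refine hpereq _ (hlog w' b2 b3).1 _ b1 ?_
    have h0' : w' - ws ≠ 0 := by
      intro h
      rw [h, norm_zero] at b2
      linarith
    rw [Complex.exp_log h0', Complex.exp_add, Complex.exp_log (div_ne_zero h0' h0), hl,
      Complex.exp_log h0, mul_div_cancel₀ _ h0]
  have hyr : ∀ w, t / 4 < ‖w - ws‖ → ‖w - ws‖ < t → f.eval (y w) = G w := by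
    intro w h1 h2
    obtain ⟨hl1, hl2⟩ := hlog w h1 h2
    show f.eval (Y (Complex.log (w - ws))) = G w
    rw [(hYr _ hl1.1 hl1.2).1, hl2]
  obtain ⟨Z, hZd, hZy, hZr⟩ := hPEX f G y ws (t / 4) t hf (by positivity) (by linarith) hG hinj hyd hyr
  have hZ0 : ∀ w ∈ ball ws t, fd f (Z w) ≠ 0 := by
    intro w hw h0
    have e1 : HasDerivAt (fun w => f.eval (Z w)) (f.derivative.eval (Z w) * deriv Z w) w :=
      (f.hasDerivAt (Z w)).comp w (hZd.differentiableAt (isOpen_ball.mem_nhds hw)).hasDerivAt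
    have e2 : G =ᶠ[𝓝 w] fun w => f.eval (Z w) := by
      filter_upwards [isOpen_ball.mem_nhds hw] with v hv
      exact (hZr v hv).symm
    have e3 : deriv G w = 0 := by
      rw [e2.deriv_eq, e1.deriv]
      have : f.derivative.eval (Z w) = 0 := h0
      rw [this, zero_mul]
    obtain ⟨e, he, hsub⟩ := Metric.isOpen_iff.1 isOpen_ball w hw
    exact EVT_deriv he (hG.mono hsub) (hinj.mono hsub) e3
  have hagree : EqOn Z h (ball a r ∩ ball ws t) := by
    refine hLUN f _ Z h w₀ (isOpen_ball.inter isOpen_ball)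
      ((convex_ball a r).inter (convex_ball ws t)).isPreconnected
      (hZd.continuousOn.mono inter_subset_right) (hh.continuousOn.mono inter_subset_left) ?_ ?_ hw₀ ?_
    · intro w hw
      rw [hZr w hw.2, (hrel w hw).1]
    · intro w hw
      exact hZ0 w hw.2
    · rw [hZy w₀ hw₀t hw₀n, ← hY0]
      obtain ⟨hl1, hl2⟩ := hlog w₀ hw₀t hw₀n
      refine hpereq _ hl1 _ hξ₀N ?_
      exact add_left_cancel (hl2.trans hξ₀.symm)
  have hws : ws ∈ ball ws t := mem_ball_self ht
  have hlim2 : Tendsto h (𝓝[ball a r] ws) (𝓝 (Z ws)) := by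
    have e1 : Tendsto Z (𝓝[ball a r] ws) (𝓝 (Z ws)) :=
      ((hZd.differentiableAt (isOpen_ball.mem_nhds hws)).continuousAt).mono_left nhdsWithin_le_nhds
    refine e1.congr' ?_
    filter_upwards [self_mem_nhdsWithin, nhdsWithin_le_nhds (isOpen_ball.mem_nhds hws)] with w h1 h2
    exact hagree ⟨h1, h2⟩
  have hr : r ≠ 0 := by linarith
  have hne : (𝓝[ball a r] ws).NeBot := by
    rw [← mem_closure_iff_nhdsWithin_neBot, closure_ball a hr, mem_closedBall, dist_eq_norm, hwsa]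
  have := tendsto_nhds_unique hlim hlim2
  rw [this] at hys
  exact hZ0 ws hws hys

/-- sums over multisets. -/
theorem EVT_ms (φ : ℂ → ℂ) (m : Multiset ℂ) :
    -((m.map φ).sum).re ≤ (m.map fun y => ‖φ y‖ - (φ y).re).sum := by
  induction m using Multiset.induction_on with
  | empty => simp
  | cons a s ih =>
    rw [Multiset.map_cons, Multiset.map_cons, Multiset.sum_cons, Multiset.sum_cons, Complex.add_re]
    have := norm_nonneg (φ a)
    linarith

theorem EVT_ms0 (φ : ℂ → ℂ) (m : Multiset ℂ) :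
    0 ≤ (m.map fun y => ‖φ y‖ - (φ y).re).sum := by
  refine Multiset.sum_nonneg fun x hx => ?_
  obtain ⟨y, -, rfl⟩ := Multiset.mem_map.1 hx
  exact sub_nonneg.2 (Complex.re_le_norm _)

theorem EVT_single (φ : ℂ → ℂ) (m : Multiset ℂ) {y : ℂ} (hy : y ∈ m) :
    ‖φ y‖ - (φ y).re ≤ (m.map fun y => ‖φ y‖ - (φ y).re).sum := by
  refine Multiset.single_le_sum ?_ _ (Multiset.mem_map_of_mem (fun y => ‖φ y‖ - (φ y).re) hy)
  intro x hx
  obtain ⟨y, -, rfl⟩ := Multiset.mem_map.1 hx
  exact sub_nonneg.2 (Complex.re_le_norm _)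

/-- the comparison of `H` with the second branch, at a point. -/
theorem EVT_pt (hPRB : PRB_stmt) {k : ℕ} [NeZero k] (f : Polynomial ℂ) (hf : 1 ≤ f.natDegree)
    (b g : ZMod k → ℂ) (G : ℂ → ℂ) (w y₁ y₂ : ℂ) (h1 : f.eval y₁ = G w) (h2 : f.eval y₂ = G w)
    (h12 : y₂ ≠ y₁) :
    ‖brv f b g G w y₂‖ - (deriv G w ^ 2 * BB b g (G w) - brv f b g G w y₁).re ≤
      ((pre f (G w)).map fun y => ‖brv f b g G w y‖ - (brv f b g G w y).re).sum +
        ‖er f b g (G w)‖ * ‖deriv G w‖ ^ 2 := by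
  have hm1 : y₁ ∈ pre f (G w) := ((hPRB f hf).1 _ _).2 h1
  have hm2 : y₂ ∈ pre f (G w) := ((hPRB f hf).1 _ _).2 h2
  obtain ⟨m₁, hm₁⟩ := Multiset.exists_cons_of_mem hm1
  have hm3 : y₂ ∈ m₁ := by
    rw [hm₁] at hm2
    exact (Multiset.mem_cons.1 hm2).resolve_left h12
  obtain ⟨m₂, hm₂⟩ := Multiset.exists_cons_of_mem hm3
  have e1 : deriv G w ^ 2 * TT f (BB b g) (G w) = ((pre f (G w)).map fun y => brv f b g G w y).sum := by
    unfold TT brv
    rw [← Multiset.sum_map_mul_left]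
    congr 1
    refine Multiset.map_congr rfl fun y _ => ?_
    rw [div_pow]
    ring
  have e2 : deriv G w ^ 2 * BB b g (G w) =
      deriv G w ^ 2 * er f b g (G w) + deriv G w ^ 2 * TT f (BB b g) (G w) := by
    unfold er
    ring
  have e3 : ((pre f (G w)).map fun y => brv f b g G w y).sum =
      brv f b g G w y₁ + (brv f b g G w y₂ + (m₂.map fun y => brv f b g G w y).sum) := by
    rw [hm₁, hm₂, Multiset.map_cons, Multiset.map_cons, Multiset.sum_cons, Multiset.sum_cons]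
  have e4 : ((pre f (G w)).map fun y => ‖brv f b g G w y‖ - (brv f b g G w y).re).sum =
      (‖brv f b g G w y₁‖ - (brv f b g G w y₁).re) + ((‖brv f b g G w y₂‖ - (brv f b g G w y₂).re) +
        (m₂.map fun y => ‖brv f b g G w y‖ - (brv f b g G w y).re).sum) := by
    rw [hm₁, hm₂, Multiset.map_cons, Multiset.map_cons, Multiset.sum_cons, Multiset.sum_cons]
  have e5 : deriv G w ^ 2 * BB b g (G w) - brv f b g G w y₁ =
      deriv G w ^ 2 * er f b g (G w) + (brv f b g G w y₂ + (m₂.map fun y => brv f b g G w y).sum) := by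
    rw [e2, e1, e3]
    ring
  rw [e5, e4, Complex.add_re, Complex.add_re]
  have e6 := EVT_ms (fun y => brv f b g G w y) m₂
  have e7 : 0 ≤ ‖brv f b g G w y₁‖ - (brv f b g G w y₁).re := sub_nonneg.2 (Complex.re_le_norm _)
  have e8 : -(deriv G w ^ 2 * er f b g (G w)).re ≤ ‖er f b g (G w)‖ * ‖deriv G w‖ ^ 2 := by
    have := Complex.re_le_norm (-(deriv G w ^ 2 * er f b g (G w)))
    rw [Complex.neg_re, norm_neg, norm_mul, norm_pow] at this
    linarith [mul_comm (‖er f b g (G w)‖) (‖deriv G w‖ ^ 2)]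
  linarith

theorem EVT (hPRB : PRB_stmt) (hMI : MI_stmt) (hLUN : LUN_stmt) (hPEX : PEX_stmt) (hLIFT : LIFT_stmt)
    (hHCH : MPS.HCH_stmt) : EVT_stmt := by
  intro n k _ f b g G h a ws ys r d ν hn hdeg hcyc hd hdr hν hwsa hG hinj hGb hh hrel hys hlim hint hier
  obtain ⟨t, ht1, ht2, ht0, hring⟩ := EVT_ring hPRB f n hn hdeg G ws d hd hinj
  refine ⟨t, ht1, ht2, ?_⟩
  intro w₀ hw₀
  have hf1 : 1 ≤ f.natDegree := by omega
  have hr : 0 < r := hd.trans_le hdr
  have htr : t ≤ r := ht2.trans hdr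
  have htsub : ball ws t ⊆ ball ws d := ball_subset_ball ht2
  have hcoef : 0 < t / (2 * r) := by positivity
  have hcoef1 : t / (2 * r) ≤ 1 / 2 := by
    rw [div_le_div_iff₀ (by positivity) (by norm_num)]
    linarith
  have hwn : ‖w₀ - ws‖ = t / 2 := by
    rw [hw₀, add_sub_cancel_left, norm_mul, Complex.norm_real, Real.norm_of_nonneg hcoef.le,
      norm_sub_rev, hwsa]
    field_simp
  have hwa : ‖w₀ - a‖ = r - t / 2 := by
    have e1 : w₀ - a = ((1 - t / (2 * r) : ℝ) : ℂ) * (ws - a) := by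
      rw [hw₀]
      push_cast
      ring
    rw [e1, norm_mul, Complex.norm_real, Real.norm_of_nonneg (by linarith), hwsa]
    field_simp
  have hb1 : ball w₀ (t / 2) ⊆ ball a r := by
    refine ball_subset_ball' ?_
    rw [dist_eq_norm, hwa]
    linarith
  have hb2 : ball w₀ (t / 2) ⊆ ball ws t := by
    refine ball_subset_ball' ?_
    rw [dist_eq_norm, hwn]
    linarith
  have hw₀b : w₀ ∈ ball w₀ (t / 2) := mem_ball_self (by positivity)
  have hw₀s : w₀ ∈ ball a r ∩ ball ws t := ⟨hb1 hw₀b, hb2 hw₀b⟩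
  have h4w : ∀ w ∈ ball w₀ (t / 4), t / 4 < ‖w - ws‖ ∧ ‖w - ws‖ < t := by
    intro w hw
    rw [mem_ball, dist_eq_norm] at hw
    have e1 := norm_sub_norm_le (w₀ - ws) (w₀ - w)
    have e2 : (w₀ - ws) - (w₀ - w) = w - ws := by ring
    rw [e2, hwn, norm_sub_rev w₀ w] at e1
    have e3 := norm_add_le (w - w₀) (w₀ - ws)
    rw [sub_add_sub_cancel, hwn] at e3
    constructor <;> linarith
  -- strip
  set N : Set ℂ := {ξ : ℂ | Real.log (t / 4) < ξ.re ∧ ξ.re < Real.log t} with hN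
  have hNo : IsOpen N :=
    (isOpen_lt continuous_const Complex.continuous_re).inter
      (isOpen_lt Complex.continuous_re continuous_const)
  have hNc : Convex ℝ N := (convex_halfSpace_re_gt _).inter (convex_halfSpace_re_lt _)
  have hNW : ∀ ξ ∈ N, t / 4 < ‖(ws + Complex.exp ξ) - ws‖ ∧ ‖(ws + Complex.exp ξ) - ws‖ < t := by
    intro ξ hξ
    rw [add_sub_cancel_left, Complex.norm_exp]
    exact ⟨(Real.log_lt_iff_lt_exp (by positivity)).1 hξ.1, (Real.lt_log_iff_exp_lt ht0).1 hξ.2⟩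
  have hNB : ∀ ξ ∈ N, ws + Complex.exp ξ ∈ ball ws t := by
    intro ξ hξ
    rw [mem_ball, dist_eq_norm]
    exact (hNW ξ hξ).2
  have hWd : Differentiable ℂ fun ξ : ℂ => ws + Complex.exp ξ := by fun_prop
  have hFd : DifferentiableOn ℂ (fun ξ => G (ws + Complex.exp ξ)) N :=
    (hG.mono htsub).comp hWd.differentiableOn hNB
  have hw₀0 : w₀ - ws ≠ 0 := by
    intro h0
    rw [h0, norm_zero] at hwn
    linarith
  set ξ₀ : ℂ := Complex.log (w₀ - ws) with hξ₀
  have hexp0 : Complex.exp ξ₀ = w₀ - ws := Complex.exp_log hw₀0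
  have hξ₀w : ws + Complex.exp ξ₀ = w₀ := by rw [hexp0]; ring
  have hξ₀re : ξ₀.re = Real.log (t / 2) := by rw [hξ₀, Complex.log_re, hwn]
  have hξ₀N : ξ₀ ∈ N := by
    constructor
    · rw [hξ₀re]; exact Real.log_lt_log (by positivity) (by linarith)
    · rw [hξ₀re]; exact Real.log_lt_log (by positivity) (by linarith)
  obtain ⟨Y, hYd, hY0, hYr⟩ := hLIFT f N (fun ξ => G (ws + Complex.exp ξ)) ξ₀ (h w₀) hf1 hNo hNc hFd
    (fun ξ hξ => hring _ (hNW ξ hξ).1 (hNW ξ hξ).2) hξ₀N (by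
      show f.eval (h w₀) = G (ws + Complex.exp ξ₀)
      rw [hξ₀w]
      exact (hrel w₀ ⟨hw₀s.1, htsub hw₀s.2⟩).1)
  have hY2 : Y (ξ₀ + 2 * Real.pi * I) ≠ h w₀ :=
    EVT_mono hLUN hPEX f hf1 G h a ws ys w₀ ξ₀ r t ht0 htr hwsa (hG.mono htsub) (hinj.mono htsub) hh
      (fun w hw => hrel w ⟨hw.1, htsub hw.2⟩) hys hlim hw₀s (by rw [hwn]; linarith) hξ₀w Y hYd
      (fun ξ h1 h2 => hYr ξ ⟨h1, h2⟩) hY0
  have hYb : ∀ ξ ∈ N, ∀ i, Y ξ ≠ b i := by
    intro ξ hξ i h0
    have h1 := (hYr ξ hξ).1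
    rw [h0, hcyc.step i] at h1
    exact hGb _ (htsub (hNB ξ hξ)) (i + 1) h1.symm
  -- the chain
  set Bf : ℂ → ℂ := fun ξ => brv f b g G (ws + Complex.exp ξ) (Y ξ) with hBf
  have hBd : DifferentiableOn ℂ Bf N := by
    intro ξ hξ
    refine DifferentiableAt.differentiableWithinAt ?_
    have hYa : DifferentiableAt ℂ Y ξ := hYd.differentiableAt (hNo.mem_nhds hξ)
    have hGa : DifferentiableAt ℂ (fun ξ => deriv G (ws + Complex.exp ξ)) ξ :=
      DifferentiableAt.comp ξ ((hG.deriv isOpen_ball).differentiableAt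
        (isOpen_ball.mem_nhds (htsub (hNB ξ hξ)))) (hWd ξ)
    have hfa : DifferentiableAt ℂ (fun ξ => fd f (Y ξ)) ξ := by
      unfold fd
      exact DifferentiableAt.comp ξ f.derivative.differentiable.differentiableAt hYa
    rw [hBf]
    unfold brv
    exact ((hGa.div hfa (hYr ξ hξ).2).pow 2).mul (EVT_BBd b g hYa (hYb ξ hξ))
  have hlog2 : 0 < Real.log 2 := Real.log_pos (by norm_num)
  have hlt2 : Real.log (t / 2) = Real.log t - Real.log 2 := Real.log_div ht0.ne' (by norm_num)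
  have hlt4 : Real.log (t / 4) = Real.log t - 2 * Real.log 2 := by
    rw [Real.log_div ht0.ne' (by norm_num), show (4 : ℝ) = 2 ^ 2 by norm_num, Real.log_pow]
    push_cast
    ring
  have hshre : (ξ₀ + 2 * Real.pi * I).re = Real.log (t / 2) := by
    rw [← hξ₀re]
    simp
  have hseg : ∀ p ∈ segment ℝ (ξ₀ + 2 * Real.pi * I) ξ₀, p.re = Real.log (t / 2) := by
    rintro p ⟨α, β, hα, hβ, hαβ, rfl⟩
    rw [Complex.add_re, Complex.real_smul, Complex.real_smul, Complex.re_ofReal_mul,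
      Complex.re_ofReal_mul, hshre, hξ₀re, ← add_mul, hαβ, one_mul]
  have hint' : ∫⁻ w in ball ws t, ENNReal.ofReal
      ((pre f (G w)).map fun y => ‖brv f b g G w y‖ - (brv f b g G w y).re).sum ≤ ENNReal.ofReal ν :=
    (lintegral_mono_set htsub).trans hint
  have hchain := hHCH Unit {()} (fun _ => Bf) N (ξ₀ + 2 * Real.pi * I) ξ₀ (Real.log 2)
    (16 * ν / t ^ 2) 19 hlog2 (by positivity) hNo (fun _ _ => hBd) (by
      intro p hp ξ hξ
      have e1 := hseg p hp
      have h1 : |ξ.re - p.re| < Real.log 2 := by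
        have h2 := Complex.abs_re_le_norm (ξ - p)
        rw [Complex.sub_re] at h2
        rw [mem_ball, dist_eq_norm] at hξ
        linarith
      rw [e1, abs_lt] at h1
      constructor
      · show Real.log (t / 4) < ξ.re
        linarith [h1.1]
      · show ξ.re < Real.log t
        linarith [h1.2]) (by
      intro p hp
      simp only [Finset.sum_singleton]
      refine EVT_cov ws p t ν ht0 (hseg p hp) Bf
        (fun w => ((pre f (G w)).map fun y => ‖brv f b g G w y‖ - (brv f b g G w y).re).sum) ?_ hint'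
      intro ξ hξ1 hξ2
      exact EVT_single (fun y => brv f b g G (ws + Complex.exp ξ) y) _
        (((hPRB f hf1).1 _ _).2 (hYr ξ ⟨hξ1, hξ2⟩).1)) (by
      have e1 : ξ₀ - (ξ₀ + 2 * Real.pi * I) = -(2 * Real.pi * I) := by ring
      rw [e1, norm_neg, norm_mul, norm_mul, Complex.norm_I, Complex.norm_real,
        Real.norm_of_nonneg Real.pi_pos.le]
      have e2 := Real.pi_lt_d2
      have e3 := Real.log_two_gt_d9
      simp only [Complex.norm_ofNat]
      push_cast
      linarith)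
  simp only [Finset.sum_singleton] at hchain
  have hB0 : Bf ξ₀ = brv f b g G w₀ (h w₀) := by
    show brv f b g G (ws + Complex.exp ξ₀) (Y ξ₀) = _
    rw [hξ₀w, hY0]
  have hexp2 : Complex.exp (ξ₀ + 2 * Real.pi * I) = Complex.exp ξ₀ := Complex.exp_periodic ξ₀
  -- the second branch near w₀
  set y₂ : ℂ → ℂ := fun w => Y (ξ₀ + 2 * Real.pi * I + Complex.log ((w - ws) / (w₀ - ws))) with hy₂
  have hsl : ∀ w ∈ ball w₀ (t / 4), (w - ws) / (w₀ - ws) ∈ Complex.slitPlane := by
    intro w hw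
    have e1 : (w - ws) / (w₀ - ws) = 1 + (w - w₀) / (w₀ - ws) := by
      field_simp
      ring
    have e2 : ‖(w - w₀) / (w₀ - ws)‖ < 1 := by
      rw [norm_div, hwn, div_lt_one (by positivity)]
      rw [mem_ball, dist_eq_norm] at hw
      linarith
    left
    rw [e1, Complex.add_re, Complex.one_re]
    have e3 := (abs_le.1 (Complex.abs_re_le_norm ((w - w₀) / (w₀ - ws)))).1
    linarith
  have hη : ∀ w ∈ ball w₀ (t / 4), ξ₀ + 2 * Real.pi * I + Complex.log ((w - ws) / (w₀ - ws)) ∈ N ∧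
      ws + Complex.exp (ξ₀ + 2 * Real.pi * I + Complex.log ((w - ws) / (w₀ - ws))) = w := by
    intro w hw
    obtain ⟨h1, h2⟩ := h4w w hw
    have e0 : w - ws ≠ 0 := by
      intro h0
      rw [h0, norm_zero] at h1
      linarith
    have e1 : Complex.exp (ξ₀ + 2 * Real.pi * I + Complex.log ((w - ws) / (w₀ - ws))) = w - ws := by
      rw [Complex.exp_add, hexp2, hexp0, Complex.exp_log (div_ne_zero e0 hw₀0),
        mul_div_cancel₀ _ hw₀0]
    refine ⟨?_, by rw [e1]; ring⟩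
    have e2 := congrArg norm e1
    rw [Complex.norm_exp] at e2
    rw [← e2] at h1 h2
    exact ⟨(Real.log_lt_iff_lt_exp (by positivity)).2 h1, (Real.lt_log_iff_exp_lt ht0).2 h2⟩
  have hy₂d : DifferentiableOn ℂ y₂ (ball w₀ (t / 4)) := by
    refine hYd.comp ?_ fun w hw => (hη w hw).1
    refine DifferentiableOn.const_add _ ?_
    refine DifferentiableOn.clog ?_ hsl
    exact ((differentiable_id.sub_const ws).div_const _).differentiableOn
  have hy₂r : ∀ w ∈ ball w₀ (t / 4), f.eval (y₂ w) = G w ∧ fd f (y₂ w) ≠ 0 := by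
    intro w hw
    obtain ⟨h1, h2⟩ := hη w hw
    have h3 := hYr _ h1
    refine ⟨?_, h3.2⟩
    show f.eval (Y _) = G w
    rw [h3.1]
    show G (ws + Complex.exp _) = G w
    rw [h2]
  have h4sub : ball w₀ (t / 4) ⊆ ball w₀ (t / 2) := ball_subset_ball (by linarith)
  have h4a : ball w₀ (t / 4) ⊆ ball a r := h4sub.trans hb1
  have h4s : ball w₀ (t / 4) ⊆ ball ws t := h4sub.trans hb2
  have h4d : ball w₀ (t / 4) ⊆ ball ws d := h4s.trans htsub
  have hw₀4 : w₀ ∈ ball w₀ (t / 4) := mem_ball_self (by positivity)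
  have hy₂0 : y₂ w₀ = Y (ξ₀ + 2 * Real.pi * I) := by
    show Y (ξ₀ + 2 * Real.pi * I + Complex.log ((w₀ - ws) / (w₀ - ws))) = _
    rw [div_self hw₀0, Complex.log_one, add_zero]
  have hy₂ne : ∀ w ∈ ball w₀ (t / 4), y₂ w ≠ h w := by
    intro w hw h0
    have e1 := hLUN f (ball w₀ (t / 4)) y₂ h w isOpen_ball (convex_ball _ _).isPreconnected
      hy₂d.continuousOn (hh.continuousOn.mono h4a)
      (fun v hv => by rw [(hy₂r v hv).1, (hrel v ⟨h4a hv, h4d hv⟩).1])
      (fun v hv => (hy₂r v hv).2) hw h0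
    have e2 := e1 hw₀4
    rw [hy₂0] at e2
    exact hY2 e2
  have hB2 : Bf (ξ₀ + 2 * Real.pi * I) = brv f b g G w₀ (y₂ w₀) := by
    show brv f b g G (ws + Complex.exp (ξ₀ + 2 * Real.pi * I)) (Y (ξ₀ + 2 * Real.pi * I)) = _
    rw [hexp2, hξ₀w, hy₂0]
  -- holomorphic functions on the small ball
  have hbrd : ∀ y : ℂ → ℂ, DifferentiableOn ℂ y (ball w₀ (t / 4)) →
      (∀ w ∈ ball w₀ (t / 4), f.eval (y w) = G w ∧ fd f (y w) ≠ 0) →
      DifferentiableOn ℂ (fun w => brv f b g G w (y w)) (ball w₀ (t / 4)) := by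
    intro y hy1 hy2 w hw
    refine DifferentiableAt.differentiableWithinAt ?_
    have hya : DifferentiableAt ℂ y w := hy1.differentiableAt (isOpen_ball.mem_nhds hw)
    have hGa : DifferentiableAt ℂ (deriv G) w :=
      (hG.deriv isOpen_ball).differentiableAt (isOpen_ball.mem_nhds (h4d hw))
    have hfa : DifferentiableAt ℂ (fun w => fd f (y w)) w := by
      unfold fd
      exact DifferentiableAt.comp w f.derivative.differentiable.differentiableAt hya
    have hyb : ∀ i, y w ≠ b i := by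
      intro i h0
      have h1 := (hy2 w hw).1
      rw [h0, hcyc.step i] at h1
      exact hGb _ (h4d hw) (i + 1) h1.symm
    unfold brv
    exact ((hGa.div hfa (hy2 w hw).2).pow 2).mul (EVT_BBd b g hya hyb)
  set K : ℂ → ℂ := fun w => brv f b g G w (y₂ w) with hK
  set H : ℂ → ℂ := fun w => deriv G w ^ 2 * BB b g (G w) - brv f b g G w (h w) with hH
  have hKd : DifferentiableOn ℂ K (ball w₀ (t / 4)) := hbrd y₂ hy₂d hy₂r
  have hHd : DifferentiableOn ℂ H (ball w₀ (t / 4)) := by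
    refine DifferentiableOn.sub ?_ (hbrd h (hh.mono h4a) fun w hw => hrel w ⟨h4a hw, h4d hw⟩)
    intro w hw
    refine DifferentiableAt.differentiableWithinAt ?_
    have hGa : DifferentiableAt ℂ (deriv G) w :=
      (hG.deriv isOpen_ball).differentiableAt (isOpen_ball.mem_nhds (h4d hw))
    have hG1 : DifferentiableAt ℂ G w := hG.differentiableAt (isOpen_ball.mem_nhds (h4d hw))
    exact (hGa.pow 2).mul (EVT_BBd b g hG1 (hGb w (h4d hw)))
  obtain ⟨θ, hθ1, hθ2⟩ : ∃ θ : ℂ, ‖θ‖ ≤ 1 ∧ (θ * K w₀).re = ‖K w₀‖ := by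
    by_cases h0 : K w₀ = 0
    · exact ⟨0, by simp, by simp [h0]⟩
    · refine ⟨(starRingEnd ℂ) (K w₀) / ‖K w₀‖, ?_, ?_⟩
      · rw [norm_div, RCLike.norm_conj, Complex.norm_real, Real.norm_of_nonneg (norm_nonneg _),
          div_self (norm_ne_zero_iff.2 h0)]
      · have e1 : (starRingEnd ℂ) (K w₀) / (‖K w₀‖ : ℂ) * K w₀ = ((‖K w₀‖ : ℝ) : ℂ) := by
          have e2 : ((‖K w₀‖ : ℝ) : ℂ) ≠ 0 := by
            exact_mod_cast norm_ne_zero_iff.2 h0
          have e3 := Complex.conj_mul' (K w₀)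
          field_simp
          exact e3
        rw [e1, Complex.ofReal_re]
  have hmean := EVT_mean (u := fun w => θ * K w - H w)
    (P := fun w => ((pre f (G w)).map fun y => ‖brv f b g G w y‖ - (brv f b g G w y).re).sum +
        ‖er f b g (G w)‖ * ‖deriv G w‖ ^ 2) (a := w₀) (r := t / 4) (ν := 2 * ν) (by positivity)
    (by positivity) ((hKd.const_mul θ).sub hHd) (by
      intro w hw
      have e1 := EVT_pt hPRB f hf1 b g G w (h w) (y₂ w) (hrel w ⟨h4a hw, h4d hw⟩).1 (hy₂r w hw).1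
        (hy₂ne w hw)
      refine le_trans ?_ e1
      rw [Complex.sub_re]
      have e2 : (θ * K w).re ≤ ‖K w‖ := by
        refine (Complex.re_le_norm _).trans ?_
        rw [norm_mul]
        exact mul_le_of_le_one_left (norm_nonneg _) hθ1
      exact sub_le_sub_right e2 _) (by
      have e1 : ∀ w, ENNReal.ofReal
          (((pre f (G w)).map fun y => ‖brv f b g G w y‖ - (brv f b g G w y).re).sum +
            ‖er f b g (G w)‖ * ‖deriv G w‖ ^ 2) ≤
          ENNReal.ofReal ((pre f (G w)).map fun y => ‖brv f b g G w y‖ - (brv f b g G w y).re).sum +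
            ENNReal.ofReal (‖er f b g (G w)‖ * ‖deriv G w‖ ^ 2) := fun w => ENNReal.ofReal_add_le
      refine (lintegral_mono e1).trans ?_
      have e2 : AEMeasurable (fun w => ENNReal.ofReal (‖er f b g (G w)‖ * ‖deriv G w‖ ^ 2))
          (volume.restrict (ball w₀ (t / 4))) := by
        have a1 : AEMeasurable G (volume.restrict (ball w₀ (t / 4))) :=
          (hG.continuousOn.mono h4d).aemeasurable measurableSet_ball
        have a2 : AEMeasurable (deriv G) (volume.restrict (ball w₀ (t / 4))) :=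
          ((hG.deriv isOpen_ball).continuousOn.mono h4d).aemeasurable measurableSet_ball
        have a3 : AEMeasurable (fun w => er f b g (G w)) (volume.restrict (ball w₀ (t / 4))) :=
          (hMI k f b g hf1).2.2.1.comp_aemeasurable a1
        exact (a3.norm.mul (a2.norm.pow_const 2)).ennreal_ofReal
      rw [lintegral_add_right' _ e2]
      calc _ ≤ ENNReal.ofReal ν + ENNReal.ofReal ν :=
            add_le_add ((lintegral_mono_set h4d).trans hint) ((lintegral_mono_set h4d).trans hier)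
        _ = ENNReal.ofReal (2 * ν) := by
            rw [← ENNReal.ofReal_add hν hν, two_mul])
  rw [Complex.sub_re, hθ2] at hmean
  have hHn : (H w₀).re ≤ ‖H w₀‖ := Complex.re_le_norm _
  have hfin1 : ‖K w₀‖ ≤ ‖H w₀‖ + 11 * ν / t ^ 2 := by
    have e1 : Real.pi * (t / 4) ^ 2 * (‖K w₀‖ - (H w₀).re) ≤ 2 * ν := hmean
    have e2 : 3 * (t / 4) ^ 2 * (‖K w₀‖ - (H w₀).re) ≤ 2 * ν := by
      rcases le_total 0 (‖K w₀‖ - (H w₀).re) with h0 | h0
      · refine le_trans ?_ e1
        gcongr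
        exact Real.pi_gt_three.le
      · have : 3 * (t / 4) ^ 2 * (‖K w₀‖ - (H w₀).re) ≤ 0 :=
          mul_nonpos_of_nonneg_of_nonpos (by positivity) h0
        linarith
    have e3 : ‖K w₀‖ - (H w₀).re ≤ 11 * ν / t ^ 2 := by
      rw [le_div_iff₀ (by positivity)]
      nlinarith
    linarith
  rw [hB0, hB2] at hchain
  have hfin2 : 2 * (16 * ν / t ^ 2) / (Real.pi * Real.log 2 ^ 2) ≤ 33 * ν / t ^ 2 := by
    have e1 := Real.log_two_gt_d9
    have e2 := Real.pi_gt_three
    have e3 : 1 ≤ Real.pi * Real.log 2 ^ 2 := by nlinarith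
    rw [div_le_iff₀ (by positivity)]
    have e4 : 0 ≤ ν / t ^ 2 := by positivity
    have e5 : 2 * (16 * ν / t ^ 2) = 32 * (ν / t ^ 2) := by ring
    have e6 : 33 * ν / t ^ 2 = 33 * (ν / t ^ 2) := by ring
    rw [e5, e6]
    nlinarith
  calc ‖brv f b g G w₀ (h w₀)‖ ≤ _ := hchain
    _ ≤ 4 ^ 19 * ((‖H w₀‖ + 11 * ν / t ^ 2) + 33 * ν / t ^ 2) := by
      gcongr
    _ ≤ 4 ^ 21 * (‖H w₀‖ + 100 * ν / t ^ 2) := by
      have e4 : 0 ≤ ν / t ^ 2 := by positivity
      have e5 : 11 * ν / t ^ 2 = 11 * (ν / t ^ 2) := by ring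
      have e6 : 33 * ν / t ^ 2 = 33 * (ν / t ^ 2) := by ring
      have e7 : 100 * ν / t ^ 2 = 100 * (ν / t ^ 2) := by ring
      rw [e5, e6, e7]
      have := norm_nonneg (H w₀)
      nlinarith

end PPS
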