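import Pool.Agent.helper36.PP.SpecL

/-!
# Project pp: (MP_70a088_an): part M (line fields; attracted critical values)

Rules: see SpecA (files `Pool/Agent/<seat>/PP/XX.lean`, `import Pool.Agent.helper36.PP.SpecM`). All statements of SpecA - SpecE, SpecL are proved
(`Pool/Agent/helper36/PP/All.lean`) and may be used as hypotheses.

PLAN. Part L is extended to polynomials whose critical values outside the Julia set escape or are attracted by attracting cycles. For an attracted critical value `x` take the form `β = bF x r 1 0`, supported in the ring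
`r/2 < ‖z - x‖ < r`, with `CT β = 1` on the inner disc and `0` outside of the disc, and its pull back `μ = pull f β = ∑_{m ≥ 1} (f^m)^* β`; then `f^*(μ + β) = μ`, and the arguments of part L give
`‖∫ (μ + β) er‖ ≤ 2π log‖ρ‖` (INQ2), that is `|∑_v s_v CT(μ + β)(v)| ≤ 2π log‖ρ‖`. For every attracting cycle used there is one more form, `bF p r 0 1` at a point `p` of the cycle. With `N_J` = number of critical values in `J` independent
line fields, these are `N + |P|` rows for the `N` unknowns `s_v`, and a linear combination that vanishes at all critical values and has `(CT μ)'(p) = 0` for `p ∈ P` is trivial (KER).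
-/

set_option autoImplicit false

open Complex Metric Set Filter Topology MeasureTheory MPS MQ Pool.Agent.helper98.ILF

noncomputable section

namespace PPS

/-- the iterates. -/
def it (f : Polynomial ℂ) (m : ℕ) : ℂ → ℂ := (fun w : ℂ => f.eval w)^[m]

/-- attracting periodic point. -/
def APt (f : Polynomial ℂ) (p : ℂ) : Prop := ∃ k : ℕ, 0 < k ∧ it f k p = p ∧ ‖deriv (it f k) p‖ < 1

/-- `x` is attracted by the cycle of `p` (and asymptotic to the orbit of `p`). -/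
def Att (f : Polynomial ℂ) (p x : ℂ) : Prop := Tendsto (fun m => it f m x - it f m p) atTop (𝓝 0)

/-- the orbit of `x` tends to infinity. -/
def Esc (f : Polynomial ℂ) (x : ℂ) : Prop := Tendsto (fun m => ‖it f m x‖) atTop atTop

/-- two bounded forms in the disc of radius `A` with `f^*(μ + β) = μ`. -/
structure PR (f : Polynomial ℂ) (A : ℝ) (μ β : ℂ → ℂ) : Prop where
  measμ : Measurable μ
  measβ : Measurable β
  bdμ : ∀ z, ‖μ z‖ ≤ 1
  bdβ : ∀ z, ‖β z‖ ≤ 1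
  suppμ : ∀ z, μ z ≠ 0 → ‖z‖ < A
  suppβ : ∀ z, β z ≠ 0 → ‖z‖ < A
  inv : ∀ᵐ z : ℂ, (μ (f.eval z) + β (f.eval z)) * (starRingEnd ℂ) (fd f z) / fd f z = μ z

/-- the form in the ring `r/2 < ‖z - x‖ < r`. -/
def bF (x : ℂ) (r : ℝ) (c₀ c₁ : ℂ) (z : ℂ) : ℂ :=
  open Classical in
  if r / 2 < ‖z - x‖ ∧ ‖z - x‖ < r then
    (c₀ + c₁ * (z - x)) / (((2 * Real.pi * Real.log 2 : ℝ) : ℂ) * (starRingEnd ℂ) (z - x)) else 0

/-- the sum of the pull backs of `β` by `f^m`, `m ≥ 1`. -/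
def pull (f : Polynomial ℂ) (β : ℂ → ℂ) (z : ℂ) : ℂ :=
  ∑' m : ℕ, β (it f (m + 1) z) * (starRingEnd ℂ) (deriv (it f (m + 1)) z) / deriv (it f (m + 1)) z

/-- the pair of forms of a ring. -/
structure RowX (f : Polynomial ℂ) (A r : ℝ) (x c₀ c₁ : ℂ) (s : ℝ) (μ β : ℂ → ℂ) : Prop where
  pr : PR f A μ β
  sβ : ∀ z, β z ≠ 0 → r / 2 < ‖z - x‖ ∧ ‖z - x‖ < r
  sμ : ∀ z, μ z ≠ 0 → ∃ m : ℕ, 1 ≤ m ∧ r / 2 < ‖it f m z - x‖ ∧ ‖it f m z - x‖ < r
  inn : ∀ w : ℂ, ‖w - x‖ ≤ r / 2 → NLF.CT β w = (s : ℂ) * (c₀ + c₁ * (w - x))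
  out : ∀ w : ℂ, r < ‖w - x‖ → NLF.CT β w = 0 ∧ ∫ z : ℂ, β z / (z - w) ^ 2 = 0

/-- conditions on the radius `r`; `F` = critical values off the Julia set, `P` = attracting periodic points, `T` = all critical values. -/
structure RD (f : Polynomial ℂ) (A : ℝ) (F P T : Finset ℂ) (r : ℝ) : Prop where
  r0 : 0 < r
  sub : ∀ x ∈ F ∪ P, closedBall x r ⊆ ball 0 A
  sep : ∀ x ∈ F ∪ P, ∀ w ∈ T, w ≠ x → r < ‖w - x‖
  cyc : ∀ x ∈ F ∪ P, ∀ p ∈ P, ∀ j, it f j p ≠ x → r < ‖it f j p - x‖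
  orb : ∀ x ∈ F, (∀ p ∈ P, ∀ j, it f j p ≠ x) → ∀ v ∈ F, ∀ j, it f j v ≠ x → r < ‖it f j v - x‖
  wd : ∀ x ∈ F ∪ P, ∃ M : ℕ, ∀ z : ℂ, r / 2 < ‖z - x‖ → ‖z - x‖ < r → ∀ m, M ≤ m →
    ¬ (r / 2 < ‖it f m z - x‖ ∧ ‖it f m z - x‖ < r)
  rep : ∀ x ∈ F ∪ P, ∀ z ∈ closedBall x r, ∀ k : ℕ, 0 < k → it f k z = z → ‖deriv (it f k) z‖ < 1
  nbh : ∀ p ∈ P, ∀ j, ∃ ε > (0 : ℝ), ∀ z : ℂ, ‖z - it f j p‖ < ε →
    z ∉ juliaSet (fun z : ℂ => f.eval z) ∧
      ∀ m, ∀ x ∈ F ∪ P, ¬ (r / 2 < ‖it f m z - x‖ ∧ ‖it f m z - x‖ < r)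

/-! ## Pairs of forms -/

/-- IP2: invariance for a pair `f^* σ = μ`. PROOF. As IP (helper16/PP/IP.lean): `μ y q y / |fd f y|² = σ z q y/(fd f y)²` for `f y = z`. -/
def IP2_stmt : Prop := ∀ (f : Polynomial ℂ) (μ σ : ℂ → ℂ), 1 ≤ f.natDegree → Measurable μ →
  Measurable σ → (∀ᵐ z : ℂ, σ (f.eval z) * (starRingEnd ℂ) (fd f z) / fd f z = μ z) →
  ∀ (q : ℂ → ℂ) (K : Set ℂ),
  Measurable q → MeasurableSet K → IntegrableOn (fun y => μ y * q y) {y : ℂ | f.eval y ∈ K} →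
  IntegrableOn (fun z => σ z * TT f q z) K ∧
  ∫ z in K, σ z * TT f q z = ∫ y in {y : ℂ | f.eval y ∈ K}, μ y * q y

/-- REL2: the functional equation. PROOF. As REL (helper60/PP/REL.lean) with IP2 (`σ = μ + β`): IP2 with `K = univ`, `q y = fd f y/(y - b)`. -/
def REL2_stmt : Prop := ∀ (f : Polynomial ℂ) (A : ℝ) (μ β : ℂ → ℂ), 2 ≤ f.natDegree → PR f A μ β →
  ∀ b : ℂ, fd f b * NLF.CT μ b = NLF.CT (fun z => μ z + β z) (f.eval b) -
    ∫ z : ℂ, μ z * (f.derivative /ₘ (Polynomial.X - Polynomial.C b)).eval z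

/-- VAN: no polynomial part if `CT (μ + β)` vanishes at the critical values.
PROOF. For a polynomial `Q` of degree `≤ n - 2`: IP2 (`K = univ`) and RAN: `∫ μ Q = ∫ (μ + β) TT f Q = ∑_v s_v CT (μ + β) v = 0` (`V = CV f` finite, PRB). REL2 with `Q = f' /ₘ (X - b)` (natDegree `≤ n - 2`); `CT (μ + β) = CT μ + CT β` (CTA: integrability). Compare LNZ, helper60/PP/LNZ.lean. -/
def VAN_stmt : Prop := ∀ (f : Polynomial ℂ) (A : ℝ) (μ β : ℂ → ℂ), 2 ≤ f.natDegree → PR f A μ β →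
  (∀ v ∈ CV f, NLF.CT (fun z => μ z + β z) v = 0) →
  ∀ b : ℂ, fd f b * NLF.CT μ b = NLF.CT μ (f.eval b) + NLF.CT β (f.eval b)

/-- PAIR2: pairing.
PROOF. As PAIR (helper28/PP/PAIR.lean). `K = KK b r`. IP2 with `q = BB b g`, `σ = μ + β`: `∫_K (μ + β) TB = ∫_{f⁻¹K} μ B`, so `∫_K (μ + β) er = ∫_K β B + (∫_K μ B - ∫_{f⁻¹K} μ B)`. `β` vanishes off `K`, so `∫_K β B = ∫ β B = ∑_i (∫ β/(z - b i)² + g i ∫ β/(z - b i)) = 0`
(all integrable: `β` is bounded, has bounded support at positive distance from the `b i`). The second term as in PAIR. -/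
def PAIR2_stmt : Prop := ∀ (k : ℕ) [NeZero k] (f : Polynomial ℂ) (b g : ZMod k → ℂ) (A : ℝ)
  (μ β : ℂ → ℂ) (r : ZMod k → ℝ), 1 ≤ f.natDegree → IsCyc f b → PR f A μ β → (∀ i, 0 < r i) →
  (∀ i z, β z ≠ 0 → r i ≤ ‖z - b i‖) →
  (∀ i, NLF.CT β (b i) = 0 ∧ ∫ z : ℂ, β z / (z - b i) ^ 2 = 0) →
  ENNReal.ofReal ‖∫ z in NLF.KK b r, (μ z + β z) * er f b g z‖ ≤
    (∫⁻ z in {z : ℂ | f.eval z ∈ NLF.KK b r} \ NLF.KK b r, ENNReal.ofReal ‖BB b g z‖) +
    ∫⁻ z in (NLF.KK b r \ {z : ℂ | f.eval z ∈ NLF.KK b r}) ∩ ball 0 A, ENNReal.ofReal ‖BB b g z‖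

/-- LIM2: the discs shrink. PROOF. As LIM (helper70/PP/LIM.lean) with IP2, `σ = μ + β`. -/
def LIM2_stmt : Prop := ∀ (k : ℕ) [NeZero k] (f : Polynomial ℂ) (b g : ZMod k → ℂ) (A : ℝ)
  (μ β : ℂ → ℂ) (r : ZMod k → ℝ), 2 ≤ f.natDegree → IsCyc f b → PR f A μ β → (∀ i, 0 < r i) →
  Exact f b g → Integrable (fun z => (μ z + β z) * er f b g z) ∧
  Tendsto (fun s : ℝ => ∫ z in NLF.KK b (fun i => s * r i), (μ z + β z) * er f b g z) (𝓝[>] 0)
    (𝓝 (∫ z : ℂ, (μ z + β z) * er f b g z))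

/-- INQ2: the inequality. PROOF. RADI, SD1, SD2, PAIR2 (for small `s` the radii `s * r i` are `≤ δ`), LIM2; as INQ (helper84/PP/INQ.lean). -/
def INQ2_stmt : Prop := ∀ (k : ℕ) [NeZero k] (f : Polynomial ℂ) (b g : ZMod k → ℂ) (A δ : ℝ)
  (μ β : ℂ → ℂ), 2 ≤ f.natDegree → IsCyc f b → PR f A μ β → 0 < δ →
  (∀ i z, β z ≠ 0 → δ ≤ ‖z - b i‖) →
  (∀ i, NLF.CT β (b i) = 0 ∧ ∫ z : ℂ, β z / (z - b i) ^ 2 = 0) →
  1 ≤ ‖rho f b‖ → Exact f b g →
  ‖∫ z : ℂ, (μ z + β z) * er f b g z‖ ≤ 2 * Real.pi * Real.log ‖rho f b‖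

/-! ## The forms of a ring -/

/-- BF: the form `bF`.
PROOF. Bound: `π log 2 ≥ 1`. Polar coordinates about `x` (`Complex.integral_comp_polarCoord_symm` and translation, or the method of `MPS.HAR`, helper25/MP/HAR.lean): with `z = x + t e^{iθ}`, `1/conj(z - x) = e^{iθ}/t`, so for `h` with `l(z) = c₀ + c₁ (z - x)`:
`∫ bF z h z = (2π log 2)⁻¹ ∫_{r/2}^r (∫_0^{2π} e^{iθ} l(z) h(z) dθ) dt`, and `∫_0^{2π} e^{iθ} l h dθ = (i t)⁻¹ ∮_{|z - x| = t} l(z) h(z) dz`. For `h = 1/(z - w)` the circle integral is `2πi l(w)` if `‖w - x‖ < t` (Cauchy formula) and `0` if `‖w - x‖ > t`; for `h = 1/(z - w)²`, `‖w - x‖ > t`, it is `0`.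
`∫_{r/2}^r dt/t = log 2`. -/
def BF_stmt : Prop := ∀ (x : ℂ) (r : ℝ) (c₀ c₁ : ℂ), 0 < r → Measurable (bF x r c₀ c₁) ∧
  (∀ z, ‖bF x r c₀ c₁ z‖ ≤ (‖c₀‖ + ‖c₁‖ * r) / r) ∧
  (∀ w : ℂ, ‖w - x‖ ≤ r / 2 → NLF.CT (bF x r c₀ c₁) w = c₀ + c₁ * (w - x)) ∧
  (∀ w : ℂ, r < ‖w - x‖ → NLF.CT (bF x r c₀ c₁) w = 0 ∧ ∫ z : ℂ, bF x r c₀ c₁ z / (z - w) ^ 2 = 0)

/-- PU: the pull backs.
PROOF. For fixed `z` the `m ≥ 1` with `it f m z ∈ W` lie in an interval of length `M` (after the first one), so at most `M` terms of the series are not zero, each of norm `≤ C` (`‖conj d / d‖ ≤ 1`). Measurability: the limit of the partial sums, which are eventually constant.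
Chain rule: `deriv (it f (m + 2)) z = deriv (it f (m + 1)) (f z) * fd f z`, `it f (m + 2) z = it f (m + 1) (f z)`; split off the first term of the series at `z`. -/
def PU_stmt : Prop := ∀ (f : Polynomial ℂ) (β : ℂ → ℂ) (W : Set ℂ) (M : ℕ) (C : ℝ), 1 ≤ f.natDegree →
  Measurable β → (∀ z, ‖β z‖ ≤ C) → (∀ z, β z ≠ 0 → z ∈ W) →
  (∀ z ∈ W, ∀ m, M ≤ m → it f m z ∉ W) →
  Measurable (pull f β) ∧ (∀ z, ‖pull f β z‖ ≤ M * C) ∧
  (∀ z, fd f z ≠ 0 →
    (pull f β (f.eval z) + β (f.eval z)) * (starRingEnd ℂ) (fd f z) / fd f z = pull f β z) ∧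
  (∀ z, pull f β z ≠ 0 → ∃ m : ℕ, 1 ≤ m ∧ it f m z ∈ W)

/-- ROW: the pair of forms of a ring.
PROOF. `β = s bF x r c₀ c₁`, `μ = pull f β`, `s = 1/(1 + (M + 1) C)`, `C = (‖c₀‖ + ‖c₁‖ r)/r`; BF, PU with `W` the ring. `fd f z ≠ 0` for almost every `z`. Support of `μ`: `it f m z ∈ W ⊆ ball 0 A` gives `‖z‖ < A` by the invariance. -/
def ROW_stmt : Prop := ∀ (f : Polynomial ℂ) (A r : ℝ) (x c₀ c₁ : ℂ) (M : ℕ), 2 ≤ f.natDegree →
  (∀ y : ℂ, ‖f.eval y‖ < A → ‖y‖ < A) → 0 < r → closedBall x r ⊆ ball 0 A →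
  (∀ z : ℂ, r / 2 < ‖z - x‖ → ‖z - x‖ < r → ∀ m, M ≤ m →
    ¬ (r / 2 < ‖it f m z - x‖ ∧ ‖it f m z - x‖ < r)) →
  ∃ s : ℝ, 0 < s ∧ ∃ μ β : ℂ → ℂ, RowX f A r x c₀ c₁ s μ β

/-! ## Triviality -/

/-- INF: vanishing near infinity.
PROOF. `R ≥ A` with `‖f z‖ ≥ 2‖z‖` and `‖fd f z‖ ≥ 2` for `‖z‖ ≥ R`. For `‖z‖ > R`: `it f m z` has norm `> R`, `κ` vanishes there, so `deriv (it f m) z * a z = a (it f m z)` (induction, chain rule), `2^m ‖a z‖ ≤ B` for all `m`. -/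
def INF_stmt : Prop := ∀ (f : Polynomial ℂ) (A B : ℝ) (a κ : ℂ → ℂ), 2 ≤ f.natDegree →
  (∀ z, ‖a z‖ ≤ B) → (∀ z : ℂ, A ≤ ‖z‖ → κ z = 0) →
  (∀ z, fd f z * a z = a (f.eval z) + κ (f.eval z)) → ∃ R : ℝ, ∀ z : ℂ, R < ‖z‖ → a z = 0

/-- LC1: local computation.
PROOF. Near `q`: `f z - f q = (z - q)^d u z`, `u q ≠ 0`, `d ≥ 1` (`f` is not constant), so `fd f z = (z - q)^(d-1) u₁ z`, `u₁ q = d u q ≠ 0` and `‖f z - f q‖ ≤ C ‖z - q‖ ‖fd f z‖`, `‖z - q‖ ‖fd f z‖ ≤ C ‖f z - f q‖` near `q`, `fd f z ≠ 0` for `z ≠ q`.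
(1) `‖h w‖ ≤ C' ‖w - f q‖` near `f q`, so `‖a z‖ = ‖h (f z)‖/‖fd f z‖ ≤ C C' ‖z - q‖` for `z ≠ q` near `q`: `a q = 0` by continuity. (2) If `a q = 0`, `deriv a q = 0` then `‖a z‖ ≤ C''‖z - q‖²`, `‖h (f z)‖ ≤ C'' C ‖z - q‖ ‖f z - f q‖`; with `w = f z → f q`, `w ≠ f q`: `h w / (w - f q) → 0`. -/
def LC1_stmt : Prop := ∀ (f : Polynomial ℂ) (q : ℂ) (a h : ℂ → ℂ), 1 ≤ f.natDegree →
  AnalyticAt ℂ a q → AnalyticAt ℂ h (f.eval q) → (∀ᶠ z in 𝓝 q, fd f z * a z = h (f.eval z)) →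
  h (f.eval q) = 0 → a q = 0 ∧ (deriv a q = 0 → deriv h (f.eval q) = 0)

/-- LC3: no invariant vector field with a double zero at an attracting fixed point.
PROOF. Orders of vanishing at `p`: `D ≥ 1` that of `F - p` (finite), `m` that of `a`, suppose `2 ≤ m < ∞`. `F' a` has order `D - 1 + m`, `a ∘ F` has order `m D`: `(D - 1)(m - 1) = 0`, `D = 1`, `F' p = λ ≠ 0`, and the leading coefficients give `λ = λ^m`, `|λ| < 1`: contradiction.
(Or: `a = (z - p)² h`, `F - p = (z - p) G`: `F' h = G² (h ∘ F)`, `|G|² ≤ θ |F'|` near `p` with `θ < 1`, so `sup |h| ≤ θ sup |h|` on a small disc mapped into itself.) -/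
def LC3_stmt : Prop := ∀ (F a : ℂ → ℂ) (p : ℂ), AnalyticAt ℂ F p → F p = p → ‖deriv F p‖ < 1 →
  (¬ ∀ᶠ z in 𝓝 p, F z = p) → AnalyticAt ℂ a p → a p = 0 → deriv a p = 0 →
  (∀ᶠ z in 𝓝 p, deriv F z * a z = a (F z)) → ∀ᶠ z in 𝓝 p, a z = 0

/-- CYC: vanishing near an attracting cycle.
PROOF. `q j = it f j p`, `h = a + κ` (analytic at the `q j`), `fd f * a = h ∘ f`. The `q j` are the points of the cycle (`q (j + k) = q j`).
(1) If `h (q (j + 1)) = 0` then `a (q j) = 0` (LC1), and then `h (q j) = 0`, by the third hypothesis (`h = 0`, or `κ = 0` and `h = a + 0 = 0`). Going backwards around the cycle all `a (q j)` and `h (q j)` vanish if one `h (q j)` vanishes. If no `h (q j)` vanishes then `κ (q j) = 0` for all `j`, so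
`fd f (q j) a (q j) = a (q (j + 1))`, and `deriv (it f k) p * a p = a p` with `‖deriv (it f k) p‖ < 1`: `a p = 0`, `h p = 0`, contradiction. So `a (q j) = h (q j) = κ (q j) = 0` for all `j`.
(2) If `deriv a (q j) = 0` then `deriv h (q (j + 1)) = 0` (LC1), that is `deriv a (q (j+1)) + deriv κ (q (j+1)) = 0`, and both terms vanish by the fourth and fifth hypothesis. Start with `p ∈ P`: all `deriv a (q j) = 0`, all `deriv κ (q j) = 0` (`j ≥ 1`, hence all), so `κ = 0` near `q j`.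
(3) Now `fd f * a = a ∘ f` near the `q j`, so `deriv (it f k) z * a z = a (it f k z)` near `q j`; LC3 with `F = it f k`. -/
def CYC_stmt : Prop := ∀ (f : Polynomial ℂ) (p : ℂ) (k : ℕ) (a κ : ℂ → ℂ) (P : Set ℂ),
  2 ≤ f.natDegree → 0 < k → it f k p = p → ‖deriv (it f k) p‖ < 1 → p ∈ P →
  (∀ z, fd f z * a z = a (f.eval z) + κ (f.eval z)) →
  (∀ j, AnalyticAt ℂ a (it f j p)) →
  (∀ j, ∃ c₀ c₁ : ℂ, ∀ᶠ z in 𝓝 (it f j p), κ z = c₀ + c₁ * (z - it f j p)) →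
  (∀ j, a (it f j p) + κ (it f j p) = 0 ∨ κ (it f j p) = 0) →
  (∀ j, it f j p ∈ P → deriv a (it f j p) = 0) → (∀ j, it f j p ∉ P → deriv κ (it f j p) = 0) →
  ∀ j, ∀ᶠ z in 𝓝 (it f j p), a z = 0 ∧ κ z = 0

/-- MX: propagation backwards.
PROOF. For `z` near `v`: `κ (it f j z) = 0` for `1 ≤ j ≤ m₀` and `a (it f m₀ z) = 0` (continuity of the iterates), so `deriv (it f m₀) z * a z = a (it f m₀ z) = 0`. The polynomial `deriv (it f m₀)` is not zero, so it has no zeros near `v` except possibly `v`: `a = 0` on a punctured neighbourhood of `v`, and by continuity `a v = 0`. -/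
def MX_stmt : Prop := ∀ (f : Polynomial ℂ) (a κ : ℂ → ℂ) (v : ℂ) (m₀ : ℕ), 1 ≤ f.natDegree →
  Continuous a → (∀ z, fd f z * a z = a (f.eval z) + κ (f.eval z)) →
  (∀ᶠ z in 𝓝 (it f m₀ v), a z = 0) →
  (∀ j, 1 ≤ j → j ≤ m₀ → ∀ᶠ z in 𝓝 (it f j v), κ z = 0) → a v = 0

/-! ## Attracting cycles and the choice of the radius -/

/-- TRA: attracting periodic points are stable and attract a disc uniformly.
PROOF. `F = it f k`, `‖F' p‖ < λ < 1`: `‖F z - p‖ ≤ λ ‖z - p‖` on `ball p δ₀`, so `‖it f (k j) z - p‖ ≤ λ^j ‖z - p‖`; the iterates `it f i`, `i < k`, are continuous at `p`; `m = k j + i`, `it f m p = it f i p`. -/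
def TRA_stmt : Prop := ∀ (f : Polynomial ℂ) (p : ℂ), APt f p →
  (∀ ε > (0 : ℝ), ∃ δ > (0 : ℝ), ∀ z : ℂ, ‖z - p‖ < δ → ∀ m, ‖it f m z - it f m p‖ < ε) ∧
  ∃ δ > (0 : ℝ), ∀ ε > (0 : ℝ), ∃ M : ℕ, ∀ m, M ≤ m → ∀ z : ℂ, ‖z - p‖ < δ →
    ‖it f m z - it f m p‖ < ε

/-- TRU: uniform attraction near an attracted point.
PROOF. The finitely many points `it f i p` are attracting periodic points (chain rule: the derivatives of `it f k` at the points of a cycle are equal); `δ` for all of them (TRA). Choose `m₁` with `‖it f m₁ x - it f m₁ p‖ < δ`; by continuity the same for `‖z - x‖ ≤ r`; TRA for `it f m₁ p`. -/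
def TRU_stmt : Prop := ∀ (f : Polynomial ℂ) (p x : ℂ), APt f p → Att f p x →
  (∀ i, APt f (it f i p)) ∧ ∃ r > (0 : ℝ), ∀ ε > (0 : ℝ), ∃ M : ℕ, ∀ m, M ≤ m → ∀ z : ℂ,
    ‖z - x‖ ≤ r → ‖it f m z - it f m p‖ < ε

/-- TRI: uniform escape.
PROOF. `‖f z‖ ≥ 2‖z‖` for `‖z‖ ≥ A` (`A ≥ 1`; compare RAD, or leading term); choose `m₁` with `‖it f m₁ x‖ > A`, by continuity `‖it f m₁ z‖ > A` for `‖z - x‖ ≤ r`; then `‖it f (m₁ + j) z‖ ≥ 2^j A`. -/
def TRI_stmt : Prop := ∀ (f : Polynomial ℂ) (x : ℂ), 2 ≤ f.natDegree → Esc f x →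
  ∃ r > (0 : ℝ), ∀ B : ℝ, ∃ M : ℕ, ∀ m, M ≤ m → ∀ z : ℂ, ‖z - x‖ ≤ r → B < ‖it f m z‖

/-- ATF: attracting periodic points are in the Fatou set.
PROOF. `δ` from TRA (second part). Every `z` with `‖z - p‖ < δ` is a point of equicontinuity: given `ε`, for `m ≥ M` and `w ∈ ball p δ`: `‖it f m w - it f m z‖ < 2 ε/4`; the finitely many `it f m`, `m < M`, are continuous at `z`; `chordal a b ≤ ‖a - b‖`. So `ball p δ ⊆ {z | EquicontAt}` and `p` is in the interior. -/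
def ATF_stmt : Prop := ∀ (f : Polynomial ℂ) (p : ℂ), APt f p →
  ∃ ε > (0 : ℝ), ∀ z : ℂ, ‖z - p‖ < ε → z ∉ juliaSet (fun z : ℂ => f.eval z)

/-- RADX: the radius.
PROOF. Orbits `{it f j p}`, `p ∈ P`, are finite sets. TRI, TRU: `r₀` for the points of `F` and (TRU with `x = p`) `P`. All conditions hold for all small `r`: `sub`, `sep`, `cyc`: finitely many positive distances. `orb`: for `v` escaping the points `it f j v` tend to infinity; for `v` attracted by `p` they are asymptotic to the orbit of `p`, which does not contain `x`;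
so the distances `‖it f j v - x‖` that are not `0` are bounded below. `wd`: the closed ring `r/2 ≤ ‖z - x‖ ≤ r` is disjoint from the finite set of the points `it f j p`, so at a positive distance `ε`; for `m ≥ M` and `‖z - x‖ ≤ r ≤ r₀` the point `it f m z` has norm `> ‖x‖ + r` or distance `< ε` from a point `it f m p`.
`rep`: let `it f k z = z`, `‖z - x‖ ≤ r`, `k > 0`. The orbit of `z` is bounded, so `x` does not escape (TRI); so `it f m z - it f m p → 0`; with `m` multiples of `k k'` (`k'` a period of `p`): `z = p`; `deriv (it f (k k')) p = (deriv (it f k) p)^(k') = (deriv (it f k') p)^k`, of norm `< 1`, so `‖deriv (it f k) z‖ < 1`.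
`nbh`: TRA (first part) for the attracting periodic point `it f j p` with `ε` the distance of the closed rings from the cycles; ATF. -/
def RADX_stmt : Prop := ∀ (f : Polynomial ℂ) (A : ℝ) (F P T : Finset ℂ), 2 ≤ f.natDegree →
  (∀ p ∈ P, APt f p) → (∀ v ∈ F, Esc f v ∨ ∃ p ∈ P, Att f p v) → (∀ x ∈ F ∪ P, ‖x‖ < A) →
  ∃ r : ℝ, RD f A F P T r

/-! ## Assembly -/

/-- KER: the linear combinations are trivial.
PROOF. `c > 0` small: `(c μ, c β)` is a `PR f A` (linearity; bounds), so with `a = CT μ`, `κ = CT β` (linear combinations of the `CT` of the terms, CTA): VAN gives `fd f z * a z = a (f z) + κ (f z)` for all `z`. `a` is continuous and bounded (CTA).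
(1) `κ w = 0` for `A ≤ ‖w‖` (`out`, `sub`): INF: `a = 0` for `‖z‖ > R`. (2) Let `p ∈ P`, `q = it f j p`. Near `q` all `μ` vanish (`nbh`, `sμ`, `LF.julia`), so `a` is analytic at `q` (CTA, fifth part). Near `q` `κ w = lF q * s q + lP q * s' q * (w - q)` (`inn`; `out` and `cyc` for `x ≠ q`; the first term only if `q ∈ F`, the second only if `q ∈ P`).
If `q ∈ CV f` then `a q + κ q = CT (μ + β) q = 0`; otherwise `q ∉ F` and `κ q = 0`. CYC: `a = κ = 0` near `q`; so `lF q = 0` (if `q ∈ F`), `lP q = 0` (if `q ∈ P`). So `lP = 0` on `P` and `lF = 0` on the points of `F` on the cycles.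
(3) Suppose that `F' = {x ∈ F | lF x ≠ 0}` is not empty. Its points are not on the cycles and not periodic (escaping, or attracted and periodic would be on the cycle, see RADX), so there is `v ∈ F'` such that no `x ∈ F'` is of the form `it f j v`, `j ≥ 1` (`x` in the forward orbit of `v` is a strict order on the finite set `F'`).
Choose `m₀` with `a = 0` near `it f m₀ v` (`‖it f m₀ v‖ > R`, or `it f m₀ v` near the cycle, (2)). `κ = 0` near `it f j v`, `1 ≤ j ≤ m₀` (`orb`, `out`). MX: `a v = 0`. `a v + κ v = 0`, `κ v = lF v * s v` (`inn`; `sep`, `out`): `lF v = 0`, contradiction. (4) So `β = 0` and `μ = ∑ l i μJ i`; LNZ for `c μ`. -/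
def KER_stmt : Prop := ∀ (f : Polynomial ℂ) (A r : ℝ) (F P T : Finset ℂ) (s s' : ℂ → ℝ)
  (μF βF μP βP : ℂ → ℂ → ℂ) (N : ℕ) (μJ : Fin N → ℂ → ℂ), 2 ≤ f.natDegree → RD f A F P T r →
  (∀ v, v ∈ T ↔ v ∈ CV f) → F ⊆ T → (∀ p ∈ P, APt f p) →
  (∀ v ∈ F, Esc f v ∨ ∃ p ∈ P, Att f p v) →
  (∀ x ∈ F, 0 < s x ∧ RowX f A r x 1 0 (s x) (μF x) (βF x)) →
  (∀ p ∈ P, 0 < s' p ∧ RowX f A r p 0 1 (s' p) (μP p) (βP p)) →
  (∀ i, LF f A (μJ i)) → ∀ (l : Fin N → ℂ) (lF lP : ℂ → ℂ) (μ β : ℂ → ℂ),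
  (∀ z, μ z = (∑ i, l i * μJ i z) + (∑ x ∈ F, lF x * μF x z) + ∑ p ∈ P, lP p * μP p z) →
  (∀ z, β z = (∑ x ∈ F, lF x * βF x z) + ∑ p ∈ P, lP p * βP p z) →
  (∀ v ∈ CV f, NLF.CT (fun z => μ z + β z) v = 0) → (∀ p ∈ P, deriv (NLF.CT μ) p = 0) →
  (∀ x ∈ F, lF x = 0) ∧ (∀ p ∈ P, lP p = 0) ∧ ∀ᵐ z : ℂ, ∑ i, l i * μJ i z = 0

/-- FLX: line fields and attracted critical values, quantitative form.
PROOF. As FL (helper31/PP/FL.lean). `T` = the finite set `CV f`, `F` = those not in the Julia set, `N` = number of the others, `P` = a finite set of attracting periodic points that attract the non escaping elements of `F` (choose one for each). `A` large: JBD, RAD (invariance), `‖x‖ < A` for `x ∈ F ∪ P`. RADX: `r`. ROW (`wd`): the rows.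
Matrix with rows `Fin N ⊕ F ⊕ P` and columns `T ⊕ P`: entries `CT (μ + β) v` and `deriv (CT μ) p` (for the line fields `β = 0`); the number of rows is equal to the number of columns. KER and the independence of the line fields (linearity of `CT`; `CT μ_row` is differentiable near `p`: `nbh`, `sμ`, CTA): MAT gives `C` with
`‖s v‖ ≤ C ∑_rows ‖∑_v M row v * s v‖` (apply it to `(s, 0)`). For a cycle with `‖ρ‖ > 1`, `k ≥ 2` (ZCY, TG): ERV: `s`. `∫ (μ_row + β_row) er = ∑_v s v CT (μ_row + β_row) v` has norm `≤ 2π log‖ρ‖` (INQ2 or INQ; the `b i` are repelling periodic points, so not in `closedBall x r` by `rep`, `out`, `sβ`: `δ` = minimum of `‖b i - x‖ - r` over the finitely many `i`). The rest as in FL. -/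
def FLX_stmt : Prop := ∀ (f : Polynomial ℂ), 2 ≤ f.natDegree →
  (∀ v ∈ CV f, v ∈ juliaSet (fun z : ℂ => f.eval z) ∨ Esc f v ∨ ∃ p, APt f p ∧ Att f p v) →
  ∀ μ : Fin (CV f ∩ juliaSet (fun z : ℂ => f.eval z)).ncard → ℂ → ℂ,
  (∀ i, IsInvariantLineField (fun z : ℂ => f.eval z) (μ i)) →
  (∀ l : Fin (CV f ∩ juliaSet (fun z : ℂ => f.eval z)).ncard → ℂ,
    (∀ᵐ z : ℂ, ∑ i, l i * μ i z = 0) → l = 0) →
  ∀ d > (0 : ℝ), ∃ η > (0 : ℝ), ∀ (k : ℕ) (z : ℂ), Cyc f k z → 1 < ‖mlt f k z‖ →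
    d ≤ ‖mlt f k z / ‖mlt f k z‖ - 1‖ → η ≤ Real.log ‖mlt f k z‖

/-- FLY: at most one critical value in the Julia set.
PROOF. FLX with `d = ‖ζ - 1‖/2` (see FLC, helper43/PP/FLC.lean): an invariant line field `μ` is `≠ 0` on a set of positive measure, so `fun _ => μ` is independent if the number is `1`; if it is `0` the family is empty. -/
def FLY_stmt : Prop := ∀ (f : Polynomial ℂ) (ζ : ℂ), 2 ≤ f.natDegree → ‖ζ‖ = 1 → ζ ≠ 1 →
  (∀ v ∈ CV f, v ∈ juliaSet (fun z : ℂ => f.eval z) ∨ Esc f v ∨ ∃ p, APt f p ∧ Att f p v) →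
  (CV f ∩ juliaSet (fun z : ℂ => f.eval z)).ncard ≤ 1 →
  (∀ η > (0 : ℝ), ∃ (k : ℕ) (z : ℂ), Cyc f k z ∧ 1 < ‖mlt f k z‖ ∧ ‖mlt f k z - ζ‖ < η) →
  ¬ HasInvariantLineField (fun z : ℂ => f.eval z)

end PPS
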