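import Pool.Agent.helper36.PP.SpecD
import Pool.Agent.helper36.MP.SpecZ

/-!
# Project pp: (MP_70a088_an): part E (the theorem on multipliers; application to the space of polynomials)

Rules: see SpecA.
-/

set_option autoImplicit false

open Complex Metric Set Filter Topology MeasureTheory MPS MQ

noncomputable section

namespace PPS

/-- polynomials of degree `n` with coefficients bounded by `a` and leading coefficient bounded below by `1/a`. -/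
def Bd (n : ℕ) (a : ℝ) (f : Polynomial ℂ) : Prop :=
  f.natDegree = n ∧ (∀ i, ‖f.coeff i‖ ≤ a) ∧ 1 ≤ a * ‖f.leadingCoeff‖

/-- RAD: escape radius.
PROOF. `1 ≤ a ‖lead‖ ≤ a²`, so `a ≥ 1`. For `‖z‖ ≥ 1`: `‖f z‖ ≥ ‖z‖^n/a - n a ‖z‖^(n-1) = ‖z‖^(n-1) (‖z‖/a - n a)`; `A = a (n a + 2)`: `‖f z‖ ≥ 2‖z‖^(n-1) ≥ 2‖z‖` for `‖z‖ ≥ A`. Second: if `‖y‖ ≥ R` then `‖f y‖ ≥ 2R`. Third: take the point of largest norm
of the (finite) orbit of `z`. -/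
def RAD_stmt : Prop := ∀ (n : ℕ) (a : ℝ), 2 ≤ n → 0 < a → ∃ A : ℝ, 1 ≤ A ∧ ∀ f : Polynomial ℂ,
  Bd n a f → (∀ z : ℂ, A ≤ ‖z‖ → 2 * ‖z‖ ≤ ‖f.eval z‖) ∧
  (∀ (R : ℝ) (y : ℂ), A ≤ R → ‖f.eval y‖ < R → ‖y‖ < R) ∧
  (∀ (k : ℕ) (z : ℂ), 0 < k → (fun w : ℂ => f.eval w)^[k] z = z → ‖z‖ < A)

/-- THB0: the estimate for arbitrary coefficients `g`.
PROOF. RAD: `A`. MAINB with `ra = A`, `R₁ = A`: `R`, `ε`. A cycle `b` is in `ball 0 A` (RAD, third part; `(fun w => f.eval w)^[k] (b i) = b i`). If `2π log‖ρ‖ + 4∫‖er g‖ < ε`, ERI (second part, small `η`) gives `g'` with `∑ g' ≠ 0` and `2π log‖ρ‖ + 4∫‖er g'‖ ≤ ε`: contradiction. -/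
def THB0_stmt : Prop := ∀ (n : ℕ) (a d₀ : ℝ), 2 ≤ n → 0 < a → 0 < d₀ →
  ∃ R : ℝ, 1 ≤ R ∧ ∃ ε > (0 : ℝ), ∀ f : Polynomial ℂ, Bd n a f → (∀ y : ℂ, ‖f.eval y‖ < R → ‖y‖ < R) ∧
    ∀ (k : ℕ) [NeZero k] (b g : ZMod k → ℂ), 2 ≤ k → IsCyc f b → 1 < ‖rho f b‖ →
      d₀ ≤ ‖rho f b / ‖rho f b‖ - 1‖ →
      ε ≤ 2 * Real.pi * Real.log ‖rho f b‖ + 4 * ∫ z in ball (0 : ℂ) R, ‖er f b g z‖

/-- THB: the estimate for exact coefficients, `k ≥ 2`.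
PROOF. THB0: `R`, `ε'`. QB and ERQ: `∫‖er‖ ≤ n³ max a 1 R^n (∑ ‖lam‖) π R²`. `ε = ε'/(4 (π n³ (max a 1) R^(n+2) + 2π))`. -/
def THB_stmt : Prop := ∀ (n : ℕ) (a d₀ : ℝ), 2 ≤ n → 0 < a → 0 < d₀ → ∃ ε > (0 : ℝ),
  ∀ (k : ℕ) [NeZero k] (f : Polynomial ℂ) (b g : ZMod k → ℂ), 2 ≤ k → Bd n a f → IsCyc f b →
  1 < ‖rho f b‖ → d₀ ≤ ‖rho f b / ‖rho f b‖ - 1‖ → Exact f b g →
  ε ≤ Real.log ‖rho f b‖ + ∑ m ∈ Finset.range (n - 1), ‖lam f b g m‖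

/-- K1: fixed points.
PROOF. `b 0 = z`, `ρ = f'(z)`, `1 < ‖ρ‖`, `‖z‖ < A` (RAD). If `‖ρ‖ ≥ 2` then `log 2 ≤ log‖ρ‖`. Let `‖ρ‖ < 2`. `g = g/ρ - f''(z)/ρ²`. `n ≥ 3`: `lam 1 - z lam 0 = 1/ρ`, so `1/2 ≤ ‖lam 1‖ + A ‖lam 0‖`. `n = 2`: `lam 0 = g = -f''(z)/(ρ(ρ-1))`, `f'' = 2 lead`,
`‖lam 0‖ ≥ (2/a)/6`. -/
def K1_stmt : Prop := ∀ (n : ℕ) (a : ℝ), 2 ≤ n → 0 < a → ∃ ε > (0 : ℝ),
  ∀ (f : Polynomial ℂ) (b g : ZMod 1 → ℂ), Bd n a f → IsCyc f b → 1 < ‖rho f b‖ → Exact f b g →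
  ε ≤ Real.log ‖rho f b‖ + ∑ m ∈ Finset.range (n - 1), ‖lam f b g m‖

/-- THC: all periods. PROOF. THB and K1 (for `k = 1` the type `ZMod k` is `ZMod 1`). -/
def THC_stmt : Prop := ∀ (n : ℕ) (a d₀ : ℝ), 2 ≤ n → 0 < a → 0 < d₀ → ∃ ε > (0 : ℝ),
  ∀ (k : ℕ) [NeZero k] (f : Polynomial ℂ) (b g : ZMod k → ℂ), Bd n a f → IsCyc f b →
  1 < ‖rho f b‖ → d₀ ≤ ‖rho f b / ‖rho f b‖ - 1‖ → Exact f b g →
  ε ≤ Real.log ‖rho f b‖ + ∑ m ∈ Finset.range (n - 1), ‖lam f b g m‖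

/-- ZCY: periodic points and cycles (as `MPS.ZCYC`, helper25/MP/ZCYC.lean or helper44/NL/CYC.lean).
PROOF. `b i = (fun w => f.eval w)^[i.val] z`; injective on `ZMod k` as the minimal period is `k`; chain rule `mlt = ∏ fd f (b i)`; if `mlt ≠ 0` then no `fd f (b i)` is `0`. -/
def ZCY_stmt : Prop := ∀ (f : Polynomial ℂ) (k : ℕ) [NeZero k] (z : ℂ), Cyc f k z →
  ∃ b : ZMod k → ℂ, Function.Injective b ∧ (∀ i, f.eval (b i) = b (i + 1)) ∧ b 0 = z ∧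
    (∀ j : ℕ, b (j : ZMod k) = (fun w : ℂ => f.eval w)^[j] z) ∧ rho f b = mlt f k z ∧
    (mlt f k z ≠ 0 → IsCyc f b)

/-- ZLP: the logarithmic derivative of the multiplier along `f + t u`.
PROOF. `b_{i+1}' = fd (b i) b_i' + u(b i)` (derivatives at `t = 0`); `ρ'/ρ = ∑ (f''(b i) b_i' + u'(b i))/fd (b i)`, and `f''(b i)/fd (b i) = g i - fd (b i) g (i+1)` by exactness; `∑ g i b_i' - ∑ g (i+1) fd (b i) b_i' = ∑ g (i+1) b_{i+1}' - ∑ g (i+1) (b_{i+1}' - u(b i)) = ∑ g (i+1) u(b i)`.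
(`X ^ m` gives `lam f b g m`. Compare `MPS.ZL`, helper25/MP/ZL.lean.) -/
def ZLP_stmt : Prop := ∀ (k : ℕ) [NeZero k] (f u : Polynomial ℂ) (r : ℝ) (b : ℂ → ZMod k → ℂ)
  (g : ZMod k → ℂ), 0 < r → (∀ i, DifferentiableOn ℂ (fun t => b t i) (ball 0 r)) →
  (∀ t ∈ ball (0 : ℂ) r, ∀ i, (f + Polynomial.C t * u).eval (b t i) = b t (i + 1)) →
  (∀ i, fd f (b 0 i) ≠ 0) → Exact f (b 0) g →
  DifferentiableAt ℂ (fun t => rho (f + Polynomial.C t * u) (b t)) 0 ∧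
  deriv (fun t => rho (f + Polynomial.C t * u) (b t)) 0 / rho f (b 0) =
    ∑ i, (u.derivative.eval (b 0 i) / fd f (b 0 i) + g (i + 1) * u.eval (b 0 i))

/-- FA: the strip.
PROOF. THC: `ε`; `K = 1/ε`. `b t i` from ZCY for `f + t X^m` and `Z m t`: `b t i = (f + t X^m)^[i.val] (Z m t)` is differentiable in `t`; `rho = mlt`. TG (`ρ ≠ 1`): exact `g`; ZLP with `u = X^m`: the logarithmic derivative is `lam f b g m`. (`mlt f k z ≠ 0` gives `IsCyc`.) -/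
def FA_stmt : Prop := ∀ (n : ℕ) (a d₀ : ℝ), 2 ≤ n → 0 < a → 0 < d₀ → ∃ K > (0 : ℝ),
  ∀ (f : Polynomial ℂ) (k : ℕ) (z : ℂ) (r : ℝ) (Z : ℕ → ℂ → ℂ), Bd n a f → Cyc f k z →
  1 < ‖mlt f k z‖ → d₀ ≤ ‖mlt f k z / ‖mlt f k z‖ - 1‖ → 0 < r →
  (∀ m < n - 1, DifferentiableOn ℂ (Z m) (ball 0 r) ∧ Z m 0 = z ∧
    ∀ t ∈ ball (0 : ℂ) r, Cyc (f + Polynomial.C t * Polynomial.X ^ m) k (Z m t)) →
  1 ≤ K * (Real.log ‖mlt f k z‖ + ∑ m ∈ Finset.range (n - 1),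
    ‖deriv (fun t => mlt (f + Polynomial.C t * Polynomial.X ^ m) k (Z m t)) 0 / mlt f k z‖)

/-- CON: continuation of cycles over a disc without indifferent cycles.
PROOF. `f_t = f + t X^m`, natDegree `n`, the leading coefficient of the `k`-th iterate (as a polynomial, `Polynomial.comp` iterated) is a constant `C ≠ 0`. `MPS.ZC0` for `P t = C⁻¹ (f_t^{∘k} - X)` (monic of degree `n^k`, coefficients polynomial in `t`); a root `z` is periodic, with minimal period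
`k' ∣ k`, and `mlt f_t k z = (mlt f_t k' z)^(k/k') ≠ 1` as `‖mlt f_t k' z‖ ≠ 1`: the derivative of `P t` at `z` is not zero. The minimal period stays `k`: as in `MPS.ZC` (helper25/MP/ZC.lean): if the minimal period of `Z t` is `k' < k`, the periodic point of `f_t'` of period `k'` that continues `Z t` (implicit
function theorem) agrees with `Z` near `t` (uniqueness of simple roots), so `t' ↦ f_t'^[k'] (Z t') - Z t'` vanishes near `t`, hence on the disc, also at `0`: contradiction. -/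
def CON_stmt : Prop := ∀ (n k m : ℕ) (f : Polynomial ℂ) (r : ℝ), 2 ≤ n → f.natDegree = n → m < n - 1 →
  0 < k → 0 < r → (∀ t ∈ ball (0 : ℂ) r, ∀ (k' : ℕ) (z : ℂ),
    Cyc (f + Polynomial.C t * Polynomial.X ^ m) k' z →
    ‖mlt (f + Polynomial.C t * Polynomial.X ^ m) k' z‖ ≠ 1) →
  ∀ z₀, Cyc f k z₀ → ∃ Z : ℂ → ℂ, DifferentiableOn ℂ Z (ball 0 r) ∧ Z 0 = z₀ ∧
    ∀ t ∈ ball (0 : ℂ) r, Cyc (f + Polynomial.C t * Polynomial.X ^ m) k (Z t)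

/-- FIX: an indifferent fixed point at a bounded distance.
PROOF. `f'(z) = 1` has a solution `z` (degree `n - 1 ≥ 1`); `‖z‖ ≤ a (n² a + 1)` or so (`n ‖z‖^(n-1)/a ≤ 1 + n² a ‖z‖^(n-2)` for `‖z‖ ≥ 1`); `t = z - f(z)`: `(f + t)(z) = z`, `(f + t)' = f'`. -/
def FIX_stmt : Prop := ∀ (n : ℕ) (a : ℝ), 2 ≤ n → 0 < a → ∃ T > (0 : ℝ), ∀ f : Polynomial ℂ,
  Bd n a f → ∃ (t z : ℂ), ‖t‖ ≤ T ∧ Cyc (f + Polynomial.C t * Polynomial.X ^ 0) 1 z ∧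
    mlt (f + Polynomial.C t * Polynomial.X ^ 0) 1 z = 1

/-- FD: distance to indifferent cycles.
PROOF. FA: `K₀` (`≥ 1`). FIX: `T`. `L = log‖ρ‖ > 0`, `K = max (4 n K₀) (2 K₀ T)`. If `L ≥ 1/(2K₀)`: FIX, `T ≤ K L`. Let `L < 1/(2K₀)` and suppose that there is no such `(m, t)`; `r = K L`: no indifferent cycles of `f + t X^m`, `‖t‖ < r`. CON: `Z m` for `m < n - 1`. `mlt` is continuous in `t`, its modulus
is `> 1` at `0` and never `1` on the (connected) disc: `> 1`. `MPS.ZBC`: each logarithmic derivative is at most `2L/r = 2/K`. FA: `1 ≤ K₀ (L + (n-1) 2/K) < 1/2 + 1/2`: contradiction. -/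
def FD_stmt : Prop := ∀ (n : ℕ) (a d₀ : ℝ), 2 ≤ n → 0 < a → 0 < d₀ → ∃ K > (0 : ℝ),
  ∀ (f : Polynomial ℂ) (k : ℕ) (z : ℂ), Bd n a f → Cyc f k z → 1 < ‖mlt f k z‖ →
  d₀ ≤ ‖mlt f k z / ‖mlt f k z‖ - 1‖ →
  ∃ (m : ℕ) (t : ℂ) (k' : ℕ) (z' : ℂ), m < n - 1 ∧ ‖t‖ ≤ K * Real.log ‖mlt f k z‖ ∧
    Cyc (f + Polynomial.C t * Polynomial.X ^ m) k' z' ∧
    ‖mlt (f + Polynomial.C t * Polynomial.X ^ m) k' z'‖ = 1

/-- FC: the qualitative form.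
PROOF. `a` = a bound of the coefficients and of `1/‖lead‖`, `d₀ = ‖ζ - 1‖/2`. For `‖ρ‖ > 1`, `ρ` near `ζ`: `‖ρ/‖ρ‖ - 1‖ ≥ d₀` and `log‖ρ‖` is small. FD. (As `MQ.FC1`, helper74/MQ/App.lean.) -/
def FC_stmt : Prop := ∀ (f : Polynomial ℂ) (ζ : ℂ), 2 ≤ f.natDegree → ‖ζ‖ = 1 → ζ ≠ 1 →
  (∀ η > (0 : ℝ), ∃ (k : ℕ) (z : ℂ), Cyc f k z ∧ 1 < ‖mlt f k z‖ ∧ ‖mlt f k z - ζ‖ < η) →
  ∀ δ > (0 : ℝ), ∃ (m : ℕ) (t : ℂ) (k' : ℕ) (z' : ℂ), m < f.natDegree - 1 ∧ ‖t‖ < δ ∧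
    Cyc (f + Polynomial.C t * Polynomial.X ^ m) k' z' ∧
    ‖mlt (f + Polynomial.C t * Polynomial.X ^ m) k' z'‖ = 1

end PPS
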