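import Pool.Agent.helper74.MQ.Spec

/-!
# Project pp: (MP_70a088_an): the universal strip for the multipliers of ALL polynomials: definitions

Generalisation of projects mp: (helper36) and mq: (helper74) from `z ^ n + c` to arbitrary polynomials `f` of degree `n`
(at most `n - 1` critical values instead of one). Everything about the flat structure of
`B = BB b g` (natural maps, slits, strips, planarity, counting) does not depend on `f` and is taken over from `MPS` and `MQ`.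
Paper version: /team-store/MP_70a088_PP_helper36.md.
-/

set_option autoImplicit false

open Complex Metric Set Filter Topology MeasureTheory MPS

noncomputable section

namespace PPS

/-- `f'(z)`. -/
def fd (f : Polynomial ℂ) (z : ℂ) : ℂ := f.derivative.eval z

/-- `f''(z)`. -/
def fdd (f : Polynomial ℂ) (z : ℂ) : ℂ := f.derivative.derivative.eval z

/-- the preimages of `z` (with multiplicity). -/
def pre (f : Polynomial ℂ) (z : ℂ) : Multiset ℂ := (f - Polynomial.C z).roots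

/-- the transfer operator on quadratic differentials. -/
def TT (f : Polynomial ℂ) (q : ℂ → ℂ) (z : ℂ) : ℂ := ((pre f z).map fun y => q y / fd f y ^ 2).sum

/-- the critical values. -/
def CV (f : Polynomial ℂ) : Set ℂ := {v | ∃ y, fd f y = 0 ∧ f.eval y = v}

/-- there is a holomorphic branch of `f⁻¹ ∘ F` on `Ω`, with value `v` at `w₀`, that avoids the critical points. -/
def Br (f : Polynomial ℂ) (F : ℂ → ℂ) (Ω : Set ℂ) (w₀ v : ℂ) : Prop :=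
  ∃ h : ℂ → ℂ, DifferentiableOn ℂ h Ω ∧ h w₀ = v ∧ ∀ w ∈ Ω, f.eval (h w) = F w ∧ fd f (h w) ≠ 0

/-- the constant in the conditions on `ε`. -/
def cn (n : ℕ) : ℝ := (4 : ℝ) ^ (40 + 2 * n) * (n : ℝ) ^ 2

/-- centre of the discs of Phase 2. -/
def ctr (y ρ₁ : ℝ) : ℂ := (y : ℂ) * I - ρ₁ / 4

section
variable {k : ℕ} [NeZero k]

/-- a cycle of exact period `k` of `f`, without critical points. -/
structure IsCyc (f : Polynomial ℂ) (b : ZMod k → ℂ) : Prop where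
  inj : Function.Injective b
  step : ∀ i, f.eval (b i) = b (i + 1)
  ne0 : ∀ i, fd f (b i) ≠ 0

/-- the multiplier. -/
def rho (f : Polynomial ℂ) (b : ZMod k → ℂ) : ℂ := ∏ i, fd f (b i)

/-- the exact coefficients. -/
def Exact (f : Polynomial ℂ) (b g : ZMod k → ℂ) : Prop :=
  ∀ i, g (i + 1) = g i / fd f (b i) - fdd f (b i) / fd f (b i) ^ 2

/-- for exact `g`: the logarithmic derivative of the multiplier in the direction `X ^ m`. -/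
def lam (f : Polynomial ℂ) (b g : ZMod k → ℂ) (m : ℕ) : ℂ :=
  ∑ i, ((m : ℂ) * b i ^ (m - 1) / fd f (b i) + g (i + 1) * b i ^ m)

/-- the polynomial `Q` with `T (B + Q) = B` for exact `g`. -/
def QQ (f : Polynomial ℂ) (b g : ZMod k → ℂ) (y : ℂ) : ℂ :=
  ∑ m ∈ Finset.range (f.natDegree - 1), lam f b g m *
    ∑ l ∈ Finset.Ico (m + 1) f.natDegree, f.derivative.coeff l * y ^ (l - 1 - m)

/-- the error term `e = B - T B`. -/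
def er (f : Polynomial ℂ) (b g : ZMod k → ℂ) (z : ℂ) : ℂ := BB b g z - TT f (BB b g) z

/-- the deficit `T|B| - |TB|`. -/
def Df (f : Polynomial ℂ) (b g : ZMod k → ℂ) (z : ℂ) : ℝ :=
  ((pre f z).map fun y => ‖BB b g y‖ / ‖fd f y‖ ^ 2).sum - ‖TT f (BB b g) z‖

/-- the density of `deficit + 2 |e|`, pulled back by `G`. -/
def dens (f : Polynomial ℂ) (b g : ZMod k → ℂ) (G : ℂ → ℂ) (w : ℂ) : ℝ :=
  (Df f b g (G w) + 2 * ‖er f b g (G w)‖) * ‖deriv G w‖ ^ 2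

/-- branch value over `w` given by a preimage `y` of `G w` under `f`. -/
def brv (f : Polynomial ℂ) (b g : ZMod k → ℂ) (G : ℂ → ℂ) (w y : ℂ) : ℂ :=
  (deriv G w / fd f y) ^ 2 * BB b g y

/-- the level function `|τ_{q-1} - τ_q|` (used for `q ≥ 1`). -/
def lev (b g : ZMod k → ℂ) (G : ℕ → ℂ → ℂ) (q : ℕ) (w : ℂ) : ℝ :=
  ‖tau b g G (q - 1) w - tau b g G q w‖

/-- a system of levels `0..Q` on an open set `Ω` (`w`-plane). -/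
structure LevSys (f : Polynomial ℂ) (b g : ZMod k → ℂ) (G : ℕ → ℂ → ℂ) (Ω : Set ℂ) (Q : ℕ) : Prop where
  nat0 : IsNat b g (G 0) Ω
  diff : ∀ q ≤ Q, DifferentiableOn ℂ (G q) Ω
  rel : ∀ q < Q, ∀ w ∈ Ω, f.eval (G (q + 1) w) = G q w ∧ fd f (G (q + 1) w) ≠ 0

/-- the standing assumptions. -/
structure SU (n k : ℕ) [NeZero k] (f : Polynomial ℂ) (b g : ZMod k → ℂ) (ψ : ZMod k → ℂ → ℂ)
    (ra R ε : ℝ) : Prop where
  hn : 2 ≤ n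
  hdeg : f.natDegree = n
  hk : 2 ≤ k
  cyc : IsCyc f b
  rho1 : 1 < ‖rho f b‖
  mx : ∀ i, MaxPN b g i (ψ i)
  hra : ∀ j, ‖b j‖ ≤ ra
  hR : ra < R
  posR : 0 < R
  inv : ∀ y : ℂ, ‖f.eval y‖ < R → ‖y‖ < R
  hE : 2 * Real.pi * Real.log ‖rho f b‖ + 4 * ∫ z in ball (0 : ℂ) R, ‖er f b g z‖ ≤ ε

/-- Phase 1 system (functions of `u`), cutoff `A q` for level `q`. -/
structure Sys1 (f : Polynomial ℂ) (b : ZMod k → ℂ) (ψ : ℂ → ℂ) (δ : ℝ) (A : ℕ → ℝ)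
    (G : ℕ → ℂ → ℂ) (Q : ℕ) : Prop where
  a0 : 2 * δ ≤ A 0
  mono : ∀ q, q < Q → A q ≤ A (q + 1)
  g0 : G 0 = ψ
  diff : ∀ q, 1 ≤ q → q ≤ Q → DifferentiableOn ℂ (G q) (ball 0 (Real.exp (-A q)))
  rel : ∀ q, q < Q → ∀ u ∈ ball (0 : ℂ) (Real.exp (-A (q + 1))),
    f.eval (G (q + 1) u) = G q u ∧ fd f (G (q + 1) u) ≠ 0
  val : ∀ q, q ≤ Q → G q 0 = b (-(q : ZMod k))
  disj : ∀ q, 1 ≤ q → q < Q →
    Disjoint (G q '' ball 0 (Real.exp (-A (q + 1)))) (ψ '' ball 0 (Real.exp (-δ)))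

/-- assumptions of Phase 2: `x = i y`, flat disc of radius `16 ρ₁ ≤ 1`, `δ = ρ₁ / 64`, and `G1` the
system of Phase 1 with constant cutoff `3 δ`. -/
structure SU2 (n k : ℕ) [NeZero k] (f : Polynomial ℂ) (b g : ZMod k → ℂ) (ψ : ZMod k → ℂ → ℂ)
    (ra R ε : ℝ) (y ρ₁ : ℝ) (χ : ℂ → ℂ) (G1 : ℕ → ℂ → ℂ) (ps : ℕ) : Prop where
  su : SU n k f b g ψ ra R ε
  r0 : 0 < ρ₁
  r1 : 16 * ρ₁ ≤ 1
  nat : IsNat b g χ (HP 0 ∪ ball ((y : ℂ) * I) (16 * ρ₁))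
  ext : EqOn χ (hat (ψ 0)) (HP 0)
  mp0 : MapsTo (ψ 0) (ball 0 (Real.exp (-(ρ₁ / 64)))) (ball 0 R)
  mp1 : MapsTo χ (ball (ctr y ρ₁) (9 * ρ₁ / 8)) (ball 0 R)
  s1 : Sys1 f b (ψ 0) (ρ₁ / 64) (fun _ => 3 * (ρ₁ / 64)) G1 k
  hps : ∀ p : ℕ, 1 ≤ p → p < k → χ ((y : ℂ) * I + 6 * ρ₁) ∈ ψ (-(p : ZMod k)) '' ball 0 1 → p = ps

/-- Phase 2 system (functions of `w`) on discs of radius `T q` around `ctr y ρ₁ = i y - ρ₁ / 4`. -/
structure Sys2 (f : Polynomial ℂ) (y ρ₁ : ℝ) (χ : ℂ → ℂ) (G1 : ℕ → ℂ → ℂ) (ps : ℕ) (T : ℕ → ℝ)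
    (G : ℕ → ℂ → ℂ) (Q : ℕ) : Prop where
  t0 : T 0 ≤ 9 * ρ₁ / 8
  anti : ∀ q, q < Q → T (q + 1) ≤ T q
  low : ∀ q, q ≤ Q → ρ₁ / 8 ≤ T q
  g0 : G 0 = χ
  diff : ∀ q, q ≤ Q → DifferentiableOn ℂ (G q) (ball (ctr y ρ₁) (T q))
  rel : ∀ q, q < Q → ∀ w ∈ ball (ctr y ρ₁) (T (q + 1)),
    f.eval (G (q + 1) w) = G q w ∧ fd f (G (q + 1) w) ≠ 0
  val : ∀ q, q ≤ Q → G q (ctr y ρ₁) = G1 q (Complex.exp (ctr y ρ₁))
  disj : ∀ q, 1 ≤ q → q < Q → q ≠ ps →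
    Disjoint (G q '' ball (ctr y ρ₁) (T (q + 1))) (χ '' ball (ctr y ρ₁) (9 * ρ₁ / 8))

/-- the standing assumptions of Phase 1 for a system with `Q` levels. -/
structure H1 (n k : ℕ) [NeZero k] (f : Polynomial ℂ) (b g : ZMod k → ℂ) (ψ : ZMod k → ℂ → ℂ)
    (ra R ε δ : ℝ) (A : ℕ → ℝ) (G : ℕ → ℂ → ℂ) (Q : ℕ) : Prop where
  su : SU n k f b g ψ ra R ε
  d0 : 0 < δ
  d1 : δ ≤ 1 / 20
  mp : MapsTo (ψ 0) (ball 0 (Real.exp (-δ))) (ball 0 R)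
  sys : Sys1 f b (ψ 0) δ A G Q
  hQ : Q ≤ k

/-- the standing assumptions of Phase 2 for a system with `Q` levels. -/
structure H2 (n k : ℕ) [NeZero k] (f : Polynomial ℂ) (b g : ZMod k → ℂ) (ψ : ZMod k → ℂ → ℂ)
    (ra R ε : ℝ) (y ρ₁ : ℝ) (χ : ℂ → ℂ) (G1 : ℕ → ℂ → ℂ) (ps : ℕ) (T : ℕ → ℝ) (G : ℕ → ℂ → ℂ)
    (Q : ℕ) : Prop where
  su2 : SU2 n k f b g ψ ra R ε y ρ₁ χ G1 ps
  sys : Sys2 f y ρ₁ χ G1 ps T G Q
  hQ : Q ≤ k

/-- the measure `μ` of layers dominates the level functions (Phase 1). -/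
def Mu1 (b g : ZMod k → ℂ) (A : ℕ → ℝ) (G : ℕ → ℂ → ℂ) (Q : ℕ) (μ : Measure ℝ) : Prop :=
  ∀ p, 1 ≤ p → p ≤ Q → ∀ (s t : ℝ) (w : ℂ), A p ≤ s → 0 < t → t ≤ 1 → w.re = -(s + t) →
    ENNReal.ofReal (∑ q ∈ Finset.Icc 1 p, lev b g (GW G) q w) ≤
      ENNReal.ofReal (4 / (Real.pi * t ^ 2)) * μ (Ioo (s + t / 2) (s + 3 * t / 2))

/-- the measure `μ` of layers (layer `s` = circle of radius `9 ρ₁ / 8 - s` about `ctr y ρ₁`) dominates the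
level functions (Phase 2). -/
def Mu2 (b g : ZMod k → ℂ) (y ρ₁ : ℝ) (T : ℕ → ℝ) (G : ℕ → ℂ → ℂ) (Q : ℕ) (μ : Measure ℝ) : Prop :=
  ∀ p, 1 ≤ p → p ≤ Q → ∀ (s t : ℝ) (w : ℂ), 9 * ρ₁ / 8 - T p ≤ s → 0 < t →
    ‖w - ctr y ρ₁‖ = 9 * ρ₁ / 8 - (s + t) →
    ENNReal.ofReal (∑ q ∈ Finset.Icc 1 p, lev b g G q w) ≤
      ENNReal.ofReal (4 / (Real.pi * t ^ 2)) * μ (Ioo (s + t / 2) (s + 3 * t / 2))

/-- failure of the level `q` at the cutoff `a` (Phase 1). -/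
def Fail1 (f : Polynomial ℂ) (b : ZMod k → ℂ) (ψ : ℂ → ℂ) (δ : ℝ) (G : ℕ → ℂ → ℂ) (q : ℕ) (a : ℝ) : Prop :=
  (1 ≤ q ∧ ¬ Disjoint (G q '' ball 0 (Real.exp (-a))) (ψ '' ball 0 (Real.exp (-δ)))) ∨
    ¬ Br f (G q) (ball 0 (Real.exp (-a))) 0 (b (-((q + 1 : ℕ) : ZMod k)))

/-- failure of the level `q` at the radius `r` (Phase 2). -/
def Fail2 (f : Polynomial ℂ) (y ρ₁ : ℝ) (χ : ℂ → ℂ) (G1 : ℕ → ℂ → ℂ) (ps : ℕ) (G : ℕ → ℂ → ℂ) (q : ℕ)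
    (r : ℝ) : Prop :=
  (1 ≤ q ∧ q ≠ ps ∧
      ¬ Disjoint (G q '' ball (ctr y ρ₁) r) (χ '' ball (ctr y ρ₁) (9 * ρ₁ / 8))) ∨
    ¬ Br f (G q) (ball (ctr y ρ₁) r) (ctr y ρ₁) (GW G1 (q + 1) (ctr y ρ₁))

/-- the derivative of the transport from the pole `i` to the pole `i - q`. -/
def Kq (f : Polynomial ℂ) (b : ZMod k → ℂ) (ψ : ZMod k → ℂ → ℂ) (i : ZMod k) (q : ℕ) : ℂ :=
  deriv (ψ i) 0 / (deriv (ψ (i - (q : ZMod k))) 0 * ∏ j ∈ Finset.Icc 1 q, fd f (b (i - (j : ZMod k))))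

end

/-- the multiplier of `z` as a point of period `k`. -/
def mlt (f : Polynomial ℂ) (k : ℕ) (z : ℂ) : ℂ := deriv ((fun w : ℂ => f.eval w)^[k]) z

/-- `z` has exact period `k ≥ 1`. -/
def Cyc (f : Polynomial ℂ) (k : ℕ) (z : ℂ) : Prop :=
  0 < k ∧ Function.minimalPeriod (fun w : ℂ => f.eval w) z = k

end PPS
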