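import Pool.Agent.helper36.PP.SpecD
import Pool.Agent.helper36.PP.EVT

/-! pp:CMP -/

set_option autoImplicit false

open Complex Metric Set Filter Topology MeasureTheory MPS MQ

noncomputable section

namespace PPS

theorem CMP_meas (hMI : MI_stmt) {k : ℕ} [NeZero k] (f : Polynomial ℂ) (hf : 1 ≤ f.natDegree)
    (b g : ZMod k → ℂ) (G : ℂ → ℂ) (B : Set ℂ) (hB : IsOpen B) (hG : DifferentiableOn ℂ G B) :
    AEMeasurable (fun w => ENNReal.ofReal (dens f b g G w)) (volume.restrict B) := by
  obtain ⟨-, -, h3, h4, -, -⟩ := hMI k f b g hf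
  have a1 : AEMeasurable G (volume.restrict B) := hG.continuousOn.aemeasurable hB.measurableSet
  have a2 : AEMeasurable (deriv G) (volume.restrict B) :=
    (hG.deriv hB).continuousOn.aemeasurable hB.measurableSet
  have a3 : AEMeasurable (fun w => er f b g (G w)) (volume.restrict B) := h3.comp_aemeasurable a1
  have a4 : AEMeasurable (fun w => Df f b g (G w)) (volume.restrict B) := h4.comp_aemeasurable a1
  unfold dens
  exact ((a4.add (a3.norm.const_mul 2)).mul (a2.norm.pow_const 2)).ennreal_ofReal

theorem CMP (hLUN : LUN_stmt) (hPRB : PRB_stmt) (hLV : LV_stmt) (hLEA : LEA_stmt) (hMI : MI_stmt) :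
    CMP_stmt := by
  intro k _ f b g G G' Ω Ω' w₀ S Q r hf hcyc hΩ hΩ' hL hL' hr hB hB' h0 htau hlev hint
  have hBo : IsOpen (ball w₀ r) := isOpen_ball
  have hw₀ : w₀ ∈ ball w₀ r := mem_ball_self hr
  obtain ⟨-, -, hA3, hA4, -⟩ := hLEA k f b g G Ω Q hcyc hΩ hL
  obtain ⟨-, -, -, hA4', -⟩ := hLEA k f b g G' Ω' Q hcyc hΩ' hL'
  obtain ⟨-, -, hV3, -, hV5⟩ := hLV k f b g G Ω Q hf hcyc hΩ hL
  intro q
  induction q with
  | zero => intro _; exact h0
  | succ q ih =>
    intro hq
    have hqQ : q < Q := by omega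
    have ih' := ih hqQ.le
    have hSd : Differentiable ℂ fun w : ℂ => S - w := by fun_prop
    have hSm : MapsTo (fun w : ℂ => S - w) (ball w₀ r) Ω' := hB'
    have hyd : DifferentiableOn ℂ (fun w => G' (q + 1) (S - w)) (ball w₀ r) :=
      (hL'.diff (q + 1) hq).comp hSd.differentiableOn hSm
    have hyr : ∀ w ∈ ball w₀ r, f.eval (G' (q + 1) (S - w)) = G q w ∧
        fd f (G' (q + 1) (S - w)) ≠ 0 := by
      intro w hw
      rw [ih' w hw]
      exact hL'.rel q hqQ (S - w) (hB' w hw)
    by_contra hcon
    push Not at hcon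
    obtain ⟨w₁, hw₁, hne₁⟩ := hcon
    have hne : ∀ w ∈ ball w₀ r, G' (q + 1) (S - w) ≠ G (q + 1) w := by
      intro w hw heq
      apply hne₁
      exact (hLUN f (ball w₀ r) (fun w => G' (q + 1) (S - w)) (G (q + 1)) w isOpen_ball
        (convex_ball _ _).isPreconnected hyd.continuousOn
        ((hL.diff (q + 1) hq).continuousOn.mono hB)
        (fun v hv => by rw [(hyr v hv).1, (hL.rel q hqQ v (hB hv)).1]) (fun v hv => (hyr v hv).2)
        hw heq hw₁).symm
    have hbr : ∀ w ∈ ball w₀ r, brv f b g (G q) w (G' (q + 1) (S - w)) =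
        tau b g G' (q + 1) (S - w) := by
      intro w hw
      have e1 : G q =ᶠ[𝓝 w] fun v => G' q (S - v) := by
        filter_upwards [hBo.mem_nhds hw] with v hv
        exact ih' v hv
      have e2 : deriv (G q) w = -deriv (G' q) (S - w) := by
        rw [e1.deriv_eq]
        have e3 : HasDerivAt (fun v : ℂ => S - v) (-1) w := by
          simpa using (hasDerivAt_id w).const_sub S
        have e4 : HasDerivAt (G' q) (deriv (G' q) (S - w)) (S - w) :=
          ((hL'.diff q hqQ.le).differentiableAt (hΩ'.mem_nhds (hB' w hw))).hasDerivAt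
        have e5 : HasDerivAt (fun v => G' q (S - v)) (deriv (G' q) (S - w) * -1) w :=
          HasDerivAt.comp w e4 e3
        rw [e5.deriv]
        ring
      unfold brv tau
      rw [e2, hA4' q hqQ (S - w) (hB' w hw), neg_div, neg_sq,
        mul_div_cancel_left₀ _ (hyr w hw).2]
    have hkey : ∀ w ∈ ball w₀ r, (3 / 4 : ℝ) ≤
        3 / 2 * ∑ q' ∈ Finset.range (q + 1), dens f b g (G q') w +
          (tau b g G q w - tau b g G (q + 1) w).re := by
      intro w hw
      have e1 : (3 / 4 : ℝ) ≤ ‖brv f b g (G q) w (G' (q + 1) (S - w))‖ := by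
        rw [hbr w hw]
        have e2 := htau (q + 1) hq w hw
        have e3 := norm_sub_norm_le (1 : ℂ) (1 - tau b g G' (q + 1) (S - w))
        rw [norm_one, sub_sub_cancel, norm_sub_rev] at e3
        linarith
      have e2 : G' (q + 1) (S - w) ∈ (pre f (G q w)).erase (G (q + 1) w) :=
        (Multiset.mem_erase_of_ne (hne w hw)).2 (((hPRB f hf).1 _ _).2 (hyr w hw).1)
      have e3 : ‖brv f b g (G q) w (G' (q + 1) (S - w))‖ ≤
          (((pre f (G q w)).erase (G (q + 1) w)).map fun y => ‖brv f b g (G q) w y‖).sum := by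
        refine Multiset.single_le_sum ?_ _
          (Multiset.mem_map_of_mem (fun y => ‖brv f b g (G q) w y‖) e2)
        intro x hx
        obtain ⟨y, -, rfl⟩ := Multiset.mem_map.1 hx
        exact norm_nonneg _
      have e4 := hV5 q hqQ w (hB hw)
      have e5 := (hV3 q w).2
      have e6 : dens f b g (G q) w ≤ ∑ q' ∈ Finset.range (q + 1), dens f b g (G q') w :=
        Finset.single_le_sum (f := fun q' => dens f b g (G q') w) (fun q' _ => (hV3 q' w).1)
          (Finset.self_mem_range_succ q)
      linarith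
    have hdm : ∀ q' ∈ Finset.range (q + 1),
        AEMeasurable (fun w => ENNReal.ofReal (dens f b g (G q') w)) (volume.restrict (ball w₀ r)) := by
      intro q' hq'
      rw [Finset.mem_range] at hq'
      exact CMP_meas hMI f hf b g (G q') _ hBo ((hL.diff q' (by omega)).mono hB)
    have hmean := EVT_mean (u := fun w => 3 / 4 - (tau b g G q w - tau b g G (q + 1) w))
      (P := fun w => 3 / 2 * ∑ q' ∈ Finset.range (q + 1), dens f b g (G q') w) (a := w₀) (r := r)
      (ν := 3 / 2 * (r ^ 2 / 100)) hr (by positivity)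
      ((differentiableOn_const _).sub (((hA3 q hqQ.le).mono hB).sub ((hA3 (q + 1) hq).mono hB))) (by
        intro w hw
        have e1 := hkey w hw
        have e2 : (3 / 4 - (tau b g G q w - tau b g G (q + 1) w)).re =
            3 / 4 - (tau b g G q w - tau b g G (q + 1) w).re := by
          rw [Complex.sub_re]
          norm_num
        rw [e2]
        linarith) (by
        have e1 : ∀ w, ENNReal.ofReal (3 / 2 * ∑ q' ∈ Finset.range (q + 1), dens f b g (G q') w) =
            ENNReal.ofReal (3 / 2) * ∑ q' ∈ Finset.range (q + 1),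
              ENNReal.ofReal (dens f b g (G q') w) := by
          intro w
          rw [ENNReal.ofReal_mul (by norm_num), ENNReal.ofReal_sum_of_nonneg fun q' _ => (hV3 q' w).1]
        simp_rw [e1]
        rw [lintegral_const_mul' _ _ ENNReal.ofReal_ne_top, lintegral_finsetSum' _ hdm,
          ENNReal.ofReal_mul (by norm_num : (0:ℝ) ≤ 3 / 2)]
        gcongr
        refine le_trans ?_ hint
        exact Finset.sum_le_sum_of_subset (Finset.range_subset_range.2 (by omega)))
    have hl := hlev (q + 1) (by omega) hq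
    have e1 : (tau b g G q w₀ - tau b g G (q + 1) w₀).re ≤ 1 / 100 := by
      refine (Complex.re_le_norm _).trans ?_
      have : lev b g G (q + 1) w₀ = ‖tau b g G q w₀ - tau b g G (q + 1) w₀‖ := rfl
      rw [← this]
      exact hl
    have e2 : (3 / 4 - (tau b g G q w₀ - tau b g G (q + 1) w₀)).re =
        3 / 4 - (tau b g G q w₀ - tau b g G (q + 1) w₀).re := by
      rw [Complex.sub_re]
      norm_num
    rw [e2] at hmean
    have e3 := Real.pi_gt_three
    have e4 : 0 < r ^ 2 := by positivity
    have e5 : 3 * r ^ 2 * (1 / 2) ≤ Real.pi * r ^ 2 *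
        (3 / 4 - (tau b g G q w₀ - tau b g G (q + 1) w₀).re) := by
      have e6 : (1 / 2 : ℝ) ≤ 3 / 4 - (tau b g G q w₀ - tau b g G (q + 1) w₀).re := by linarith
      gcongr
    nlinarith

end PPS
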