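import Pool.Agent.helper36.PP.SpecA

/-! pp:ERQ -/

set_option autoImplicit false

open Complex Metric Set Filter Topology MeasureTheory MPS

noncomputable section

namespace PPS

theorem ERQ_cont {k : ℕ} [NeZero k] (f : Polynomial ℂ) (b g : ZMod k → ℂ) :
    Continuous (QQ f b g) := by
  unfold QQ
  fun_prop

theorem ERQ (hTB : TB_stmt) (hTL1 : TL1_stmt) (hPRB : PRB_stmt) (hMI : MI_stmt) : ERQ_stmt := by
  intro n k _ f b g hn hdeg hcyc hex
  have hf1 : 1 ≤ f.natDegree := by omega
  have hae : ∀ᵐ z : ℂ, er f b g z = TT f (QQ f b g) z := by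
    have hfin : (CV f ∪ Set.range b).Finite :=
      ((hPRB f hf1).2.2.2.2.1).union (Set.finite_range b)
    have h1 : ∀ᵐ z : ℂ, z ∉ CV f ∪ Set.range b := by
      have h2 := hfin.measure_zero (volume : Measure ℂ)
      exact measure_eq_zero_iff_ae_notMem.1 h2
    filter_upwards [h1] with z hz
    refine (hTB n k f b g hn hdeg hcyc hex z (fun h => hz (Or.inl h)) ?_).2
    intro i hi
    exact hz (Or.inr ⟨i, hi.symm⟩)
  refine ⟨hae, ?_⟩
  intro R C hR hinv hQ
  have hC : 0 ≤ C := (norm_nonneg _).trans (hQ 0 (by simpa using hR.le))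
  have hb1 : ∫⁻ z in ball (0 : ℂ) R, ENNReal.ofReal ‖er f b g z‖ ≤ ENNReal.ofReal (C * Real.pi * R ^ 2) := by
    calc ∫⁻ z in ball (0 : ℂ) R, ENNReal.ofReal ‖er f b g z‖
        = ∫⁻ z in ball (0 : ℂ) R, ENNReal.ofReal ‖TT f (QQ f b g) z‖ := by
          refine lintegral_congr_ae ?_
          filter_upwards [ae_restrict_of_ae hae] with z hz
          rw [hz]
      _ ≤ ∫⁻ z in ball (0 : ℂ) R, ENNReal.ofReal ‖QQ f b g z‖ :=
          hTL1 f R (QQ f b g) hf1 hinv (ERQ_cont f b g).measurable
      _ ≤ ∫⁻ z in ball (0 : ℂ) R, ENNReal.ofReal C := by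
          refine setLIntegral_mono' measurableSet_ball fun z hz => ?_
          refine ENNReal.ofReal_le_ofReal (hQ z ?_)
          rw [mem_ball_zero_iff] at hz
          exact hz.le
      _ = ENNReal.ofReal (C * Real.pi * R ^ 2) := by
          rw [setLIntegral_const, Complex.volume_ball, ← ENNReal.ofReal_pow hR.le,
            ← ENNReal.ofReal_coe_nnreal, NNReal.coe_real_pi, ← ENNReal.ofReal_mul (by positivity),
            ← ENNReal.ofReal_mul hC]
          congr 1
          ring
  have hnn : 0 ≤ C * Real.pi * R ^ 2 := by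
    have := Real.pi_pos
    positivity
  have hmeas : Measurable (er f b g) := (hMI k f b g hf1).2.2.1
  have hint : IntegrableOn (er f b g) (ball (0 : ℂ) R) := by
    refine ⟨hmeas.aestronglyMeasurable, ?_⟩
    rw [hasFiniteIntegral_iff_norm]
    exact hb1.trans_lt ENNReal.ofReal_lt_top
  refine ⟨hint, ?_⟩
  rw [integral_eq_lintegral_of_nonneg_ae (Eventually.of_forall fun z => norm_nonneg _)
    hmeas.norm.aestronglyMeasurable]
  exact ENNReal.toReal_le_of_le_ofReal hnn hb1

end PPS
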