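import Pool.Agent.helper36.PP.SpecB

/-! pp:LEA -/

set_option autoImplicit false

open Complex Metric Set Filter Topology MeasureTheory MPS

noncomputable section

namespace PPS

theorem LEA_BB {k : ℕ} [NeZero k] (b g : ZMod k → ℂ) (F : ℂ → ℂ) (Ω : Set ℂ) (hF : DifferentiableOn ℂ F Ω)
    (h : ∀ w ∈ Ω, ∀ m, F w ≠ b m) : DifferentiableOn ℂ (fun w => BB b g (F w)) Ω := by
  unfold BB
  refine DifferentiableOn.fun_sum fun i _ => ?_
  have h1 : DifferentiableOn ℂ (fun w => F w - b i) Ω := hF.sub (differentiableOn_const _)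
  have h2 : ∀ w ∈ Ω, F w - b i ≠ 0 := fun w hw => sub_ne_zero.2 (h w hw i)
  exact ((differentiableOn_const _).div (h1.pow 2) fun w hw => pow_ne_zero 2 (h2 w hw)).add
    ((differentiableOn_const _).div h1 h2)

theorem LEA : LEA_stmt := by
  intro k _ f b g G Ω Q hcyc hO hL
  have h1 : ∀ q ≤ Q, ∀ w ∈ Ω, ∀ m, G q w ≠ b m := by
    intro q
    induction q with
    | zero => intro _ w hw m; exact hL.nat0.av w hw m
    | succ q ih =>
      intro hq w hw m he
      refine ih (by omega) w hw (m + 1) ?_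
      rw [← (hL.rel q (by omega) w hw).1, he, hcyc.step]
  have h2 : ∀ q ≤ Q, ∀ w ∈ Ω, ∀ (y : ℂ) (m : ZMod k), f.eval y = G q w → y ≠ b m := by
    intro q hq w hw y m hy he
    refine h1 q hq w hw (m + 1) ?_
    rw [← hy, he, hcyc.step]
  have hd : ∀ q ≤ Q, DifferentiableOn ℂ (fun w => deriv (G q) w ^ 2) Ω := fun q hq =>
    ((hL.diff q hq).deriv hO).pow 2
  have h4 : ∀ q < Q, ∀ w ∈ Ω, deriv (G q) w = fd f (G (q + 1) w) * deriv (G (q + 1)) w := by
    intro q hq w hw
    have h1 : DifferentiableAt ℂ (G (q + 1)) w := (hL.diff (q + 1) hq).differentiableAt (hO.mem_nhds hw)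
    have h2 : HasDerivAt (fun z => f.eval (G (q + 1) z))
        (f.derivative.eval (G (q + 1) w) * deriv (G (q + 1)) w) w :=
      (f.hasDerivAt (G (q + 1) w)).comp w h1.hasDerivAt
    have h3 : G q =ᶠ[𝓝 w] fun z => f.eval (G (q + 1) z) := by
      filter_upwards [hO.mem_nhds hw] with z hz
      exact ((hL.rel q hq z hz).1).symm
    rw [h3.deriv_eq, h2.deriv]
    rfl
  refine ⟨h1, h2, fun q hq => ?_, h4, ?_⟩
  · exact (hd q hq).mul (LEA_BB b g (G q) Ω (hL.diff q hq) (h1 q hq))
  · intro q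
    induction q with
    | zero =>
      intro _ w hw h0
      have := hL.nat0.eq w hw
      rw [h0] at this
      norm_num at this
    | succ q ih =>
      intro hq w hw h0
      apply ih (by omega) w hw
      rw [h4 q (by omega) w hw, h0, mul_zero]

end PPS
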