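import Pool.Agent.helper36.PP.SpecA

/-! pp:QI -/

set_option autoImplicit false

open Complex Metric Set Filter Topology MeasureTheory MPS

noncomputable section

namespace PPS

/-- the divided difference of `f'`. -/
def QI_D (f : Polynomial ℂ) (u y : ℂ) : ℂ :=
  ∑ m ∈ Finset.range (f.natDegree - 1), u ^ m *
    ∑ l ∈ Finset.Ico (m + 1) f.natDegree, f.derivative.coeff l * y ^ (l - 1 - m)

/-- its derivative in `u`. -/
def QI_E (f : Polynomial ℂ) (u y : ℂ) : ℂ :=
  ∑ m ∈ Finset.range (f.natDegree - 1), ((m : ℂ) * u ^ (m - 1)) *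
    ∑ l ∈ Finset.Ico (m + 1) f.natDegree, f.derivative.coeff l * y ^ (l - 1 - m)

theorem QI_fd (f : Polynomial ℂ) (hf : 1 ≤ f.natDegree) (y : ℂ) :
    fd f y = ∑ l ∈ Finset.range f.natDegree, f.derivative.coeff l * y ^ l := by
  unfold fd
  refine Polynomial.eval_eq_sum_range' ?_ y
  have := Polynomial.natDegree_derivative_lt (p := f) (by omega)
  exact this

theorem QI_Dmul (f : Polynomial ℂ) (hf : 2 ≤ f.natDegree) (u y : ℂ) :
    QI_D f u y * (y - u) = fd f y - fd f u := by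
  unfold QI_D
  rw [QI_fd f (by omega), QI_fd f (by omega), ← Finset.sum_sub_distrib]
  have h1 : ∑ m ∈ Finset.range (f.natDegree - 1), u ^ m *
      ∑ l ∈ Finset.Ico (m + 1) f.natDegree, f.derivative.coeff l * y ^ (l - 1 - m) =
      ∑ m ∈ Finset.Ico 0 f.natDegree, ∑ l ∈ Finset.Ico (m + 1) f.natDegree,
        f.derivative.coeff l * (u ^ m * y ^ (l - 1 - m)) := by
    have h2 : f.natDegree = f.natDegree - 1 + 1 := by omega
    rw [← Finset.range_eq_Ico]
    conv_rhs => rw [h2]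
    rw [Finset.sum_range_succ, ← h2]
    rw [Finset.Ico_self, Finset.sum_empty, add_zero]
    refine Finset.sum_congr rfl fun m _ => ?_
    rw [Finset.mul_sum]
    refine Finset.sum_congr rfl fun l _ => ?_
    ring
  rw [h1, Finset.sum_Ico_Ico_comm', ← Finset.range_eq_Ico, Finset.sum_mul]
  refine Finset.sum_congr rfl fun l _ => ?_
  rw [← Finset.range_eq_Ico, ← Finset.mul_sum, mul_assoc, ← mul_sub]
  congr 1
  have h3 := geom_sum₂_mul u y l
  have h4 : ∑ m ∈ Finset.range l, u ^ m * y ^ (l - 1 - m) * (y - u) = -(u ^ l - y ^ l) := by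
    rw [← h3, ← Finset.sum_mul]
    ring
  rw [Finset.sum_mul, h4]
  ring

theorem QI_deriv (f : Polynomial ℂ) (u y : ℂ) : HasDerivAt (fun u => QI_D f u y) (QI_E f u y) u := by
  unfold QI_D QI_E
  exact HasDerivAt.fun_sum fun m _ => (hasDerivAt_pow m u).mul_const _

theorem QI_Emul (f : Polynomial ℂ) (hf : 2 ≤ f.natDegree) (u y : ℂ) (h : y ≠ u) :
    QI_E f u y = (-fdd f u * (y - u) + (fd f y - fd f u)) / (y - u) ^ 2 := by
  have h1 := QI_deriv f u y
  have h0 : y - u ≠ 0 := sub_ne_zero.2 h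
  have h2 : HasDerivAt (fun u => (fd f y - fd f u) / (y - u))
      (((-(fdd f u)) * (y - u) - (fd f y - fd f u) * (-1)) / (y - u) ^ 2) u := by
    have h3 : HasDerivAt (fun u => fd f y - fd f u) (-(fdd f u)) u :=
      (f.derivative.hasDerivAt u).const_sub _
    have h4 : HasDerivAt (fun u : ℂ => y - u) (-1) u := (hasDerivAt_id u).const_sub y
    exact h3.div h4 h0
  have h3 : (fun u => QI_D f u y) =ᶠ[𝓝 u] fun u => (fd f y - fd f u) / (y - u) := by
    have h5 : ∀ᶠ u' in 𝓝 u, u' ≠ y := eventually_ne_nhds h.symm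
    filter_upwards [h5] with u' hu'
    rw [eq_div_iff (sub_ne_zero.2 hu'.symm)]
    exact QI_Dmul f hf u' y
  rw [h1.unique (h2.congr_of_eventuallyEq h3)]
  ring

theorem QI_QQ {k : ℕ} [NeZero k] (f : Polynomial ℂ) (b g : ZMod k → ℂ) (y : ℂ) :
    QQ f b g y = ∑ i, (QI_E f (b i) y / fd f (b i) + g (i + 1) * QI_D f (b i) y) := by
  unfold QQ lam QI_E QI_D
  simp only [Finset.sum_mul]
  rw [Finset.sum_comm]
  refine Finset.sum_congr rfl fun i _ => ?_
  rw [Finset.sum_div, Finset.mul_sum, ← Finset.sum_add_distrib]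
  refine Finset.sum_congr rfl fun m _ => ?_
  ring

theorem QI : QI_stmt := by
  intro n k _ f b g hn hdeg hcyc hex y hy
  have hf : 2 ≤ f.natDegree := by omega
  rw [QI_QQ]
  unfold BB
  rw [← Finset.sum_add_distrib, Finset.mul_sum]
  refine Finset.sum_congr rfl fun i _ => ?_
  have h0 : y - b i ≠ 0 := sub_ne_zero.2 (hy i)
  have h1 := hcyc.ne0 i
  rw [QI_Emul f hf (b i) y (hy i)]
  have h2 : QI_D f (b i) y = (fd f y - fd f (b i)) / (y - b i) := by
    rw [eq_div_iff h0]
    exact QI_Dmul f hf (b i) y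
  have h3 : g i = fd f (b i) * g (i + 1) + fdd f (b i) / fd f (b i) := by
    rw [hex i]
    field_simp
    ring
  rw [h2, h3]
  field_simp
  ring

end PPS
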