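import Pool.Agent.helper36.PP.SpecA

/-! pp:TB -/

set_option autoImplicit false

open Complex Metric Set Filter Topology MeasureTheory MPS

noncomputable section

namespace PPS

theorem TB_sum_comm {k : ℕ} [NeZero k] (s : Multiset ℂ) (F : ZMod k → ℂ → ℂ) :
    (s.map fun y => ∑ i, F i y).sum = ∑ i, (s.map (F i)).sum := by
  induction s using Multiset.induction_on with
  | empty => simp
  | cons a s ih =>
    simp only [Multiset.map_cons, Multiset.sum_cons]
    rw [ih, Finset.sum_add_distrib]

theorem TB (hPRB : PRB_stmt) (hPF : PF_stmt) (hQI : QI_stmt) : TB_stmt := by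
  intro n k _ f b g hn hdeg hcyc hex z hz hzb
  have hf : 1 ≤ f.natDegree := by omega
  obtain ⟨hmem, -, -, -, -, -⟩ := hPRB f hf
  have key : TT f (fun y => BB b g y + QQ f b g y) z = BB b g z := by
    unfold TT
    have h1 : ∀ y ∈ pre f z, (BB b g y + QQ f b g y) / fd f y ^ 2 =
        ∑ i, ((fd f (b i))⁻¹ * (1 / ((y - b i) ^ 2 * fd f y)) +
          g (i + 1) * (1 / ((y - b i) * fd f y))) := by
      intro y hy
      have hy' := (hmem z y).1 hy
      have hfd : fd f y ≠ 0 := fun h => hz ⟨y, h, hy'⟩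
      have hyb : ∀ i, y ≠ b i := by
        intro i he
        apply hzb (i + 1)
        rw [← hy', he, hcyc.step]
      rw [hQI n k f b g hn hdeg hcyc hex y hyb, Finset.mul_sum, Finset.sum_div]
      refine Finset.sum_congr rfl fun i _ => ?_
      have h0 : y - b i ≠ 0 := sub_ne_zero.2 (hyb i)
      have h1 := hcyc.ne0 i
      field_simp
    rw [Multiset.map_congr rfl h1, TB_sum_comm]
    have h2 : ∀ i, ((pre f z).map fun y => (fd f (b i))⁻¹ * (1 / ((y - b i) ^ 2 * fd f y)) +
          g (i + 1) * (1 / ((y - b i) * fd f y))).sum =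
        1 / (z - b (i + 1)) ^ 2 + g (i + 1) / (z - b (i + 1)) := by
      intro i
      have hne : f.eval (b i) ≠ z := by
        rw [hcyc.step]
        exact (hzb (i + 1)).symm
      obtain ⟨e1, e2⟩ := hPF f hf z hz (b i) hne
      rw [Multiset.sum_map_add, Multiset.sum_map_mul_left, Multiset.sum_map_mul_left, e1, e2,
        hcyc.step]
      have h1 := hcyc.ne0 i
      have h0 : z - b (i + 1) ≠ 0 := sub_ne_zero.2 (hzb (i + 1))
      field_simp
    rw [Finset.sum_congr rfl fun i _ => h2 i]
    unfold BB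
    exact Equiv.sum_comp (Equiv.addRight (1 : ZMod k)) fun i => 1 / (z - b i) ^ 2 + g i / (z - b i)
  refine ⟨key, ?_⟩
  unfold er
  rw [← key]
  unfold TT
  rw [sub_eq_iff_eq_add, ← Multiset.sum_map_add]
  refine congrArg Multiset.sum (Multiset.map_congr rfl fun y _ => ?_)
  ring

end PPS
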