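import Pool.Agent.helper1.PP.NOG
import Pool.Agent.helper11.PP.LIM2
import Pool.Agent.helper11.PP.PHI
import Pool.Agent.helper13.PP.REL2
import Pool.Agent.helper16.PP.INC
import Pool.Agent.helper16.PP.IP
import Pool.Agent.helper16.PP.P1A
import Pool.Agent.helper16.PP.P2L
import Pool.Agent.helper16.PP.PH2
import Pool.Agent.helper19.PP.MX
import Pool.Agent.helper19.PP.SEQ2
import Pool.Agent.helper21.PP.MU2
import Pool.Agent.helper21.PP.TRA
import Pool.Agent.helper24.PP.ERV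
import Pool.Agent.helper24.PP.FIX
import Pool.Agent.helper24.PP.LC3
import Pool.Agent.helper24.PP.TG
import Pool.Agent.helper24.PP.THC
import Pool.Agent.helper28.PP.FA
import Pool.Agent.helper28.PP.PAIR
import Pool.Agent.helper28.PP.PNX
import Pool.Agent.helper28.PP.WIN
import Pool.Agent.helper29.PP.EV1
import Pool.Agent.helper29.PP.PT1
import Pool.Agent.helper29.PP.STEP1
import Pool.Agent.helper3.PP.ROW
import Pool.Agent.helper30.PP.LT
import Pool.Agent.helper30.PP.P1U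
import Pool.Agent.helper30.PP.STEP2
import Pool.Agent.helper30.PP.TR
import Pool.Agent.helper30.PP.TRI
import Pool.Agent.helper31.PP.FL
import Pool.Agent.helper31.PP.NG3
import Pool.Agent.helper33.PP.RADX
import Pool.Agent.helper34.PP.CYC
import Pool.Agent.helper36.PP.BDY
import Pool.Agent.helper36.PP.CMP
import Pool.Agent.helper36.PP.ERQ
import Pool.Agent.helper36.PP.EVT
import Pool.Agent.helper36.PP.LEA
import Pool.Agent.helper36.PP.LEI
import Pool.Agent.helper36.PP.LIFT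
import Pool.Agent.helper36.PP.LUN
import Pool.Agent.helper36.PP.LV
import Pool.Agent.helper36.PP.PEX
import Pool.Agent.helper36.PP.PF
import Pool.Agent.helper36.PP.PRB
import Pool.Agent.helper36.PP.QI
import Pool.Agent.helper36.PP.TB
import Pool.Agent.helper43.PP.FLC
import Pool.Agent.helper43.PP.NGFA
import Pool.Agent.helper45.PP.PAIR2
import Pool.Agent.helper50.PP.SHF
import Pool.Agent.helper50.PP.THB
import Pool.Agent.helper50.PP.ZCY
import Pool.Agent.helper51.PP.COC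
import Pool.Agent.helper51.PP.IP2
import Pool.Agent.helper51.PP.KRE
import Pool.Agent.helper51.PP.MU1
import Pool.Agent.helper51.PP.P2A
import Pool.Agent.helper51.PP.P2H
import Pool.Agent.helper51.PP.ROTQ
import Pool.Agent.helper52.PP.NG1
import Pool.Agent.helper52.PP.P1L
import Pool.Agent.helper52.PP.VAN
import Pool.Agent.helper53.PP.BF
import Pool.Agent.helper53.PP.DG
import Pool.Agent.helper53.PP.SEQ1
import Pool.Agent.helper58.PP.TRU
import Pool.Agent.helper59.PP.RADI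
import Pool.Agent.helper6.PP.SD2
import Pool.Agent.helper60.PP.EV2
import Pool.Agent.helper60.PP.LNZ
import Pool.Agent.helper60.PP.REL
import Pool.Agent.helper60.PP.ZLP
import Pool.Agent.helper61.PP.PH1
import Pool.Agent.helper61.PP.PU
import Pool.Agent.helper62.PP.MAINB
import Pool.Agent.helper63.PP.FLX
import Pool.Agent.helper64.PP.ERI
import Pool.Agent.helper64.PP.FRQ
import Pool.Agent.helper65.PP.K1
import Pool.Agent.helper65.PP.RAD
import Pool.Agent.helper67.PP.KER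
import Pool.Agent.helper69.PP.MI
import Pool.Agent.helper69.PP.MS
import Pool.Agent.helper70.PP.LIM
import Pool.Agent.helper70.PP.THB0
import Pool.Agent.helper72.PP.ATF
import Pool.Agent.helper72.PP.MCV
import Pool.Agent.helper72.PP.NB
import Pool.Agent.helper75.PP.FC
import Pool.Agent.helper75.PP.FD
import Pool.Agent.helper75.PP.PT2
import Pool.Agent.helper75.PP.RAN
import Pool.Agent.helper77.PP.REACH1
import Pool.Agent.helper84.PP.INQ
import Pool.Agent.helper87.PP.INF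
import Pool.Agent.helper87.PP.MD
import Pool.Agent.helper89.PP.LC1
import Pool.Agent.helper89.PP.TL1
import Pool.Agent.helper91.PP.CTA
import Pool.Agent.helper91.PP.FLY
import Pool.Agent.helper91.PP.SD1
import Pool.Agent.helper92.PP.CON1
import Pool.Agent.helper93.PP.NGA
import Pool.Agent.helper93.PP.P1W
import Pool.Agent.helper95.PP.CB
import Pool.Agent.helper95.PP.JBD
import Pool.Agent.helper95.PP.JUL
import Pool.Agent.helper95.PP.MA
import Pool.Agent.helper95.PP.MAT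
import Pool.Agent.helper95.PP.QB
import Pool.Agent.helper97.PP.NG2
import Pool.Agent.helper97.PP.REACH2
import Pool.Agent.helper98.PP.INQ2
import Pool.Agent.helper99.PP.PHW
import Pool.Agent.helper36.MP.All
import Pool.Agent.helper74.MQ.All
import Pool.Agent.helper90.NL.CTB
import Pool.Agent.helper70.NL.CTH
import Pool.Agent.helper31.NL.CT0
import Pool.Agent.helper79.NL.MAXP

/-! pp: assembly of all modules. -/

set_option autoImplicit false

noncomputable section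

namespace PPS

theorem PRB_p : PRB_stmt := PRB
theorem PF_p : PF_stmt := PF
theorem QI_p : QI_stmt := QI
theorem TB_p : TB_stmt := TB PRB_p PF_p QI_p
theorem TG_p : TG_stmt := TG
theorem QB_p : QB_stmt := QB
theorem MS_p : MS_stmt := MS
theorem MCV_p : MCV_stmt := MCV PRB_p MS_p
theorem MI_p : MI_stmt := MI
theorem TL1_p : TL1_stmt := TL1 MCV_p
theorem ERQ_p : ERQ_stmt := ERQ TB_p TL1_p PRB_p MI_p
theorem ERI_p : ERI_stmt := ERI TG_p ERQ_p TL1_p MI_p MPS.MI_ok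
theorem MD_p : MD_stmt := MD MPS.MI_ok MI_p MCV_p ERI_p
theorem MA_p : MA_stmt := MA MI_p ERI_p MD_p
theorem TR_p : TR_stmt := TR
theorem NGA_p : NGA_stmt := NGA
theorem NGFA_p : NGFA_stmt := NGFA
theorem LUN_p : LUN_stmt := LUN
theorem LIFT_p : LIFT_stmt := LIFT
theorem BDY_p : BDY_stmt := BDY LUN_p
theorem PEX_p : PEX_stmt := PEX
theorem EVT_p : EVT_stmt := EVT PRB_p MI_p LUN_p PEX_p LIFT_p MPS.HCH_ok
theorem LEA_p : LEA_stmt := LEA
theorem LEI_p : LEI_stmt := LEI PRB_p LEA_p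
theorem LV_p : LV_stmt := LV LEI_p MI_p
theorem P1A_p : P1A_stmt := P1A MPS.NI_ok MPS.NH_ok
theorem P1U_p : P1U_stmt := P1U
theorem COC_p : COC_stmt := COC
theorem DG_p : DG_stmt := DG
theorem P1L_p : P1L_stmt := P1L LEA_p LV_p P1A_p P1U_p MI_p MA_p
theorem MU1_p : MU1_stmt := MU1 P1A_p P1L_p LEA_p MPS.HSM_ok
theorem PT1_p : PT1_stmt := PT1 MU1_p P1A_p P1U_p MPS.HMX_ok LV_p
theorem PHI_p : PHI_stmt := PHI P1U_p PT1_p
theorem PNX_p : PNX_stmt := PNX LEA_p P1A_p P1U_p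
theorem INC_p : INC_stmt := INC DG_p P1U_p PHI_p PNX_p MPS.NH_ok
theorem REACH1_p : REACH1_stmt := REACH1 LEA_p P1A_p MPS.NH_ok MPS.NPL_ok INC_p MPS.ND_ok PT1_p
theorem EV1_p : EV1_stmt := EV1 BDY_p EVT_p P1A_p LEA_p LEI_p LV_p MI_p MA_p PT1_p
theorem STEP1_p : STEP1_stmt := STEP1 LUN_p
theorem SEQ1_p : SEQ1_stmt := SEQ1 STEP1_p
theorem PH1_p : PH1_stmt := PH1 SEQ1_p MU1_p REACH1_p MPS.CHEB_ok EV1_p P1A_p LIFT_p PRB_p
theorem P2H_p : P2H_stmt := P2H MPS.NFI_ok PT1_p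
theorem P2A_p : P2A_stmt := P2A LUN_p P2H_p
theorem P2L_p : P2L_stmt := P2L LEA_p LV_p MI_p MA_p MPS.HAR_ok P2A_p
theorem MU2_p : MU2_stmt := MU2 P2A_p P2L_p LEA_p MPS.HSM_ok
theorem PT2_p : PT2_stmt := PT2 P2L_p MPS.HSM_ok P2A_p LEA_p LV_p
theorem REACH2_p : REACH2_stmt := REACH2 MPS.NPL_ok MPS.NHP_ok LEA_p INC_p P2H_p P2A_p PT2_p
theorem EV2_p : EV2_stmt := EV2 BDY_p EVT_p LEI_p LEA_p LV_p MA_p MI_p P2A_p PT2_p
theorem STEP2_p : STEP2_stmt := STEP2 LUN_p INC_p P2H_p P2A_p MPS.NHP_ok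
theorem SEQ2_p : SEQ2_stmt := SEQ2 STEP2_p
theorem PH2_p : PH2_stmt := PH2 SEQ2_p MU2_p REACH2_p EV2_p MPS.CHEB_ok LIFT_p PRB_p
theorem SHF_p : SHF_stmt := SHF
theorem P1W_p : P1W_stmt := P1W NGA_p PH1_p
theorem PHW_p : PHW_stmt := PHW NGA_p NGFA_p MPS.ND_ok PH1_p PH2_p
theorem KRE_p : KRE_stmt := KRE P1W_p INC_p COC_p SHF_p TR_p
theorem ROTQ_p : ROTQ_stmt := ROTQ LUN_p MPS.NH_ok PT2_p P2A_p LEA_p INC_p
theorem FRQ_p : FRQ_stmt := FRQ TR_p MPS.NOSL_ok SHF_p PHW_p P1W_p KRE_p ROTQ_p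
theorem CMP_p : CMP_stmt := CMP LUN_p PRB_p LV_p LEA_p MI_p
theorem LT_p : LT_stmt := LT SHF_p MQ.SHF_t TR_p MPS.NH_ok P1W_p PHW_p KRE_p INC_p ROTQ_p CMP_p
  MA_p P1A_p P2A_p PT1_p PT2_p MQ.GL_t MQ.RE0_t
theorem NG1_p : NG1_stmt := NG1 LT_p COC_p MQ.SYM_t MQ.PLA_t
theorem NG2_p : NG2_stmt := NG2 LT_p COC_p MQ.SYM_t MQ.UNQ_t MQ.PLA_t
theorem NG3_p : NG3_stmt := NG3 LT_p MQ.SYM_t MQ.UNQ_t MQ.PLB_t COC_p
theorem NOG_p : NOG_stmt := NOG NG1_p NG2_p NG3_p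
theorem WIN_p : WIN_stmt := WIN FRQ_p MQ.WB_t MQ.WR_t MQ.DPR_t MPS.NOSL_ok COC_p
theorem MAINB_p : MAINB_stmt := MAINB WIN_p NOG_p MQ.REP_t MPS.NM_ok MQ.HIT_t MQ.LOCZ_t MQ.HINJ_t
  MQ.HPER_t MQ.CONF_t MQ.SELF_t MQ.COMB_t MPS.TP_ok MQ.SYM_t
theorem RAD_p : RAD_stmt := RAD
theorem THB0_p : THB0_stmt := THB0 RAD_p MAINB_p ERI_p
theorem THB_p : THB_stmt := THB THB0_p ERQ_p QB_p
theorem K1_p : K1_stmt := K1
theorem THC_p : THC_stmt := THC THB_p K1_p
theorem ZCY_p : ZCY_stmt := ZCY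
theorem ZLP_p : ZLP_stmt := ZLP
theorem FA_p : FA_stmt := FA THC_p ZCY_p TG_p ZLP_p
theorem CON_p : CON_stmt := CON MPS.ZC0_ok
theorem FIX_p : FIX_stmt := FIX
theorem FD_p : FD_stmt := FD FA_p FIX_p CON_p MPS.ZBC_ok
theorem FC_p : FC_stmt := FC FD_p
theorem CB_p : CB_stmt := CB PRB_p MS_p MCV_p
theorem NB_p : NB_stmt := NB MS_p MCV_p
theorem IP_p : IP_stmt := IP CB_p NB_p PRB_p
theorem RAN_p : RAN_stmt := RAN PRB_p
theorem CTA_p : CTA_stmt := CTA (NLF.CTB MPS.MI_ok) NLF.CTH (NLF.CT0 (NLF.CTB MPS.MI_ok))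
theorem REL_p : REL_stmt := REL IP_p CTA_p PF_p PRB_p
theorem JUL_p : JUL_stmt := JUL CTA_p
theorem LNZ_p : LNZ_stmt := LNZ IP_p RAN_p REL_p JUL_p CTA_p PRB_p NLF.MAXP
theorem RADI_p : RADI_stmt := RADI
theorem SD1_p : SD1_stmt := SD1 MPS.MI_ok
theorem SD2_p : SD2_stmt := SD2 MPS.MI_ok
theorem PAIR_p : PAIR_stmt := PAIR IP_p
theorem LIM_p : LIM_stmt := LIM ERQ_p IP_p
theorem INQ_p : INQ_stmt := INQ RADI_p SD1_p SD2_p PAIR_p LIM_p
theorem ERV_p : ERV_stmt := ERV RAN_p ERQ_p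
theorem MAT_p : MAT_stmt := MAT
theorem JBD_p : JBD_stmt := JBD
theorem FL_p : FL_stmt := FL THB0_p PRB_p JBD_p CTA_p LNZ_p MAT_p ERV_p INQ_p ZCY_p TG_p MPS.MI_ok
theorem FLC_p : FLC_stmt := FLC FL_p
theorem IP2_p : IP2_stmt := IP2 CB_p NB_p PRB_p
theorem REL2_p : REL2_stmt := REL2 IP2_p CTA_p PF_p PRB_p
theorem VAN_p : VAN_stmt := VAN IP2_p RAN_p REL2_p CTA_p PRB_p
theorem PAIR2_p : PAIR2_stmt := PAIR2 IP2_p
theorem LIM2_p : LIM2_stmt := LIM2 ERQ_p IP2_p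
theorem INQ2_p : INQ2_stmt := INQ2 RADI_p SD1_p SD2_p PAIR2_p LIM2_p
theorem BF_p : BF_stmt := BF
theorem PU_p : PU_stmt := PU
theorem ROW_p : ROW_stmt := ROW BF_p PU_p
theorem INF_p : INF_stmt := INF
theorem LC1_p : LC1_stmt := LC1
theorem LC3_p : LC3_stmt := LC3
theorem CYC_p : CYC_stmt := CYC LC1_p LC3_p
theorem MX_p : MX_stmt := MX
theorem TRA_p : TRA_stmt := TRA
theorem TRU_p : TRU_stmt := TRU TRA_p
theorem TRI_p : TRI_stmt := TRI
theorem ATF_p : ATF_stmt := ATF TRA_p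
theorem RADX_p : RADX_stmt := RADX TRA_p TRU_p TRI_p ATF_p
theorem KER_p : KER_stmt := KER VAN_p INF_p CYC_p MX_p LNZ_p CTA_p
theorem FLX_p : FLX_stmt := FLX THB0_p PRB_p JBD_p RAD_p CTA_p MAT_p ERV_p INQ2_p ZCY_p TG_p ROW_p
  RADX_p KER_p MPS.MI_ok
theorem FLY_p : FLY_stmt := FLY FLX_p

end PPS
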