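import Pool.Agent.helper36.PP.SpecA

/-!
# Project pp: (MP_70a088_an): part B (levels, Phase 1)

Rules: see SpecA. Most statements are those of `MPS` (Pool/Agent/helper36/MP/SpecP.lean) with `f.eval y` instead of `y ^ n + c`. The
main difference: `lev b g G q = ‖τ_{q-1} - τ_q‖` (one holomorphic function per level) replaces the sum over the other branches, and
critical values may be in the images `G q (Ω)` (other branches may ramify there).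
-/

set_option autoImplicit false

open Complex Metric Set Filter Topology MeasureTheory MPS

noncomputable section

namespace PPS

/-! ## Levels -/

/-- LEA: avoidance of the cycle, holomorphy (helper44/MP/LEA.lean).
PROOF. `G 0` avoids `b m` (nat0). If `f y = G q w` and `y = b m` then `G q w = b (m+1)`; induction (`y = G (q+1) w`). `BB b g` is holomorphic off the `b m`. `deriv (G q) = fd f (G (q+1)) * deriv (G (q+1))` (chain rule on the open set `Ω`), `deriv (G 0) w ≠ 0` by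
`IsNat.eq`. -/
def LEA_stmt : Prop := ∀ (k : ℕ) [NeZero k] (f : Polynomial ℂ) (b g : ZMod k → ℂ) (G : ℕ → ℂ → ℂ)
  (Ω : Set ℂ) (Q : ℕ), IsCyc f b → IsOpen Ω → LevSys f b g G Ω Q →
  (∀ q ≤ Q, ∀ w ∈ Ω, ∀ m, G q w ≠ b m) ∧
  (∀ q ≤ Q, ∀ w ∈ Ω, ∀ (y : ℂ) (m : ZMod k), f.eval y = G q w → y ≠ b m) ∧
  (∀ q ≤ Q, DifferentiableOn ℂ (tau b g G q) Ω) ∧
  (∀ q < Q, ∀ w ∈ Ω, deriv (G q) w = fd f (G (q + 1) w) * deriv (G (q + 1)) w) ∧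
  (∀ q ≤ Q, ∀ w ∈ Ω, deriv (G q) w ≠ 0)

/-- LEI: the identities between the level functions.
PROOF. LEA (derivatives), PRB (membership). `(deriv (G q) w)² * TT f BB (G q w) = ∑_{pre} brv` (`(G'/fd)² BB = G'² (BB/fd²)`, also if `fd = 0`), and `er = BB - TT BB`. -/
def LEI_stmt : Prop := ∀ (k : ℕ) [NeZero k] (f : Polynomial ℂ) (b g : ZMod k → ℂ) (G : ℕ → ℂ → ℂ)
  (Ω : Set ℂ) (Q : ℕ), 1 ≤ f.natDegree → IsCyc f b → IsOpen Ω → LevSys f b g G Ω Q →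
  (∀ w ∈ Ω, tau b g G 0 w = 1) ∧
  (∀ q < Q, ∀ w ∈ Ω, G (q + 1) w ∈ pre f (G q w) ∧
    brv f b g (G q) w (G (q + 1) w) = tau b g G (q + 1) w) ∧
  (∀ q ≤ Q, ∀ w ∈ Ω, tau b g G q w = ((pre f (G q w)).map (brv f b g (G q) w)).sum +
    deriv (G q) w ^ 2 * er f b g (G q w)) ∧
  (∀ q ≤ Q, ∀ w ∈ Ω, Df f b g (G q w) * ‖deriv (G q) w‖ ^ 2 =
    ((pre f (G q w)).map fun y => ‖brv f b g (G q) w y‖).sum -
      ‖tau b g G q w - deriv (G q) w ^ 2 * er f b g (G q w)‖)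

/-- LV: the deficit inequalities.
PROOF. Notation: `E_q = G_q'² er(G_q)`, `D_q = dens (G q) w = Df ‖G_q'‖² + 2‖E_q‖`, `h_{q+1} = τ_q - τ_{q+1} = ∑_{others} brv + E_q` (others: `(pre f (G q w)).erase (G (q+1) w)`).
(1) `∑_{q<Q'} ∑_{others} ‖brv‖ = ∑ (Df‖G_q'‖² + ‖τ_q - E_q‖ - ‖τ_{q+1}‖) ≤ ∑ (Df‖G_q'‖² + ‖E_q‖) + 1 - ‖τ_{Q'}‖`, `∑_q ∑_{others} re brv = 1 - re τ_{Q'} - ∑ re E_q`, and `‖h_{q+1}‖ - re h_{q+1} ≤ ∑_{others} (‖brv‖ - re brv) + ‖E_q‖ - re E_q`; add up.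
(2) `∑_{pre f (G Q' w)} ‖brv‖ = Df‖G'‖² + ‖τ_{Q'} - E_{Q'}‖ ≤ Df‖G'‖² + ‖E‖ + ‖τ_{Q'}‖`, `∑ re brv = re τ_{Q'} - re E`; with (1): `‖τ_{Q'}‖ - re τ_{Q'} ≤ ∑_{q<Q'} D_q`. (3) `0 ≤ Df` (triangle inequality, MI). (4) `τ_0 = 1`.
(5) from (2) (all terms are `≥ 0`) and `∑_{others} re brv = re h_{q+1} - re E_q`. -/
def LV_stmt : Prop := ∀ (k : ℕ) [NeZero k] (f : Polynomial ℂ) (b g : ZMod k → ℂ) (G : ℕ → ℂ → ℂ)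
  (Ω : Set ℂ) (Q : ℕ), 1 ≤ f.natDegree → IsCyc f b → IsOpen Ω → LevSys f b g G Ω Q →
  (∀ Q' ≤ Q, ∀ w ∈ Ω, (‖tau b g G Q' w‖ - (tau b g G Q' w).re) + ∑ q ∈ Finset.range Q',
      (lev b g G (q + 1) w - (tau b g G q w - tau b g G (q + 1) w).re) ≤
    ∑ q ∈ Finset.range Q', dens f b g (G q) w) ∧
  (∀ Q' ≤ Q, ∀ w ∈ Ω,
    ((pre f (G Q' w)).map fun y => ‖brv f b g (G Q') w y‖ - (brv f b g (G Q') w y).re).sum ≤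
      ∑ q ∈ Finset.range (Q' + 1), dens f b g (G q) w) ∧
  (∀ (q : ℕ) (w : ℂ), 0 ≤ dens f b g (G q) w ∧
    2 * (‖er f b g (G q w)‖ * ‖deriv (G q) w‖ ^ 2) ≤ dens f b g (G q) w) ∧
  (∀ q ≤ Q, ∀ w ∈ Ω, ‖tau b g G q w - 1‖ ≤ ∑ p ∈ Finset.Icc 1 q, lev b g G p w) ∧
  (∀ q < Q, ∀ w ∈ Ω,
    (((pre f (G q w)).erase (G (q + 1) w)).map fun y => ‖brv f b g (G q) w y‖).sum ≤
      ∑ q' ∈ Finset.range (q + 1), dens f b g (G q') w + (tau b g G q w - tau b g G (q + 1) w).re +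
        ‖er f b g (G q w)‖ * ‖deriv (G q) w‖ ^ 2)

/-! ## Phase 1 -/

/-- P1A: structure of a Phase 1 system (helper59/MP/P1A.lean; `MapsTo` by `SU.inv`). -/
def P1A_stmt : Prop := ∀ (n k : ℕ) [NeZero k] (f : Polynomial ℂ) (b g : ZMod k → ℂ)
  (ψ : ZMod k → ℂ → ℂ) (ra R ε δ : ℝ) (A : ℕ → ℝ) (G : ℕ → ℂ → ℂ) (Q : ℕ),
  H1 n k f b g ψ ra R ε δ A G Q →
  (∀ q ≤ Q, DifferentiableOn ℂ (G q) (ball 0 (Real.exp (-A q)))) ∧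
  (∀ q ≤ Q, InjOn (G q) (ball 0 (Real.exp (-A q)))) ∧
  (∀ q ≤ Q, MapsTo (G q) (ball 0 (Real.exp (-A q))) (ball 0 R)) ∧
  (∀ q ≤ Q, LevSys f b g (GW G) (HP (A q)) q) ∧
  (∀ q q', q < q' → q' < Q → Disjoint (G q '' ball 0 (Real.exp (-A (q + 1))))
    (G q' '' ball 0 (Real.exp (-A (q' + 1))))) ∧
  (∀ a, A Q ≤ a → (1 ≤ Q → Disjoint (G Q '' ball 0 (Real.exp (-a))) (ψ 0 '' ball 0 (Real.exp (-δ)))) →
    ∀ q q', q < q' → q' ≤ Q → Disjoint (G q '' ball 0 (Real.exp (-a)))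
      (G q' '' ball 0 (Real.exp (-a))))

/-- P1U: the level functions as functions of `u` near `0` (third and fourth part of `MPS.P1U`, helper30/MP/P1U.lean). -/
def P1U_stmt : Prop := ∀ (n k : ℕ) [NeZero k] (f : Polynomial ℂ) (b g : ZMod k → ℂ)
  (ψ : ZMod k → ℂ → ℂ) (ra R ε δ : ℝ) (A : ℕ → ℝ) (G : ℕ → ℂ → ℂ) (Q : ℕ),
  H1 n k f b g ψ ra R ε δ A G Q →
  (∀ q ≤ Q, ∃ H : ℂ → ℂ, DifferentiableOn ℂ H (ball 0 (Real.exp (-A q))) ∧ H 0 = 1 ∧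
      ∀ w ∈ HP (A q), tau b g (GW G) q w = H (Complex.exp w)) ∧
  (∀ q ≤ Q, deriv (G q) 0 ≠ 0)

/-- COC: algebra of the transport derivatives (`MQ.COC`, helper71/MQ/COC.lean). -/
def COC_stmt : Prop := ∀ (k : ℕ) [NeZero k] (f : Polynomial ℂ) (b : ZMod k → ℂ)
  (ψ : ZMod k → ℂ → ℂ), (∀ i, fd f (b i) ≠ 0) → (∀ i, deriv (ψ i) 0 ≠ 0) → ∀ i : ZMod k,
  (∀ q, Kq f b ψ i q ≠ 0) ∧ Kq f b ψ i 0 = 1 ∧ Kq f b ψ i k = (rho f b)⁻¹ ∧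
  (∀ q q' : ℕ, Kq f b ψ i (q + q') = Kq f b ψ i q * Kq f b ψ (i - (q : ZMod k)) q')

/-- DG: derivatives of the levels at the pole (`MQ.DG`, helper53/MQ/DG.lean). -/
def DG_stmt : Prop := ∀ (n k : ℕ) [NeZero k] (f : Polynomial ℂ) (b g : ZMod k → ℂ)
  (ψ : ZMod k → ℂ → ℂ) (ra R ε δ : ℝ) (A : ℕ → ℝ) (G : ℕ → ℂ → ℂ) (Q : ℕ),
  H1 n k f b g ψ ra R ε δ A G Q →
  deriv (G Q) 0 = Kq f b ψ 0 Q * deriv (ψ (-(Q : ZMod k))) 0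

/-- P1L: the `L¹` bound.
PROOF. As `MPS.P1L` (helper20/MP/P1L.lean). Circle `w = -a + i y`, `0 < y < 2π`, `Q'` = number of `q ∈ Icc 1 Q` with `A q < a`. `∫ re (τ_{q-1} - τ_q) dy = 2π re (H_{q-1} 0 - H_q 0) = 0` (P1U, circle mean), so LV (1) at `Q'` gives
`∑_{q ≤ Q'} ∫ lev q dy ≤ ∑_{q<Q'} ∫ dens (G q) dy`. Integrate in `a` (Tonelli), MA with `M = 1`: `≤ 2π log‖ρ‖ + 3∫‖er‖ ≤ ε`. -/
def P1L_stmt : Prop := ∀ (n k : ℕ) [NeZero k] (f : Polynomial ℂ) (b g : ZMod k → ℂ)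
  (ψ : ZMod k → ℂ → ℂ) (ra R ε δ : ℝ) (A : ℕ → ℝ) (G : ℕ → ℂ → ℂ) (Q : ℕ),
  H1 n k f b g ψ ra R ε δ A G Q →
  ∑ q ∈ Finset.Icc 1 Q, ∫⁻ w in {w : ℂ | w.re < -A q ∧ 0 < w.im ∧ w.im < 2 * Real.pi},
    ENNReal.ofReal (lev b g (GW G) q w) ≤ ENNReal.ofReal ε

/-- MU1: the measure of layers (helper51/MP/MU1.lean; HSM for the family `τ_{q-1} - τ_q`, `1 ≤ q ≤ p`). -/
def MU1_stmt : Prop := ∀ (n k : ℕ) [NeZero k] (f : Polynomial ℂ) (b g : ZMod k → ℂ)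
  (ψ : ZMod k → ℂ → ℂ) (ra R ε δ : ℝ) (A : ℕ → ℝ) (G : ℕ → ℂ → ℂ) (Q : ℕ),
  H1 n k f b g ψ ra R ε δ A G Q →
  ∃ μ : Measure ℝ, μ univ ≤ ENNReal.ofReal (3 * ε) ∧ Mu1 b g A G Q μ

/-- PT1: pointwise bounds (helper99/MP/PT1.lean; the functions `H_{q-1} - H_q` of P1U vanish at `0`). -/
def PT1_stmt : Prop := ∀ (n k : ℕ) [NeZero k] (f : Polynomial ℂ) (b g : ZMod k → ℂ)
  (ψ : ZMod k → ℂ → ℂ) (ra R ε δ : ℝ) (A : ℕ → ℝ) (G : ℕ → ℂ → ℂ) (Q : ℕ),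
  H1 n k f b g ψ ra R ε δ A G Q →
  ∀ p, 1 ≤ p → p ≤ Q → ∀ (w : ℂ) (t : ℝ), 0 < t → w.re = -(A p + t) →
    (t ≤ 1 → ∑ q ∈ Finset.Icc 1 p, lev b g (GW G) q w ≤ 4 * ε / t ^ 2) ∧
    (1 ≤ t → ∑ q ∈ Finset.Icc 1 p, lev b g (GW G) q w ≤ 4 * ε * Real.exp (1 - t)) ∧
    ‖tau b g (GW G) p w - 1‖ ≤ ∑ q ∈ Finset.Icc 1 p, lev b g (GW G) q w

/-- PHI: the change of coordinate (helper11/MP/PHI.lean). -/
def PHI_stmt : Prop := ∀ (n k : ℕ) [NeZero k] (f : Polynomial ℂ) (b g : ZMod k → ℂ)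
  (ψ : ZMod k → ℂ → ℂ) (ra R ε δ : ℝ) (A : ℕ → ℝ) (G : ℕ → ℂ → ℂ) (Q : ℕ),
  H1 n k f b g ψ ra R ε δ A G Q → 1 ≤ Q → ε ≤ δ ^ 2 / 1024 →
  ∃ P : ℂ → ℂ, DifferentiableOn ℂ P (ball 0 (Real.exp (-(A Q + δ / 8)))) ∧
    P 0 = 0 ∧ (∀ u ∈ ball (0 : ℂ) (Real.exp (-(A Q + δ / 8))), ‖P u‖ ≤ δ / 32 ∧ ‖u * deriv P u‖ ≤ 1 / 4) ∧
    ∀ w ∈ HP (A Q + δ / 8), (1 + Complex.exp w * deriv P (Complex.exp w)) ^ 2 = tau b g (GW G) Q w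

/-- PNX: the induced natural map at the pole `b (-Q)` (helper25/MP/PNX.lean). -/
def PNX_stmt : Prop := ∀ (n k : ℕ) [NeZero k] (f : Polynomial ℂ) (b g : ZMod k → ℂ)
  (ψ : ZMod k → ℂ → ℂ) (ra R ε δ : ℝ) (A : ℕ → ℝ) (G : ℕ → ℂ → ℂ) (Q : ℕ) (P : ℂ → ℂ) (κ : ℂ),
  H1 n k f b g ψ ra R ε δ A G Q → 1 ≤ Q →
  DifferentiableOn ℂ P (ball 0 (Real.exp (-(A Q + δ / 8)))) → P 0 = 0 →
  (∀ u ∈ ball (0 : ℂ) (Real.exp (-(A Q + δ / 8))), ‖P u‖ ≤ δ / 32 ∧ ‖u * deriv P u‖ ≤ 1 / 4) →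
  (∀ w ∈ HP (A Q + δ / 8), (1 + Complex.exp w * deriv P (Complex.exp w)) ^ 2 = tau b g (GW G) Q w) →
  ∃ ψ' : ℂ → ℂ, PN b g (-(Q : ZMod k)) ψ' (Real.exp (κ.re - (A Q + δ / 8) - δ / 32)) ∧
    deriv ψ' 0 * Complex.exp κ = deriv (G Q) 0 ∧
    ∀ u ∈ ball (0 : ℂ) (Real.exp (-(A Q + δ / 8))),
      u * Complex.exp (κ + P u) ∈ ball (0 : ℂ) (Real.exp (κ.re - (A Q + δ / 8) - δ / 32)) →
      ψ' (u * Complex.exp (κ + P u)) = G Q u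

/-- INC: inclusion in the cylinder of `b (-Q)` (helper46/MP/INC1.lean and helper43/MQ/INC2.lean). -/
def INC_stmt : Prop := ∀ (n k : ℕ) [NeZero k] (f : Polynomial ℂ) (b g : ZMod k → ℂ)
  (ψ : ZMod k → ℂ → ℂ) (ra R ε δ : ℝ) (A : ℕ → ℝ) (G : ℕ → ℂ → ℂ) (Q : ℕ),
  H1 n k f b g ψ ra R ε δ A G Q → 1 ≤ Q → ε ≤ δ ^ 2 / 1024 →
  ∃ (Φ : ℂ → ℂ) (κ : ℂ), DifferentiableOn ℂ Φ (HP (A Q + δ / 8)) ∧
    (∀ w ∈ HP (A Q + δ / 8), ‖Φ w - w - κ‖ ≤ δ / 32 ∧ deriv Φ w ^ 2 = tau b g (GW G) Q w ∧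
      ‖deriv Φ w - 1‖ ≤ 1 / 4) ∧
    (∀ w ∈ HP (A Q + δ / 4), (Φ w).re < 0 ∧ hat (ψ (-(Q : ZMod k))) (Φ w) = GW G Q w) ∧
    Complex.exp κ = Kq f b ψ 0 Q ∧ κ.re ≤ A Q + δ / 2 ∧
    G Q '' ball 0 (Real.exp (-(A Q + δ / 4))) ⊆ ψ (-(Q : ZMod k)) '' ball 0 1

/-- REACH1 (helper77/MP/REACH1.lean). -/
def REACH1_stmt : Prop := ∀ (n k : ℕ) [NeZero k] (f : Polynomial ℂ) (b g : ZMod k → ℂ)
  (ψ : ZMod k → ℂ → ℂ) (ra R ε δ : ℝ) (A : ℕ → ℝ) (G : ℕ → ℂ → ℂ) (Q : ℕ) (μ : Measure ℝ),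
  H1 n k f b g ψ ra R ε δ A G Q → ε ≤ δ ^ 2 / 1024 → Mu1 b g A G Q μ →
  ∀ (p : ℕ) (a : ℝ), 1 ≤ p → p < k → p ≤ Q → A p ≤ a →
  ¬ Disjoint (G p '' ball 0 (Real.exp (-a))) (ψ 0 '' ball 0 (Real.exp (-δ))) →
    ENNReal.ofReal (3 * δ / 4) ≤ PsiM μ 1 a

/-- EV1: the loss of cutoff at a critical value.
PROOF. Suppose `d = δ/(4n) ≤ A (Q+1) - a`. BDY with centre `0`, `r = exp (-A (Q+1))`, `r₁ = exp (-a)`, `F = G Q`, `h = G (Q+1)` (value `b (-(Q+1))` at `0`): a point `us`, `‖us‖ = r`, and a critical point `ys` with `G (Q+1) u → ys`. Let `ws = log us`, `Re ws = -A (Q+1)`.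
EVT with `G = GW G Q` (holomorphic and injective on `ball ws d ⊆ HP a`, P1A, `exp` injective as `d < 1`; avoids the `b j`: LEA), `h = GW G (Q+1)`, centre `ws - 1`, radius `1` (`ball (ws - 1) 1 ⊆ HP (A (Q+1))`, mapped by `exp` into `ball 0 r`), `ν = ε`: by LV (2), (3) for the
system of `Q` levels both integrals are at most `∫ ∑_{q ≤ Q} dens (GW G q)` over `ball ws d ⊆ HP a`, `≤ 2π log‖ρ‖ + 3∫‖er‖ ≤ ε` by MA (`M = 1`: P1A, last claim for `Q` levels and the cutoff `a`; `Ω q = ball ws d`, `GW G q` injective there).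
We get `t ∈ [d/4^n, d]` and `w₀ = ws - t/2`. PT1 at the level `Q+1`, depth `t/2`: `∑ lev ≤ 16 ε/t²`; so `‖τ_{Q+1} w₀‖ ≥ 1 - 16ε/t²` (`τ_{Q+1} = brv`, LEI) and `‖τ_Q w₀ - τ_{Q+1} w₀‖ ≤ 16 ε/t²`: `1 - 16ε/t² ≤ 4^21 (16 + 100) ε/t²`. But
`t² ≥ δ²/(16 n² 16^n)` and `ε ≤ δ²/cn n`, so `ε/t² ≤ 16·16^n n²/(4^(40+2n) n²) = 4^{-38}`: contradiction. -/
def EV1_stmt : Prop := ∀ (n k : ℕ) [NeZero k] (f : Polynomial ℂ) (b g : ZMod k → ℂ)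
  (ψ : ZMod k → ℂ → ℂ) (ra R ε δ : ℝ) (A : ℕ → ℝ) (G : ℕ → ℂ → ℂ) (Q : ℕ),
  H1 n k f b g ψ ra R ε δ A G (Q + 1) → ε ≤ δ ^ 2 / cn n → ∀ a : ℝ, A Q ≤ a →
  (1 ≤ Q → Disjoint (G Q '' ball 0 (Real.exp (-a))) (ψ 0 '' ball 0 (Real.exp (-δ)))) →
  (∀ a', a ≤ a' → a' < A (Q + 1) →
    ¬ Br f (G Q) (ball 0 (Real.exp (-a'))) 0 (b (-((Q + 1 : ℕ) : ZMod k)))) →
  A (Q + 1) < a + δ / (4 * n)

/-- STEP1: one more level.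
PROOF. As `MPS.STEP1` (helper97/MP/STEP1.lean). `S = {a ≥ A Q | ¬ Fail1 .. Q a}` is an up-set. Non empty: disjointness at large cutoffs as in `MPS.STEP1` (`1 ≤ Q < k`), and the local inverse of `f` at `b (-(Q+1))` (`fd ≠ 0`, `f (b (-(Q+1))) = b (-Q) = G Q 0`) gives a branch on a small
ball. `a' = sInf S`: the branches on the balls `ball 0 (exp (-a))`, `a ∈ S`, agree (LUN) and glue to a branch on `ball 0 (exp (-a'))`; disjointness at `a'` (union of smaller balls). `g'` = this branch. -/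
def STEP1_stmt : Prop := ∀ (n k : ℕ) [NeZero k] (f : Polynomial ℂ) (b g : ZMod k → ℂ)
  (ψ : ZMod k → ℂ → ℂ) (ra R ε δ : ℝ) (A : ℕ → ℝ) (G : ℕ → ℂ → ℂ) (Q : ℕ),
  H1 n k f b g ψ ra R ε δ A G Q → Q < k →
  ∃ (a' : ℝ) (g' : ℂ → ℂ), A Q ≤ a' ∧
    H1 n k f b g ψ ra R ε δ (Function.update A (Q + 1) a') (Function.update G (Q + 1) g') (Q + 1) ∧
    ∀ a, A Q < a → a < a' → Fail1 f b (ψ 0) δ G Q a

/-- SEQ1: all levels (helper82/MP/SEQ1.lean). -/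
def SEQ1_stmt : Prop := ∀ (n k : ℕ) [NeZero k] (f : Polynomial ℂ) (b g : ZMod k → ℂ)
  (ψ : ZMod k → ℂ → ℂ) (ra R ε δ : ℝ), SU n k f b g ψ ra R ε → 0 < δ → δ ≤ 1 / 20 →
  MapsTo (ψ 0) (ball 0 (Real.exp (-δ))) (ball 0 R) →
  ∃ (A : ℕ → ℝ) (G : ℕ → ℂ → ℂ), H1 n k f b g ψ ra R ε δ A G k ∧ A 0 = 2 * δ ∧
    ∀ q < k, ∀ a, A q < a → a < A (q + 1) → Fail1 f b (ψ 0) δ G q a

/-- PH1: conclusion of Phase 1.
PROOF. As `MPS.PH1` (helper52/MP/PH1.lean). SEQ1 and MU1 (`Q = k`). Almost every `a ∈ (2δ, A k)` lies in some `(A q, A (q+1))`. Either (i) `1 ≤ q` and level `q` is not disjoint at `a`: REACH1 and CHEB: these `a` have measure `≤ 28 ε/δ² ≤ δ/4`. Or (ii) `a ∈ J_q`: level `q` is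
disjoint at `a` (or `q = 0`) and there is no branch at `a`. `J_q` is an up-set of `(A q, A (q+1))`; EV1 (system with `q + 1` levels; at `a' ∈ [a, A (q+1))` the level is disjoint, so by `Fail1` there is no branch): `A (q+1) < a + δ/(4n)` for every `a ∈ J_q`, so `J_q` has measure
`≤ δ/(4n)`. If `J_q` is not empty, `a_q ∈ J_q`, then by LIFT some critical value `v_q` is in `G q '' ball 0 (exp (-a_q))`. The `v_q` are different: `v_q = G q u = G q' u'`, `q < q'`, gives (apply the `q`-th iterate of `f`) `ψ 0 u = G (q'-q) u'`, `‖u‖ < exp (-δ)`, `a_q' > A q' ≥ A (q'-q+1)`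
if `q ≥ 1`: contradiction to `disj` at the level `q' - q`; for `q = 0` to the disjointness of the level `q'` at `a_q'`. So there are at most `n - 1` such `q` (PRB), and `A k - 2δ ≤ δ/4 + (n-1) δ/(4n) ≤ δ`. Restrict all levels to `ball 0 (exp (-3δ))`. -/
def PH1_stmt : Prop := ∀ (n k : ℕ) [NeZero k] (f : Polynomial ℂ) (b g : ZMod k → ℂ)
  (ψ : ZMod k → ℂ → ℂ) (ra R ε δ : ℝ), SU n k f b g ψ ra R ε → 0 < δ → δ ≤ 1 / 20 →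
  MapsTo (ψ 0) (ball 0 (Real.exp (-δ))) (ball 0 R) → ε ≤ δ ^ 3 / cn n →
  ∃ G : ℕ → ℂ → ℂ, Sys1 f b (ψ 0) δ (fun _ => 3 * δ) G k

end PPS
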