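import Pool.Agent.helper36.PP.SpecB

/-!
# Project pp: (MP_70a088_an): part C (Phase 2)

Rules: see SpecA. Compared with `MPS` (Pool/Agent/helper36/MP/SpecQ.lean) the discs have the centre `x₀ = ctr y ρ₁ = i y - ρ₁/4` (where the Phase 1
information is available), radii between `ρ₁/8` and `9 ρ₁/8`; the final radius is `> ρ₁`, so that the final disc contains `ball (i y) (3 ρ₁/4)`.
Write `x = i y`, `δ = ρ₁/64`, `D t = ball x₀ t`. `ball x₀ (ρ₁/8) ⊆ HP (3 δ)`.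
-/

set_option autoImplicit false

open Complex Metric Set Filter Topology MeasureTheory MPS

noncomputable section

namespace PPS

/-- P2H: the Phase 1 data inside Phase 2.
PROOF. `H1`: `δ = ρ₁/64 ≤ 1/1024`. PT1 for `G1` (constant cutoff `3δ`) at `x₀`: depth `ρ₁/4 - 3ρ₁/64 = 13ρ₁/64 ≤ 1`, `4·4096/169 ≤ 97`. Injectivity: `MPS.NFI` on `ball x (16ρ₁) ⊇ D (9ρ₁/8)`. Last claim: `Re w < -ρ₁/4 + ρ₁/8`. -/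
def P2H_stmt : Prop := ∀ (n k : ℕ) [NeZero k] (f : Polynomial ℂ) (b g : ZMod k → ℂ)
  (ψ : ZMod k → ℂ → ℂ) (ra R ε y ρ₁ : ℝ) (χ : ℂ → ℂ) (G1 : ℕ → ℂ → ℂ) (ps : ℕ),
  SU2 n k f b g ψ ra R ε y ρ₁ χ G1 ps →
  (∀ Q ≤ k, H1 n k f b g ψ ra R ε (ρ₁ / 64) (fun _ => 3 * (ρ₁ / 64)) G1 Q) ∧
  (∑ q ∈ Finset.Icc 1 k, lev b g (GW G1) q (ctr y ρ₁) ≤ 97 * ε / ρ₁ ^ 2) ∧
  InjOn χ (ball (ctr y ρ₁) (9 * ρ₁ / 8)) ∧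
  ball (ctr y ρ₁) (ρ₁ / 8) ⊆ HP (3 * (ρ₁ / 64)) ∧
  ball (ctr y ρ₁) (9 * ρ₁ / 8) ⊆ ball ((y : ℂ) * I) (2 * ρ₁)

/-- P2A: structure of a Phase 2 system.
PROOF. As `MPS.P2A` (helper28/MP/P2A.lean). First claim: induction on `q`; on the convex set `D (T (q+1)) ∩ HP (3δ)`, which contains `x₀`, both `G (q+1)` and `GW G1 (q+1)` are branches of `f⁻¹` of the same function, equal at `x₀` (`val`): LUN.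
Iterates: for `w ∈ D (T q)` the `q`-th iterate of `f` maps `G q w` to `χ w` (`anti`). Injectivity: P2H. MapsTo: `SU.inv` and `mp1`. LevSys: nat0 from `SU2.nat`. Multiplicity: if `q < q'` and `G q w = G q' w'` (`w ∈ D (T (q+1))`, `w' ∈ D (T (q'+1))`), the `q`-th iterate
gives `χ w = G (q'-q) w'`, so `q'-q = ps` (`disj`). Three elements `q₁<q₂<q₃` of `F` would give `q₂-q₁ = q₃-q₂ = q₃-q₁ = ps`. Sixth claim: the same with all radii `r ≤ T Q`. Last: P2H and the agreement near `x₀`. -/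
def P2A_stmt : Prop := ∀ (n k : ℕ) [NeZero k] (f : Polynomial ℂ) (b g : ZMod k → ℂ)
  (ψ : ZMod k → ℂ → ℂ) (ra R ε y ρ₁ : ℝ) (χ : ℂ → ℂ) (G1 : ℕ → ℂ → ℂ) (ps : ℕ) (T : ℕ → ℝ)
  (G : ℕ → ℂ → ℂ) (Q : ℕ), H2 n k f b g ψ ra R ε y ρ₁ χ G1 ps T G Q →
  (∀ q ≤ Q, ∀ w ∈ ball (ctr y ρ₁) (T q), w.re < -(3 * (ρ₁ / 64)) → G q w = GW G1 q w) ∧
  (∀ q ≤ Q, InjOn (G q) (ball (ctr y ρ₁) (T q))) ∧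
  (∀ q ≤ Q, MapsTo (G q) (ball (ctr y ρ₁) (T q)) (ball 0 R)) ∧
  (∀ q ≤ Q, LevSys f b g G (ball (ctr y ρ₁) (T q)) q) ∧
  (∀ (z : ℂ) (F : Finset ℕ), (∀ q ∈ F, q < Q ∧ z ∈ G q '' ball (ctr y ρ₁) (T (q + 1))) →
    F.card ≤ 2) ∧
  (∀ r, r ≤ T Q → (1 ≤ Q → Q ≠ ps →
      Disjoint (G Q '' ball (ctr y ρ₁) r) (χ '' ball (ctr y ρ₁) (9 * ρ₁ / 8))) →
    ∀ (z : ℂ) (F : Finset ℕ), (∀ q ∈ F, q ≤ Q ∧ z ∈ G q '' ball (ctr y ρ₁) r) → F.card ≤ 2) ∧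
  (∑ q ∈ Finset.Icc 1 Q, lev b g G q (ctr y ρ₁) ≤ 97 * ε / ρ₁ ^ 2)

/-- P2L: the `L¹` bound.
PROOF. For `w ∈ D (9ρ₁/8)` the levels `q ∈ Icc 1 Q` with `w ∈ D (T q)` form an initial segment; LV (1) there, so with `h_q = τ_{q-1} - τ_q`: `∑_q ∫_{D (T q)} (‖h_q‖ - re h_q) ≤ ∑_{q<Q} ∫_{D (T (q+1))} dens (G q) ≤ 2 (2π log‖ρ‖ + 3∫‖er‖) ≤ 2ε` (MA, `M = 2`, P2A).
`MPS.HAR` (first claim, one function, centre `x₀`, radius `T q ≤ 9ρ₁/8`): `∫_{D (T q)} ‖h_q‖ ≤ ∫ (‖h_q‖ - re h_q) + π (81/64) ρ₁² ‖h_q x₀‖`; sum over `q` (P2A, last claim): `≤ 2ε + 3.98·97 ε ≤ 400 ε`. (Compare helper16/MP/P2L.lean.) -/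
def P2L_stmt : Prop := ∀ (n k : ℕ) [NeZero k] (f : Polynomial ℂ) (b g : ZMod k → ℂ)
  (ψ : ZMod k → ℂ → ℂ) (ra R ε y ρ₁ : ℝ) (χ : ℂ → ℂ) (G1 : ℕ → ℂ → ℂ) (ps : ℕ) (T : ℕ → ℝ)
  (G : ℕ → ℂ → ℂ) (Q : ℕ), H2 n k f b g ψ ra R ε y ρ₁ χ G1 ps T G Q →
  ∑ q ∈ Finset.Icc 1 Q, ∫⁻ w in ball (ctr y ρ₁) (T q), ENNReal.ofReal (lev b g G q w) ≤
    ENNReal.ofReal (400 * ε)

/-- MU2: the measure of layers (helper21/MP/MU2.lean): image under `w ↦ 9ρ₁/8 - ‖w - x₀‖` of `∑_q` (volume on `D (T q)` with density `lev q`). -/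
def MU2_stmt : Prop := ∀ (n k : ℕ) [NeZero k] (f : Polynomial ℂ) (b g : ZMod k → ℂ)
  (ψ : ZMod k → ℂ → ℂ) (ra R ε y ρ₁ : ℝ) (χ : ℂ → ℂ) (G1 : ℕ → ℂ → ℂ) (ps : ℕ) (T : ℕ → ℝ)
  (G : ℕ → ℂ → ℂ) (Q : ℕ), H2 n k f b g ψ ra R ε y ρ₁ χ G1 ps T G Q →
  ∃ μ : Measure ℝ, μ univ ≤ ENNReal.ofReal (400 * ε) ∧ Mu2 b g y ρ₁ T G Q μ

/-- PT2: pointwise bounds (helper78/MP/PT2.lean). PROOF. HSM on `ball w t` for the family `τ_{q-1} - τ_q`, P2L: `400/π ≤ 130`; LV (4). -/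
def PT2_stmt : Prop := ∀ (n k : ℕ) [NeZero k] (f : Polynomial ℂ) (b g : ZMod k → ℂ)
  (ψ : ZMod k → ℂ → ℂ) (ra R ε y ρ₁ : ℝ) (χ : ℂ → ℂ) (G1 : ℕ → ℂ → ℂ) (ps : ℕ) (T : ℕ → ℝ)
  (G : ℕ → ℂ → ℂ) (Q : ℕ), H2 n k f b g ψ ra R ε y ρ₁ χ G1 ps T G Q →
  ∀ p, 1 ≤ p → p ≤ Q → ∀ (w : ℂ) (t : ℝ), 0 < t → ‖w - ctr y ρ₁‖ + t ≤ T p →
    ∑ q ∈ Finset.Icc 1 p, lev b g G q w ≤ 130 * ε / t ^ 2 ∧
    ‖tau b g G p w - 1‖ ≤ ∑ q ∈ Finset.Icc 1 p, lev b g G q w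

/-- REACH2 (compare helper82/MP/REACH2.lean).
PROOF. `w₁ ∈ D r`, `v₁ ∈ D (9ρ₁/8)` with `G p w₁ = χ v₁`. `w₂` = `w₁` if `‖w₁ - x₀‖ ≤ r - ρ₁/8`, else the point of the segment `[w₁, x₀]` with `‖w₂ - x₀‖ = r - ρ₁/8`. On `[w₂, x₀]` PT2 with `t = ρ₁/8`: `‖τ_p - 1‖ ≤ 130·64 ε/ρ₁² ≤ 1/4`; its length is `≤ 9ρ₁/8`, so its
`‖τ‖^{1/2}`-length is `≤ 1.26 ρ₁`. The length of `[w₁,w₂]` is `≤ ρ₁/8 + ∫_{t₀}^{ρ₁/8} ‖τ_p - 1‖^{1/2} dt`, `t = r - ‖w - x₀‖`, and by `Mu2` with `s = 9ρ₁/8 - r`: `‖τ_p - 1‖ ≤ (4/(π t²)) μ(Ioo (s+t/2) (s+3t/2))`, so the integral is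
`≤ PsiM μ (ρ₁/8) (9ρ₁/8 - r)`. If that is `< ρ₁` then the total length is `< 3ρ₁` and NPL twice (`χ` natural on `ball x (16ρ₁) ⊇ ball v₁ (3ρ₁)`; `G p` on `D (T p)`) gives `v₃`, `‖v₃ - v₁‖ < 3ρ₁`, `χ v₃ = G p x₀ = GW G1 p x₀ ∈ ψ (-p) '' ball 0 1` (P2A, INC for `G1` with `Q = p`).
NHP (`ρ = ρ₁`, `v₃ ∈ ball x (5ρ₁)`: `1/4 + 9/8 + 3 < 5`): `χ (x + 6ρ₁) ∈ ψ (-p) '' ball 0 1`, so `p = ps` by `SU2.hps`. -/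
def REACH2_stmt : Prop := ∀ (n k : ℕ) [NeZero k] (f : Polynomial ℂ) (b g : ZMod k → ℂ)
  (ψ : ZMod k → ℂ → ℂ) (ra R ε y ρ₁ : ℝ) (χ : ℂ → ℂ) (G1 : ℕ → ℂ → ℂ) (ps : ℕ) (T : ℕ → ℝ)
  (G : ℕ → ℂ → ℂ) (Q : ℕ) (μ : Measure ℝ), H2 n k f b g ψ ra R ε y ρ₁ χ G1 ps T G Q →
  ε ≤ ρ₁ ^ 2 / 10 ^ 7 → Mu2 b g y ρ₁ T G Q μ → ∀ (p : ℕ) (r : ℝ), 1 ≤ p → p < k → p ≤ Q → p ≠ ps →
  ρ₁ ≤ r → r ≤ T p →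
  ¬ Disjoint (G p '' ball (ctr y ρ₁) r) (χ '' ball (ctr y ρ₁) (9 * ρ₁ / 8)) →
    ENNReal.ofReal ρ₁ ≤ PsiM μ (ρ₁ / 8) (9 * ρ₁ / 8 - r)

/-- EV2: the loss of radius at a critical value.
PROOF. Suppose `d = ρ₁/(32 n) ≤ r - T (Q+1)`. BDY with centre `x₀`, radius `T (Q+1) ≥ ρ₁/8 ≥ d`, `r₁ = r`, `F = G Q`, `h = G (Q+1)` (`h x₀ = GW G1 (Q+1) x₀`): `ws`, `ys`. EVT with `a = x₀`, radius `T (Q+1)`, `G = G Q` on `ball ws d ⊆ D r` (injective: P2A; avoids the `b j`: LEA),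
`ν = 2ε`: LV (2), (3) for the system of `Q` levels and MA with `M = 2` (P2A, sixth claim, at the radius `r`). `t ∈ [d/4^n, d]`, `‖w₀ - x₀‖ = T (Q+1) - t/2`; PT2 at the level `Q+1`, depth `t/2`: `∑ lev ≤ 520 ε/t²`. So `1 - 520 ε/t² ≤ 4^21 (520 + 200) ε/t²`, while
`t² ≥ ρ₁²/(1024 n² 16^n)` and `ε ≤ ρ₁²/cn n` give `ε/t² ≤ 4^{-35}`: contradiction. -/
def EV2_stmt : Prop := ∀ (n k : ℕ) [NeZero k] (f : Polynomial ℂ) (b g : ZMod k → ℂ)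
  (ψ : ZMod k → ℂ → ℂ) (ra R ε y ρ₁ : ℝ) (χ : ℂ → ℂ) (G1 : ℕ → ℂ → ℂ) (ps : ℕ) (T : ℕ → ℝ)
  (G : ℕ → ℂ → ℂ) (Q : ℕ), H2 n k f b g ψ ra R ε y ρ₁ χ G1 ps T G (Q + 1) → ε ≤ ρ₁ ^ 2 / cn n →
  ∀ r : ℝ, r ≤ T Q →
  (1 ≤ Q → Q ≠ ps → Disjoint (G Q '' ball (ctr y ρ₁) r) (χ '' ball (ctr y ρ₁) (9 * ρ₁ / 8))) →
  (∀ r', T (Q + 1) < r' → r' ≤ r →
    ¬ Br f (G Q) (ball (ctr y ρ₁) r') (ctr y ρ₁) (GW G1 (Q + 1) (ctr y ρ₁))) →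
  r < T (Q + 1) + ρ₁ / (32 * n)

/-- STEP2: one more level.
PROOF. `S = {r | ρ₁/8 ≤ r ≤ T Q, ¬ Fail2 .. Q r}`. `ρ₁/8 ∈ S`: on `D (ρ₁/8) ⊆ HP (3δ)` `GW G1 (Q+1)` is a branch over `G Q = GW G1 Q` (P2A; `Sys1.rel`, `Sys1` of P2H with `Q + 1` levels). Disjointness at `ρ₁/8` for `1 ≤ Q`, `Q ≠ ps`: by INC for `G1` with `Q` levels
`G Q '' D (ρ₁/8) ⊆ ψ (-Q) '' ball 0 1` (`Re w < -ρ₁/8 < -(3δ + δ/4)`); a common point with `χ '' D (9ρ₁/8)` gives `χ (x + 6ρ₁) ∈ ψ (-Q) '' ball 0 1` (NHP with `ρ = ρ₁`), so `Q = ps` (`hps`). (For INC: `ε ≤ ρ₁²/cn n ≤ (ρ₁/64)²/1024`.)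
`t' = sSup S`; `¬ Fail2` at `t'`: union of smaller balls, branches agree (LUN). `g'` = the branch on `D t'`. -/
def STEP2_stmt : Prop := ∀ (n k : ℕ) [NeZero k] (f : Polynomial ℂ) (b g : ZMod k → ℂ)
  (ψ : ZMod k → ℂ → ℂ) (ra R ε y ρ₁ : ℝ) (χ : ℂ → ℂ) (G1 : ℕ → ℂ → ℂ) (ps : ℕ) (T : ℕ → ℝ)
  (G : ℕ → ℂ → ℂ) (Q : ℕ), H2 n k f b g ψ ra R ε y ρ₁ χ G1 ps T G Q → Q < k →
  ε ≤ ρ₁ ^ 2 / cn n →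
  ∃ (t' : ℝ) (g' : ℂ → ℂ),
    H2 n k f b g ψ ra R ε y ρ₁ χ G1 ps (Function.update T (Q + 1) t')
      (Function.update G (Q + 1) g') (Q + 1) ∧
    ∀ r, t' < r → r < T Q → Fail2 f y ρ₁ χ G1 ps G Q r

/-- SEQ2: all levels. PROOF. Induction with STEP2, starting from `T 0 = 9ρ₁/8`, `G 0 = χ` (as SEQ1). -/
def SEQ2_stmt : Prop := ∀ (n k : ℕ) [NeZero k] (f : Polynomial ℂ) (b g : ZMod k → ℂ)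
  (ψ : ZMod k → ℂ → ℂ) (ra R ε y ρ₁ : ℝ) (χ : ℂ → ℂ) (G1 : ℕ → ℂ → ℂ) (ps : ℕ),
  SU2 n k f b g ψ ra R ε y ρ₁ χ G1 ps → ε ≤ ρ₁ ^ 2 / cn n →
  ∃ (T : ℕ → ℝ) (G : ℕ → ℂ → ℂ), H2 n k f b g ψ ra R ε y ρ₁ χ G1 ps T G k ∧ T 0 = 9 * ρ₁ / 8 ∧
    ∀ q < k, ∀ r, T (q + 1) < r → r < T q → Fail2 f y ρ₁ χ G1 ps G q r

/-- PH2: conclusion of Phase 2 (compare helper92/MP/MEAS2.lean and helper52/MP/PH2.lean).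
PROOF. SEQ2, MU2 (`Q = k`). Suppose `T k ≤ ρ₁`. Almost every `r ∈ (ρ₁, 9ρ₁/8)` is in some `(T (q+1), T q)`, `q < k`. Either (i) `1 ≤ q`, `q ≠ ps` and not disjoint at `r`: REACH2: `PsiM μ (ρ₁/8) (9ρ₁/8 - r) ≥ ρ₁`; CHEB: measure `≤ 16 (ρ₁/8) 400 ε/(π ρ₁²) ≤ ρ₁/100`.
Or (ii) `r ∈ J_q`: level `q` is good at `r` (disjoint, or `q = 0`, or `q = ps`) and there is no branch at `r`. `J_q` is a down-set of `(max (T (q+1)) ρ₁, T q)`; EV2 (system with `q+1` levels; for `T (q+1) < r' ≤ r` the level is good at `r'`, so by Fail2 there is no branch):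
`r < T (q+1) + ρ₁/(32n)` for every `r ∈ J_q`, so `J_q` has measure `≤ ρ₁/(32n)`. If `r_q ∈ J_q` then by LIFT some critical value `v_q` is in `G q '' D r_q`. Every critical value occurs for at most two `q`: for `q < q'` with `v_q = v_q' = G q w = G q' w'` the `q`-th iterate gives
`χ w = G (q'-q) w'`, `w' ∈ D r_q' ⊆ D (T (q'-q+1))` if `q ≥ 1` (`r_q' < T q' ≤ T (q'-q+1)`), so `disj` gives `q' - q = ps`; for `q = 0` use that `q'` is good at `r_q'`; three such `q` are impossible. So at most `2(n-1)` of the `J_q` are non empty: total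
`ρ₁/8 ≤ ρ₁/100 + 2(n-1)ρ₁/(32n) < ρ₁/8`: contradiction. Take `r = T k`, restrict. -/
def PH2_stmt : Prop := ∀ (n k : ℕ) [NeZero k] (f : Polynomial ℂ) (b g : ZMod k → ℂ)
  (ψ : ZMod k → ℂ → ℂ) (ra R ε y ρ₁ : ℝ) (χ : ℂ → ℂ) (G1 : ℕ → ℂ → ℂ) (ps : ℕ),
  SU2 n k f b g ψ ra R ε y ρ₁ χ G1 ps → ε ≤ ρ₁ ^ 2 / cn n →
  ∃ (r : ℝ) (G : ℕ → ℂ → ℂ), ρ₁ < r ∧ H2 n k f b g ψ ra R ε y ρ₁ χ G1 ps (fun _ => r) G k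

end PPS
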