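import Pool.Agent.helper36.PP.SpecC

/-!
# Project pp: (MP_70a088_an): part D (transport of flat discs and strips, windows, main theorem)

Rules: see SpecA. These are the statements of project mq: (helper74, `Pool/Agent/helper74/MQ/Spec.lean`) for the systems of levels of
a polynomial `f`; the statements of `MQ` about strips, planarity, windows and zeros (`MQ.SYM_stmt`, `MQ.UNQ_stmt`, `MQ.RE0_stmt`, `MQ.GL_stmt`, `MQ.PLA_stmt`,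
`MQ.PLB_stmt`, `MQ.WB_stmt`, `MQ.WR_stmt`, `MQ.DPR_stmt`, `MQ.REP_stmt`, `MQ.LOCZ_stmt`, `MQ.HIT_stmt`, `MQ.HINJ_stmt`, `MQ.HPER_stmt`, `MQ.CONF_stmt`,
`MQ.SELF_stmt`, `MQ.COMB_stmt`, ...) do not depend on the map and are used as they are (as hypotheses).
-/

set_option autoImplicit false

open Complex Metric Set Filter Topology MeasureTheory MPS MQ

noncomputable section

namespace PPS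

/-- SHF: shift of the base point (reindexing; helper63/MQ/SHF.lean; all notions except `Kq` depend on `b, g` only through `BB`). -/
def SHF_stmt : Prop := ∀ (k : ℕ) [NeZero k] (f : Polynomial ℂ) (b g : ZMod k → ℂ)
  (ψ : ZMod k → ℂ → ℂ) (s : ZMod k),
  (∀ (i : ZMod k) (q : ℕ), Kq f (fun j => b (s + j)) (fun j => ψ (s + j)) i q = Kq f b ψ (s + i) q) ∧
  (∀ G Ω Q, LevSys f (fun j => b (s + j)) (fun j => g (s + j)) G Ω Q ↔ LevSys f b g G Ω Q) ∧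
  (∀ G w, dens f (fun j => b (s + j)) (fun j => g (s + j)) G w = dens f b g G w) ∧
  (∀ z, er f (fun j => b (s + j)) (fun j => g (s + j)) z = er f b g z) ∧
  (∀ G q w, tau (fun j => b (s + j)) (fun j => g (s + j)) G q w = tau b g G q w) ∧
  (∀ G q w, lev (fun j => b (s + j)) (fun j => g (s + j)) G q w = lev b g G q w)

/-- P1W: Phase 1 as a black box.
PROOF. As `MQ.P1W` (helper97/MQ/P1W.lean): `R₀` from NGA for `δ`, `ra`; `ε₀ = δ³/cn n`; PH1; `H1` for every `Q ≤ k` by restriction. -/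
def P1W_stmt : Prop := ∀ (n : ℕ) (δ ra : ℝ), 2 ≤ n → 0 < δ → δ ≤ 1 / 20 → 0 < ra → ∃ R₀ : ℝ, 0 < R₀ ∧
  ∃ ε₀ > (0 : ℝ), ∀ (k : ℕ) [NeZero k] (f : Polynomial ℂ) (b g : ZMod k → ℂ) (ψ : ZMod k → ℂ → ℂ)
    (R ε : ℝ), SU n k f b g ψ ra R ε → R₀ ≤ R → ε ≤ ε₀ →
    ∃ G : ℕ → ℂ → ℂ, ∀ Q ≤ k, H1 n k f b g ψ ra R ε δ (fun _ => 3 * δ) G Q

/-- PHW: Phase 2 as a black box.
PROOF. As `MQ.PHW` (helper97/MQ/PHW.lean). `δ = ρ₁/64`; `R₀` = maximum of the bound of NGA for `δ` and the bound of NGFA for `ρ₀ = 16ρ₁` (on `ball (iy) (2ρ₁) ⊇ ball (ctr y ρ₁) (9ρ₁/8)`, as `9/8 + 1/4 < 2`);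
`ε₀ = min (δ³/cn n) (ρ₁²/cn n)`. PH1 gives `G1`; `ps` = the unique `p` with `1 ≤ p < k` and `χ (iy + 6ρ₁) ∈ ψ (-p) '' ball 0 1`, if there is one (`MPS.ND`), else `0`. So `SU2`; PH2. -/
def PHW_stmt : Prop := ∀ (n : ℕ) (ρ₁ ra : ℝ), 2 ≤ n → 0 < ρ₁ → 16 * ρ₁ ≤ 1 → 0 < ra →
  ∃ R₀ : ℝ, 0 < R₀ ∧
  ∃ ε₀ > (0 : ℝ), ∀ (k : ℕ) [NeZero k] (f : Polynomial ℂ) (b g : ZMod k → ℂ) (ψ : ZMod k → ℂ → ℂ)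
    (R ε : ℝ), SU n k f b g ψ ra R ε → R₀ ≤ R → ε ≤ ε₀ → ∀ (y : ℝ) (χ : ℂ → ℂ),
    IsNat b g χ (HP 0 ∪ ball ((y : ℂ) * I) (16 * ρ₁)) → EqOn χ (hat (ψ 0)) (HP 0) →
    ∃ (ps : ℕ) (G1 : ℕ → ℂ → ℂ) (r : ℝ) (G : ℕ → ℂ → ℂ), ρ₁ < r ∧
      H2 n k f b g ψ ra R ε y ρ₁ χ G1 ps (fun _ => r) G k

/-- KRE: the transports are almost isometries.
PROOF. As `MQ.KRE` (helper51/MQ/KRE.lean): for the base point `i` (TR) P1W and INC with `Q = q`: `log‖Kq i q‖ = Re κ ≤ 3δ + δ/2`. For the lower bound COC: `Kq i q * Kq (i - q) (k - q) = ρ⁻¹`, so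
`log‖Kq i q‖ ≥ -log‖ρ‖ - 7δ/2` (`q < k`; for `q = k` it is `-log‖ρ‖`), and `log‖ρ‖ ≤ ε/(2π)`. (`Kq` of the shifted data: SHF.) -/
def KRE_stmt : Prop := ∀ (n : ℕ) (δ ra : ℝ), 2 ≤ n → 0 < δ → δ ≤ 1 / 20 → 0 < ra → ∃ R₀ : ℝ, 0 < R₀ ∧
  ∃ ε₀ > (0 : ℝ), ∀ (k : ℕ) [NeZero k] (f : Polynomial ℂ) (b g : ZMod k → ℂ) (ψ : ZMod k → ℂ → ℂ)
    (R ε : ℝ), SU n k f b g ψ ra R ε → R₀ ≤ R → ε ≤ ε₀ →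
    ∀ (i : ZMod k) (q : ℕ), 1 ≤ q → q ≤ k → |Real.log ‖Kq f b ψ i q‖| ≤ 5 * δ

/-- ROTQ: transport of a flat disc by `q` levels, with precise error.
PROOF. As `MQ.ROTQ` (helper90/MQ/ROTQ.lean), with LUN for LRU. `x₀ = ctr y ρ₁ = iy - ρ₁/4`. `G' q = G1 q` on `ball 0 (exp (-3ρ₁/64))` (LUN, induction), and `G q = GW G' q` on the convex set `ball (iy) (5ρ₁/8) ∩ HP (3δ)`. INC for `G'`, `Q = q`: `Φ₁`, `κ` (`|Re κ| = |log‖Kq‖| ≤ 5δ`).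
On `ball (iy) (5ρ₁/8)` (contained in `ball x₀ (7ρ₁/8)`, so PT2 with depth `ρ₁/8`, as `ρ₁ < r`): `‖tau q - 1‖ ≤ 8320 ε/ρ₁² ≤ 10⁻⁴`; `Φ w = Φ₁ x₀ + ∫_{x₀}^w √(tau q)` agrees with `Φ₁` on `HP (3δ + δ/8) ∩ ball (iy) (5ρ₁/8)`, and
`‖Φ w - w - κ‖ ≤ δ/32 + 8320 ε/ρ₁ ≤ δ`. For `v ∈ ball (i(y + Im κ)) (ρ₁/4)` the equation `Φ w = v` has a unique solution `w = H v ∈ ball (iy) (3ρ₁/8)`, `χ' = G q ∘ H`; it is natural and equals `hat (ψ (-q))` near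
`i(y + Im κ) - ρ₁/8`, hence on `HP 0 ∩ ball`. Last claim: `‖Φ w - i(y + Im κ)‖ < ρ₁/5 + 6δ < ρ₁/4` and uniqueness of the solution. -/
def ROTQ_stmt : Prop := ∀ (n k : ℕ) [NeZero k] (f : Polynomial ℂ) (b g : ZMod k → ℂ)
  (ψ : ZMod k → ℂ → ℂ) (ra R ε y ρ₁ r δ : ℝ) (χ : ℂ → ℂ) (G1 : ℕ → ℂ → ℂ) (ps : ℕ)
  (G G' : ℕ → ℂ → ℂ), H2 n k f b g ψ ra R ε y ρ₁ χ G1 ps (fun _ => r) G k → ρ₁ < r →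
  (∀ Q ≤ k, H1 n k f b g ψ ra R ε δ (fun _ => 3 * δ) G' Q) → δ ≤ ρ₁ / 1000 → ε ≤ δ ^ 2 / 1024 →
  ε ≤ ρ₁ * δ / 10 ^ 6 → (∀ q : ℕ, 1 ≤ q → q ≤ k → |Real.log ‖Kq f b ψ 0 q‖| ≤ 5 * δ) →
  ∀ q : ℕ, 1 ≤ q → q ≤ k → ∃ (κ : ℂ) (Φ χ' : ℂ → ℂ), Complex.exp κ = Kq f b ψ 0 q ∧
    |κ.re| ≤ 5 * δ ∧ (∀ w ∈ ball ((y : ℂ) * I) (ρ₁ / 2), ‖Φ w - w - κ‖ ≤ δ) ∧
    IsNat b g χ' (HP 0 ∪ ball (((y + κ.im : ℝ) : ℂ) * I) (ρ₁ / 4)) ∧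
    EqOn χ' (hat (ψ (-(q : ZMod k)))) (HP 0) ∧
    ∀ w ∈ ball ((y : ℂ) * I) (ρ₁ / 5), Φ w ∈ ball (((y + κ.im : ℝ) : ℂ) * I) (ρ₁ / 4) ∧
      χ' (Φ w) = G q w

/-- FRQ: transport of flat discs.
PROOF. As `MQ.FRQ` (helper64/MQ/FRQ.lean): base point `i` by TR, PHW with `ρ₁ = ρ₀/16`, P1W and KRE with a small `δ`, ROTQ. `κ.im` and `arg (Kq)` differ by a multiple of `2π` (`MPS.NOSL`, periodicity). `q = 0` is trivial. -/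
def FRQ_stmt : Prop := ∀ (n : ℕ) (ρ₀ ra : ℝ), 2 ≤ n → 0 < ρ₀ → ρ₀ ≤ 1 → 0 < ra → ∃ R₀ : ℝ, 0 < R₀ ∧
  ∃ ε₀ > (0 : ℝ), ∀ (k : ℕ) [NeZero k] (f : Polynomial ℂ) (b g : ZMod k → ℂ) (ψ : ZMod k → ℂ → ℂ)
    (R ε : ℝ), SU n k f b g ψ ra R ε → R₀ ≤ R → ε ≤ ε₀ → ∀ (i : ZMod k) (q : ℕ) (y : ℝ), q ≤ k →
      Flat b g (ψ i) y ρ₀ → Flat b g (ψ (i - (q : ZMod k))) (y + (Kq f b ψ i q).arg) (ρ₀ / 64)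

/-- CMP: two systems of levels over the same points coincide if all masses are on them.
PROOF. Induction on `q`; suppose `G q w = G' q (S - w)` on `B = ball w₀ r`, `q < Q`. `G (q+1) w` and `y' w = G' (q+1) (S - w)` are branches of `f⁻¹` over `G q w` on `B`; if they agree at one point they agree on `B` (LUN). Otherwise `y' w` is an element of
`(pre f (G q w)).erase (G (q+1) w)` for every `w ∈ B` (simple, PRB), and `brv f b g (G q) w (y' w) = tau b g G' (q+1) (S - w)` (chain rule), of norm `≥ 3/4`. LV (5), (3): `3/4 ≤ (3/2) ∑_{q' ≤ q} dens (G q') w + re (τ_q w - τ_{q+1} w)`. Integrate over `B`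
(mean value of the harmonic function `re (τ_q - τ_{q+1})`, `MPS.HAR` or `MPS.HSM`-like lemmas): `(3/4) π r² ≤ (3/2) r²/100 + π r²/100`: contradiction. -/
def CMP_stmt : Prop := ∀ (k : ℕ) [NeZero k] (f : Polynomial ℂ) (b g : ZMod k → ℂ) (G G' : ℕ → ℂ → ℂ)
  (Ω Ω' : Set ℂ) (w₀ S : ℂ) (Q : ℕ) (r : ℝ), 1 ≤ f.natDegree → IsCyc f b → IsOpen Ω → IsOpen Ω' →
  LevSys f b g G Ω Q → LevSys f b g G' Ω' Q → 0 < r → ball w₀ r ⊆ Ω →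
  (∀ w ∈ ball w₀ r, S - w ∈ Ω') → (∀ w ∈ ball w₀ r, G 0 w = G' 0 (S - w)) →
  (∀ q ≤ Q, ∀ w ∈ ball w₀ r, ‖tau b g G' q (S - w) - 1‖ ≤ 1 / 4) →
  (∀ q, 1 ≤ q → q ≤ Q → lev b g G q w₀ ≤ 1 / 100) →
  (∑ q ∈ Finset.range Q, ∫⁻ w in ball w₀ r, ENNReal.ofReal (dens f b g (G q) w) ≤
    ENNReal.ofReal (r ^ 2 / 100)) →
  ∀ q ≤ Q, ∀ w ∈ ball w₀ r, G q w = G' q (S - w)

/-- LT: transport of strips between different cylinders.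
PROOF. As `MQ.LT` (helper30/MQ/LT.lean). TR: base point `0` instead of `i`, `l` instead of `l - i`. `ρ₁ = r₀/16`, `δ` tiny (`≤ η/20`, `≤ ρ₁/10^4`). The strip gives `χ` on `HP 0 ∪ ball (iy) (16ρ₁)`; PHW: `H2`; P1W for the base `0` and (TR) for the base `l`, levels `Ĝ`
(`Ĝ q 0 = b (l - q)`); KRE; ROTQ: `κ, Φ, χ'`; INC for the base `l`: `κ'`, `Φ̂`. `w* = iy + ρ₁/8`, `χ w = hat (ψ l) (S - w)` on `ball w* (ρ₁/32)` (there `Re w > 3ρ₁/32 > Re S`). CMP on `ball w* (ρ₁/32)`: `Ω = ball (ctr y ρ₁) r` (P2A gives LevSys; `‖w* - ctr‖ = 3ρ₁/8`, depth `≥ ρ₁/2`, PT2: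
`lev ≤ 520 ε/ρ₁²`); MA with `M = 2` (P2A: injective, multiplicity, MapsTo): the sum of the integrals is `≤ 2ε`; `Ω' = HP (3δ)` (P1A gives LevSys; `Re (S - w) ≤ 16ρ₁/1000 - ρ₁/8 + ρ₁/32 < -ρ₁/16`, PT1 at depth `≥ ρ₁/32`: `‖tau - 1‖ ≤ 1/4`). So `G q w* = GW Ĝ q (S - w*) = hat (ψ (l - q)) (Φ̂ (S - w*))`.
`v = Φ w*`, `v' = Φ̂ (S - w*)`, `χ' v = hat (ψ (l-q)) v'`; `MQ.GL` with
`e = r₀/200`, radius `ρ₁/4`; `S' = v + v'`, `‖S' - (S + κ + κ')‖ ≤ 2δ`. (SHF: `BB`, `IsNat`, `LevSys`, `tau`, `dens` do not depend on the shift of the index; `MQ.SHF_stmt` for strips.) -/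
def LT_stmt : Prop := ∀ (n : ℕ) (r₀ η ra : ℝ), 2 ≤ n → 0 < r₀ → r₀ ≤ 1 → 0 < η → 0 < ra →
  ∃ R₀ : ℝ, 0 < R₀ ∧
  ∃ ε₀ > (0 : ℝ), ∀ (k : ℕ) [NeZero k] (f : Polynomial ℂ) (b g : ZMod k → ℂ) (ψ : ZMod k → ℂ → ℂ)
    (R ε : ℝ), SU n k f b g ψ ra R ε → Fam b g ψ → R₀ ≤ R → ε ≤ ε₀ →
    ∀ (i l : ZMod k) (q : ℕ) (S : ℂ) (y : ℝ),
    i ≠ l → 1 ≤ q → q ≤ k → Strip b g (ψ i) (ψ l) S (y - r₀) (y + r₀) → S.re ≤ r₀ / 1000 →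
    ∃ κ κ' S' : ℂ, Complex.exp κ = Kq f b ψ i q ∧ Complex.exp κ' = Kq f b ψ l q ∧
      ‖S' - (S + κ + κ')‖ ≤ η ∧ |κ.re| ≤ η ∧ |κ'.re| ≤ η ∧
      Strip b g (ψ (i - (q : ZMod k))) (ψ (l - (q : ZMod k))) S' (y + κ.im - r₀ / 200)
        (y + κ.im + r₀ / 200)

/-- NG1: no wide strip if `2θ` is not near `0` (helper31/MQ/NG1.lean: copy, with `LT` and `COC` of PPS). -/
def NG1_stmt : Prop := ∀ (n : ℕ) (d₀ d₂ r₀ ra : ℝ), 2 ≤ n → 0 < d₀ → 0 < d₂ → 0 < r₀ → r₀ ≤ 1 →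
  0 < ra → ∃ R₀ : ℝ, 0 < R₀ ∧
  ∃ ε₀ > (0 : ℝ), ∀ (k : ℕ) [NeZero k] (f : Polynomial ℂ) (b g : ZMod k → ℂ) (ψ : ZMod k → ℂ → ℂ)
    (R ε : ℝ), SU n k f b g ψ ra R ε → Fam b g ψ → R₀ ≤ R → ε ≤ ε₀ →
    d₀ ≤ ‖rho f b / ‖rho f b‖ - 1‖ →
    d₂ ≤ ‖(rho f b / ‖rho f b‖) ^ 2 - 1‖ → ∀ (i l : ZMod k) (S : ℂ) (y : ℝ), i ≠ l →
    S.re ≤ r₀ / 10 ^ 6 → ¬ Strip b g (ψ i) (ψ l) S (y - r₀) (y + r₀)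

/-- NG2: no wide strip if the partner relation is symmetric (helper56/MQ/NG2.lean: copy, with `LT` and `COC` of PPS). -/
def NG2_stmt : Prop := ∀ (n : ℕ) (d₀ r₀ ra : ℝ), 2 ≤ n → 0 < d₀ → 0 < r₀ → r₀ ≤ 1 → 0 < ra →
  ∃ R₀ : ℝ, 0 < R₀ ∧
  ∃ ε₀ > (0 : ℝ), ∀ (k : ℕ) [NeZero k] (f : Polynomial ℂ) (b g : ZMod k → ℂ) (ψ : ZMod k → ℂ → ℂ)
    (R ε : ℝ), SU n k f b g ψ ra R ε → Fam b g ψ → R₀ ≤ R → ε ≤ ε₀ →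
    d₀ ≤ ‖rho f b / ‖rho f b‖ - 1‖ →
    ∀ (i l : ZMod k) (S : ℂ) (y : ℝ), i ≠ l → i + i = l + l →
    S.re ≤ r₀ / 10 ^ 6 → ¬ Strip b g (ψ i) (ψ l) S (y - r₀) (y + r₀)

/-- NG3: no wide strip if `θ` is near `π` and the partner relation is not symmetric (helper43/MQ/NG3.lean: copy, with `LT` and `COC` of PPS). -/
def NG3_stmt : Prop := ∀ (n : ℕ) (d₀ r₀ ra : ℝ), 2 ≤ n → 0 < d₀ → 0 < r₀ → r₀ ≤ 1 → 0 < ra →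
  ∃ d₂ > (0 : ℝ), ∃ R₀ : ℝ, 0 < R₀ ∧
  ∃ ε₀ > (0 : ℝ), ∀ (k : ℕ) [NeZero k] (f : Polynomial ℂ) (b g : ZMod k → ℂ) (ψ : ZMod k → ℂ → ℂ)
    (R ε : ℝ), SU n k f b g ψ ra R ε → Fam b g ψ → R₀ ≤ R → ε ≤ ε₀ →
    d₀ ≤ ‖rho f b / ‖rho f b‖ - 1‖ →
    ‖(rho f b / ‖rho f b‖) ^ 2 - 1‖ ≤ d₂ → ∀ (i l : ZMod k) (S : ℂ) (y : ℝ), i ≠ l →
    i + i ≠ l + l → S.re ≤ r₀ / 10 ^ 6 → ¬ Strip b g (ψ i) (ψ l) S (y - r₀) (y + r₀)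

/-- NOG: no wide strip between different cylinders. PROOF. NG3 gives `d₂`, then NG1 with this `d₂`, NG2 (helper25/MQ/NOG.lean). -/
def NOG_stmt : Prop := ∀ (n : ℕ) (d₀ r₀ ra : ℝ), 2 ≤ n → 0 < d₀ → 0 < r₀ → r₀ ≤ 1 → 0 < ra →
  ∃ R₀ : ℝ, 0 < R₀ ∧
  ∃ ε₀ > (0 : ℝ), ∀ (k : ℕ) [NeZero k] (f : Polynomial ℂ) (b g : ZMod k → ℂ) (ψ : ZMod k → ℂ → ℂ)
    (R ε : ℝ), SU n k f b g ψ ra R ε → Fam b g ψ → R₀ ≤ R → ε ≤ ε₀ →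
    d₀ ≤ ‖rho f b / ‖rho f b‖ - 1‖ →
    ∀ (i l : ZMod k) (S : ℂ) (y : ℝ), i ≠ l →
    S.re ≤ r₀ / 10 ^ 6 → ¬ Strip b g (ψ i) (ψ l) S (y - r₀) (y + r₀)

/-- WIN: the windows (helper74/MQ/WIN.lean: copy, with `FRQ` and `COC` of PPS; `MQ.WB`, `MQ.WR`, `MQ.DPR`, `MPS.NOSL` as hypotheses). -/
def WIN_stmt : Prop := ∀ (n : ℕ) (d₀ Λ ra : ℝ), 2 ≤ n → 0 < d₀ → 1000 ≤ Λ → 0 < ra →
  ∃ Γ : Finset ℝ, (∀ γ ∈ Γ, 0 < γ ∧ γ ≤ 1) ∧ ∃ R₀ : ℝ, 0 < R₀ ∧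
  ∃ ε₀ > (0 : ℝ), ∀ (k : ℕ) [NeZero k] (f : Polynomial ℂ) (b g : ZMod k → ℂ) (ψ : ZMod k → ℂ → ℂ)
    (R ε : ℝ), SU n k f b g ψ ra R ε → Fam b g ψ → R₀ ≤ R → ε ≤ ε₀ →
    d₀ ≤ ‖rho f b / ‖rho f b‖ - 1‖ →
    ∃ γ ∈ Γ, ∃ (N : ℕ) (ce : ℤ → ℝ) (α : ZMod k → ℝ), Win b g ψ γ Λ N ce α

/-- MAINB: the main theorem in the form of an error estimate (helper74/MQ/MAINB.lean: copy, with `WIN`, `NOG` of PPS).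
PROOF. `Λ = 1000`. WIN: `Γ`, `R₀`, `ε₀`; NOG with `r₀ = γ/8` for `γ ∈ Γ`; `R` = maximum of all `R₀`, of `R₁` and of `ra + 1`; `ε` = minimum. `MPS.NM` gives `ψ`, so `SU` and `MQ.Fam`; the rest is the combinatorial part of `MQ.MAINB`. -/
def MAINB_stmt : Prop := ∀ (n : ℕ) (d₀ ra R₁ : ℝ), 2 ≤ n → 0 < d₀ → 0 < ra →
  ∃ R : ℝ, R₁ ≤ R ∧ ra < R ∧ ∃ ε > (0 : ℝ),
  ∀ (k : ℕ) [NeZero k] (f : Polynomial ℂ) (b g : ZMod k → ℂ), 2 ≤ k → f.natDegree = n → IsCyc f b →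
  (∀ j, ‖b j‖ ≤ ra) → (∀ y : ℂ, ‖f.eval y‖ < R → ‖y‖ < R) →
  1 < ‖rho f b‖ → d₀ ≤ ‖rho f b / ‖rho f b‖ - 1‖ → ∑ i, g i ≠ 0 →
  ¬ (2 * Real.pi * Real.log ‖rho f b‖ + 4 * ∫ z in ball (0 : ℂ) R, ‖er f b g z‖ ≤ ε)

end PPS
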