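import Pool.Agent.helper36.PP.SpecE
import Pool.Agent.helper74.NL.Spec

/-!
# Project pp: (MP_70a088_an): part L (invariant line fields of polynomials)

Rules: see SpecA. Generalisation of project nl: (helper74, `Pool/Agent/helper74/NL/Spec.lean`, namespace `NLF`; proofs in `Pool/Agent/<seat>/NL/XX.lean`).
The statements `NLF.CTB_stmt`, `NLF.CTH_stmt`, `NLF.CT0_stmt`, `NLF.MAXP_stmt` are proved and may be used as hypotheses.

PLAN. `a = CT μ` is the Cauchy transform of an invariant line field `μ`. `f'(b) a(b) = a(f b) - ∫ μ (f' /ₘ (X - b))` (REL). For a polynomial `Q` of degree `≤ n - 2`: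
`T Q = ∑_v s_v/(z - v)`, the sum over the critical values (RAN), so `∫ μ Q = ∑ s_v a(v)`. If `a(v) = 0` for all critical values then `a = 0` and `μ = 0` (LNZ). For the exact coefficients of a cycle `er = ∑ s_v/(z - v)` and
`|∑ s_v a(v)| = |∫ μ er| ≤ 2π log|ρ|` (INQ). With as many linearly independent line fields as critical values the matrix `(a_i(v))` is invertible, so `∫|er| ≤ C log|ρ|`, and THB0 gives `log|ρ| ≥ η`.
-/

set_option autoImplicit false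

open Complex Metric Set Filter Topology MeasureTheory MPS MQ Pool.Agent.helper98.ILF

noncomputable section

namespace PPS

/-- a bounded invariant Beltrami form on the Julia set, with support in the disc of radius `A`. -/
structure LF (f : Polynomial ℂ) (A : ℝ) (μ : ℂ → ℂ) : Prop where
  meas : Measurable μ
  bd : ∀ z, ‖μ z‖ ≤ 1
  supp : ∀ z, μ z ≠ 0 → ‖z‖ < A
  julia : ∀ z, μ z ≠ 0 → z ∈ juliaSet (fun z : ℂ => f.eval z)
  inv : ∀ᵐ z : ℂ, μ (f.eval z) * (starRingEnd ℂ) (fd f z) / fd f z = μ z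

/-- CB: change of variables (Bochner integral version of MCV; helper66/NL/CB.lean, with MS for the measurability). -/
def CB_stmt : Prop := ∀ f : Polynomial ℂ, 1 ≤ f.natDegree → ∀ (F : ℂ → ℂ) (K : Set ℂ), Measurable F →
  MeasurableSet K → IntegrableOn F {y : ℂ | f.eval y ∈ K} →
  IntegrableOn (fun z => ((pre f z).map fun y => F y / ((‖fd f y‖ ^ 2 : ℝ) : ℂ)).sum) K ∧
  ∫ z in K, ((pre f z).map fun y => F y / ((‖fd f y‖ ^ 2 : ℝ) : ℂ)).sum =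
    ∫ y in {y : ℂ | f.eval y ∈ K}, F y

/-- NB: for almost every `z` no preimage lies in a given null set (helper16/NL/NB.lean).
PROOF. `N` measurable without loss; MCV for the indicator function of `N`, `K = univ`: the sum vanishes almost everywhere, and `1/ofReal(..) ≠ 0`. -/
def NB_stmt : Prop := ∀ f : Polynomial ℂ, 1 ≤ f.natDegree → ∀ N : Set ℂ, volume N = 0 →
  ∀ᵐ z : ℂ, ∀ y ∈ pre f z, y ∉ N

/-- IP: invariance: `∫_K μ Tq = ∫_{f⁻¹K} μ q` (helper11/NL/IP.lean).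
PROOF. CB for `F = μ q`. For almost every `z` (NB for the null set where `inv` fails; `z ∉ CV f`, a finite set): for `y ∈ pre f z`: `f y = z`, `fd f y ≠ 0`, `μ y = μ z conj(fd f y)/fd f y`, so `μ y q y / |fd f y|² = μ z q y/(fd f y)²`. -/
def IP_stmt : Prop := ∀ (f : Polynomial ℂ) (A : ℝ) (μ : ℂ → ℂ), 1 ≤ f.natDegree → LF f A μ →
  ∀ (q : ℂ → ℂ) (K : Set ℂ),
  Measurable q → MeasurableSet K → IntegrableOn (fun y => μ y * q y) {y : ℂ | f.eval y ∈ K} →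
  IntegrableOn (fun z => μ z * TT f q z) K ∧
  ∫ z in K, μ z * TT f q z = ∫ y in {y : ℂ | f.eval y ∈ K}, μ y * q y

/-- RAN: the image of the polynomials of degree `≤ n - 2` under `T`.
PROOF 1 (algebraic). For `z ∉ CV f` let `Φ_z(b) = 1/(z - f b) - f'(b) ∑_y 1/((y - b) f'(y)²)`. By PF and `f'(y)/(y - b) = f'(b)/(y - b) + K_b(y)`, `K_b = f' /ₘ (X - b)`: `Φ_z(b) = T K_b (z)`, a polynomial in `b` of degree `≤ n - 2` (for `f b ≠ z`, so as an identity of rational functions). Write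
`f' = C ∏ (X - c)^{e_c}`, `f'_v` = the product of the factors with `f c = v`: `f' = C ∏_v f'_v`, pairwise coprime. CRT: polynomials `H_v` of degree `≤ n - 2` with `H_v ≡ 1` mod `f'_v`, `≡ 0` mod `f'_v'`. `f - v ≡ 0` mod `(X - c)^{e_c + 1}`, so `1/(z - f) ≡ 1/(z - v)` to the order `e_c` at `c`: `f'` divides the numerator of
`Φ_z - ∑_v H_v/(z - v)`, a polynomial of degree `< n - 1`: it is `0`. So `T K_b(z) = ∑_v H_v(b)/(z - v)`; the polynomials `K_b` span the polynomials of degree `≤ n - 2` (coefficients in `b`: `K_b = ∑_m b^m p_m`, `p_m = ∑_{l>m} α_l X^(l-1-m)` of exact degree `n - 2 - m`).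
PROOF 2 (analytic). `g = TT f Q` is holomorphic off the finite set `V = CV f` (locally the `n` simple preimages are holomorphic functions of `z`: inverse function theorem and PRB), tends to `0` at infinity (`‖Q y‖/‖f' y‖² ≤ C/‖y‖^n`, `‖y‖ → ∞` uniformly), and `(z - v)² g(z) → 0` as `z → v`: `‖f y - v‖ = ‖f y - f c‖ ≤ C ‖y - c‖^{e+1}` near a zero `c`
of order `e` of `f'` with `f c = v`, and `‖f' y‖ ≥ c ‖y - c‖^e`, so `‖f' y‖² ≥ c' ‖z - v‖^{2e/(e+1)}`, `2e/(e+1) < 2`. So `∏_v (z - v) g(z)` extends to an entire function (removable singularities applied to `(z - v)² g`, which vanishes at `v`) that is `O(‖z‖^(N-1))`, a polynomial of degree `≤ N - 1` (Liouville), and partial fractions (Lagrange). -/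
def RAN_stmt : Prop := ∀ (f Q : Polynomial ℂ) (V : Finset ℂ), 2 ≤ f.natDegree →
  Q.natDegree + 2 ≤ f.natDegree → (∀ v, v ∈ V ↔ v ∈ CV f) →
  ∃ s : ℂ → ℂ, ∀ z, z ∉ V → TT f (fun y => Q.eval y) z = ∑ v ∈ V, s v / (z - v)

/-- CTA: the Cauchy transform (`NLF.CTB`, `NLF.CTH`, `NLF.CT0` for support in the disc of radius `A`).
PROOF. `A ≥ 4` without loss. `μ' z = μ ((A/4) z)` has support in `ball 0 4` and `CT μ' b = (4/A) CT μ ((A/4) b)` (change of variables `z ↦ (A/4) z`). -/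
def CTA_stmt : Prop := ∀ (μ : ℂ → ℂ) (A : ℝ), Measurable μ → (∀ z, ‖μ z‖ ≤ 1) →
  (∀ z, μ z ≠ 0 → ‖z‖ < A) →
  (∀ b, Integrable (fun z => μ z / (z - b))) ∧ (∃ M : ℝ, ∀ b, ‖NLF.CT μ b‖ ≤ M) ∧
  Continuous (NLF.CT μ) ∧ Tendsto (NLF.CT μ) (Bornology.cobounded ℂ) (𝓝 0) ∧
  (∀ U : Set ℂ, IsOpen U → (∀ z ∈ U, μ z = 0) → DifferentiableOn ℂ (NLF.CT μ) U) ∧
  ((∀ b, NLF.CT μ b = 0) → ∀ᵐ z : ℂ, μ z = 0)

/-- REL: the functional equation.
PROOF. IP with `K = univ`, `q y = fd f y/(y - b)`: `q y = fd f b/(y - b) + K_b(y)` for `y ≠ b`, `K_b = f' /ₘ (X - b)` (`Polynomial.modByMonic_add_div`, `modByMonic_X_sub_C_eq_C_eval`), so `μ q` is integrable (CTA; `μ` bounded with bounded support) with integral `fd f b CT μ b + ∫ μ K_b`.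
For `z ∉ CV f`, `z ≠ f b`: `TT f q z = ∑_y 1/((y - b) fd f y) = 1/(z - f b)` (PF). -/
def REL_stmt : Prop := ∀ (f : Polynomial ℂ) (A : ℝ) (μ : ℂ → ℂ), 2 ≤ f.natDegree → LF f A μ → ∀ b : ℂ,
  fd f b * NLF.CT μ b = NLF.CT μ (f.eval b) -
    ∫ z : ℂ, μ z * (f.derivative /ₘ (Polynomial.X - Polynomial.C b)).eval z

/-- JUL: `a` vanishes on the Julia set (helper92/NL/JUL.lean).
PROOF. `deriv f^[k] b * a b = a (f^[k] b)` (chain rule), `‖a‖ ≤ M` (CTA). Let `b₀ ∈ J`, `a b₀ ≠ 0`: `‖a‖ ≥ m > 0` on a ball, there all iterates are `M/m`-Lipschitz, hence equicontinuous for the chordal distance: `b₀ ∈ fatouSet`. -/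
def JUL_stmt : Prop := ∀ (f : Polynomial ℂ) (A : ℝ) (μ : ℂ → ℂ), LF f A μ →
  (∀ b, fd f b * NLF.CT μ b = NLF.CT μ (f.eval b)) →
  ∀ b ∈ juliaSet (fun z : ℂ => f.eval z), NLF.CT μ b = 0

/-- LNZ: a form with vanishing Cauchy transform at the critical values is zero.
PROOF. For a polynomial `Q` of degree `≤ n - 2`: IP (`K = univ`) and RAN: `∫ μ Q = ∫ μ TT f Q = ∑ s_v CT μ v = 0` (`V = CV f` is finite, PRB). REL with `Q = f' /ₘ (X - b)` (natDegree `n - 2`). JUL; `NLF.MAXP` with `J = juliaSet` (closed; off `J` `μ = 0`, CTA fifth part); CTA last part. -/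
def LNZ_stmt : Prop := ∀ (f : Polynomial ℂ) (A : ℝ) (μ : ℂ → ℂ), 2 ≤ f.natDegree → LF f A μ →
  (∀ v ∈ CV f, NLF.CT μ v = 0) → ∀ᵐ z : ℂ, μ z = 0

/-- RADI: radii (helper6/NL/RAD.lean). PROOF. `r i = ∏_{j < i.val} ‖fd f (b j)‖`. -/
def RADI_stmt : Prop := ∀ (k : ℕ) [NeZero k] (f : Polynomial ℂ) (b : ZMod k → ℂ), IsCyc f b →
  1 ≤ ‖rho f b‖ → ∃ r : ZMod k → ℝ, (∀ i, 0 < r i) ∧ (∀ i, r (i + 1) ≤ ‖fd f (b i)‖ * r i) ∧
    ∑ i, Real.log (‖fd f (b i)‖ * r i / r (i + 1)) = Real.log ‖rho f b‖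

/-- SD1: points inside the discs whose image is outside (helper22/NL/SD1.lean; `MPS.MD_annB`, `MPS.MD_loc` do not depend on the map, `MD_der` for `f`: see MD). -/
def SD1_stmt : Prop := ∀ (k : ℕ) [NeZero k] (f : Polynomial ℂ) (b g : ZMod k → ℂ) (r : ZMod k → ℝ),
  1 ≤ f.natDegree → IsCyc f b → (∀ i, 0 < r i) → (∀ i, r (i + 1) ≤ ‖fd f (b i)‖ * r i) →
  ∀ δ > (0 : ℝ), ∀ᶠ s in 𝓝[>] (0 : ℝ),
    ∫⁻ z in {z : ℂ | f.eval z ∈ NLF.KK b (fun i => s * r i)} \ NLF.KK b (fun i => s * r i),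
      ENNReal.ofReal ‖BB b g z‖ ≤
    ENNReal.ofReal (2 * Real.pi * (∑ i, Real.log (‖fd f (b i)‖ * r i / r (i + 1))) + δ)

/-- SD2: points outside of the discs whose image is inside (helper61/NL/SD2.lean). -/
def SD2_stmt : Prop := ∀ (k : ℕ) [NeZero k] (f : Polynomial ℂ) (b g : ZMod k → ℂ) (r : ZMod k → ℝ)
  (A : ℝ), 1 ≤ f.natDegree → IsCyc f b → (∀ i, 0 < r i) → (∀ i, r (i + 1) ≤ ‖fd f (b i)‖ * r i) →
  ∀ δ > (0 : ℝ), ∀ᶠ s in 𝓝[>] (0 : ℝ),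
    ∫⁻ z in (NLF.KK b (fun i => s * r i) \ {z : ℂ | f.eval z ∈ NLF.KK b (fun i => s * r i)}) ∩ ball 0 A,
      ENNReal.ofReal ‖BB b g z‖ ≤ ENNReal.ofReal δ

/-- PAIR: pairing with `μ` (helper47/NL/PAIR.lean).
PROOF. `B` is bounded off the discs and on `f⁻¹ KK`, so `μ B` is integrable there. IP with `q = BB b g`, `K = KK b r`: `∫_K μ TB = ∫_{f⁻¹K} μ B`, and `TB = B - er` by definition; so `∫_K μ er = ∫_K μ B - ∫_{f⁻¹K} μ B`. -/
def PAIR_stmt : Prop := ∀ (k : ℕ) [NeZero k] (f : Polynomial ℂ) (b g : ZMod k → ℂ) (A : ℝ)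
  (μ : ℂ → ℂ) (r : ZMod k → ℝ), 1 ≤ f.natDegree → IsCyc f b → LF f A μ → (∀ i, 0 < r i) →
  ENNReal.ofReal ‖∫ z in NLF.KK b r, μ z * er f b g z‖ ≤
    (∫⁻ z in {z : ℂ | f.eval z ∈ NLF.KK b r} \ NLF.KK b r, ENNReal.ofReal ‖BB b g z‖) +
    ∫⁻ z in (NLF.KK b r \ {z : ℂ | f.eval z ∈ NLF.KK b r}) ∩ ball 0 A, ENNReal.ofReal ‖BB b g z‖

/-- LIM: the discs shrink.
PROOF. `er = TT f (QQ ..)` almost everywhere (ERQ), `μ QQ` is integrable (bounded support), so `μ er` is integrable (IP, `K = univ`); dominated convergence (the indicator functions of `KK b (s r)` tend to `1` almost everywhere). -/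
def LIM_stmt : Prop := ∀ (k : ℕ) [NeZero k] (f : Polynomial ℂ) (b g : ZMod k → ℂ) (A : ℝ)
  (μ : ℂ → ℂ) (r : ZMod k → ℝ), 2 ≤ f.natDegree → IsCyc f b → LF f A μ → (∀ i, 0 < r i) →
  Exact f b g → Integrable (fun z => μ z * er f b g z) ∧
  Tendsto (fun s : ℝ => ∫ z in NLF.KK b (fun i => s * r i), μ z * er f b g z) (𝓝[>] 0)
    (𝓝 (∫ z : ℂ, μ z * er f b g z))

/-- INQ: `|∫ μ er| ≤ 2π log|ρ|`. PROOF. RADI, SD1, SD2, PAIR, LIM (every `δ > 0`; helper25/NL/INEQ.lean). -/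
def INQ_stmt : Prop := ∀ (k : ℕ) [NeZero k] (f : Polynomial ℂ) (b g : ZMod k → ℂ) (A : ℝ)
  (μ : ℂ → ℂ), 2 ≤ f.natDegree → IsCyc f b → LF f A μ → 1 ≤ ‖rho f b‖ → Exact f b g →
  ‖∫ z : ℂ, μ z * er f b g z‖ ≤ 2 * Real.pi * Real.log ‖rho f b‖

/-- ERV: for exact coefficients the error is a sum of simple poles at the critical values.
PROOF. `QQ f b g` is a polynomial of degree `≤ n - 2`; RAN, ERQ. -/
def ERV_stmt : Prop := ∀ (k : ℕ) [NeZero k] (f : Polynomial ℂ) (b g : ZMod k → ℂ) (V : Finset ℂ),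
  2 ≤ f.natDegree → IsCyc f b → Exact f b g → (∀ v, v ∈ V ↔ v ∈ CV f) →
  ∃ s : ℂ → ℂ, ∀ᵐ z : ℂ, er f b g z = ∑ v ∈ V, s v / (z - v)

/-- MAT: linear algebra. PROOF. The matrix `M` (functions on the finite type `ι`) has trivial left kernel, so it is invertible; `s = M⁻¹ (M s)`. -/
def MAT_stmt : Prop := ∀ (ι : Type) [Fintype ι] [DecidableEq ι] (M : Matrix ι ι ℂ),
  (∀ l : ι → ℂ, (∀ v, ∑ i, l i * M i v = 0) → l = 0) →
  ∃ C > (0 : ℝ), ∀ (s : ι → ℂ) (v : ι), ‖s v‖ ≤ C * ∑ i, ‖∑ v, M i v * s v‖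

/-- JBD: the Julia set of a polynomial is bounded.
PROOF. `A` with `‖f z‖ ≥ 2‖z‖` for `‖z‖ ≥ A` (RAD). For `‖z₀‖ > A` the iterates tend to infinity uniformly near `z₀`: `‖f^[k] w‖ ≥ 2^k A`; `chordal a b ≤ 1/‖a‖ + 1/‖b‖`, and the finitely many first iterates are continuous: equicontinuous at all points with `‖z‖ > A`, an open set. -/
def JBD_stmt : Prop := ∀ f : Polynomial ℂ, 2 ≤ f.natDegree →
  ∃ A : ℝ, ∀ z ∈ juliaSet (fun z : ℂ => f.eval z), ‖z‖ < A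

/-- FL: line fields, quantitative form.
PROOF. `n = natDegree`, `a` large: `Bd n a f`. THB0: `R`, `ε`. `V` = the finite set `CV f` (PRB), `e : V ≃ Fin (CV f).ncard`. `A` from JBD: every `μ i` is `LF f A` (`deriv (f.eval) = fd f`). Matrix `M i v = CT (μ i) v`: if `∑ l i M i v = 0` for all `v ∈ V`, then `μ = c ∑ l i μ i` (`c > 0` with `c ∑ ‖l i‖ ≤ 1`) is `LF f A`,
`CT μ v = 0` (linearity, CTA), LNZ: `μ = 0` almost everywhere, so `l = 0`. MAT: `C`. For a cycle of period `k` with `‖ρ‖ > 1` (ZCY) and exact `g` (TG) ERV gives `s`; `∫ μ_i er = ∑_v s v CT (μ i) v`, of norm `≤ 2π log‖ρ‖` (INQ); MAT: `‖s v‖ ≤ 2π C N log‖ρ‖`; `∫_{ball 0 R} ‖er‖ ≤ ∑ ‖s v‖ ∫_{ball 0 R} 1/‖z - v‖ ≤ C' log‖ρ‖` (`MPS.MI`).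
If `k ≥ 2`: THB0: `ε ≤ (2π + 4C') log‖ρ‖`. If `k = 1`: there are finitely many fixed points (roots of `f - X`), take the minimum of the positive numbers `log‖ρ‖`. -/
def FL_stmt : Prop := ∀ (f : Polynomial ℂ), 2 ≤ f.natDegree →
  ∀ μ : Fin (CV f).ncard → ℂ → ℂ, (∀ i, IsInvariantLineField (fun z : ℂ => f.eval z) (μ i)) →
  (∀ l : Fin (CV f).ncard → ℂ, (∀ᵐ z : ℂ, ∑ i, l i * μ i z = 0) → l = 0) →
  ∀ d > (0 : ℝ), ∃ η > (0 : ℝ), ∀ (k : ℕ) (z : ℂ), Cyc f k z → 1 < ‖mlt f k z‖ →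
    d ≤ ‖mlt f k z / ‖mlt f k z‖ - 1‖ → η ≤ Real.log ‖mlt f k z‖

/-- FLC: line fields, qualitative form. PROOF. FL with `d = ‖ζ - 1‖/2`, as FC. -/
def FLC_stmt : Prop := ∀ (f : Polynomial ℂ) (ζ : ℂ), 2 ≤ f.natDegree → ‖ζ‖ = 1 → ζ ≠ 1 →
  (∀ η > (0 : ℝ), ∃ (k : ℕ) (z : ℂ), Cyc f k z ∧ 1 < ‖mlt f k z‖ ∧ ‖mlt f k z - ζ‖ < η) →
  ¬ ∃ μ : Fin (CV f).ncard → ℂ → ℂ, (∀ i, IsInvariantLineField (fun z : ℂ => f.eval z) (μ i)) ∧
    ∀ l : Fin (CV f).ncard → ℂ, (∀ᵐ z : ℂ, ∑ i, l i * μ i z = 0) → l = 0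

end PPS
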